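import Pool.Agent.H35.VQ.Wkb

/-!
# The test vector
-/

namespace Pool.Agent.H35.VQ

open Finset

/-- the envelope -/
noncomputable def gg (N n : ℕ) : ℝ :=
  if N ≤ n ∧ n ≤ 2 * N then ((n : ℝ) - N + 1) * (2 * N + 1 - n) else 0

/-- the phase -/
noncomputable def ZZ (q : ℕ) (t : ℝ) (N n : ℕ) : ℂ := ∏ k ∈ Ico N n, zz q t k

/-- the vector -/
noncomputable def cc (q : ℕ) (t : ℝ) (N n : ℕ) : ℂ := (gg N n : ℂ) * ZZ q t N n

/-- the residual -/
noncomputable def RR (q : ℕ) (t : ℝ) (N n : ℕ) : ℂ :=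
  (bb q n : ℂ) * cc q t N (n - 1) + (bb q (n + 1) : ℂ) * cc q t N (n + 1) - t * cc q t N n

theorem gg_eq {N n : ℕ} (h1 : N ≤ n + 1) (h2 : n ≤ 2 * N + 1) :
    gg N n = ((n : ℝ) - N + 1) * (2 * N + 1 - n) := by
  unfold gg
  split_ifs with h
  · rfl
  · have : n + 1 = N ∨ n = 2 * N + 1 := by omega
    rcases this with h3 | h3
    · rw [← h3]
      push_cast
      ring
    · rw [h3]
      push_cast
      ring

theorem gg_zero {N n : ℕ} (h : n < N ∨ 2 * N < n) : gg N n = 0 := by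
  unfold gg
  rw [if_neg (by omega)]

theorem gg_nonneg (N n : ℕ) : 0 ≤ gg N n := by
  unfold gg
  split_ifs with h
  · have h1 : (N : ℝ) ≤ n := by exact_mod_cast h.1
    have h2 : (n : ℝ) ≤ 2 * N := by exact_mod_cast h.2
    exact mul_nonneg (by linarith) (by linarith)
  · exact le_refl 0

theorem gg_le {N : ℕ} (hN : 10 ≤ N) (n : ℕ) : gg N n ≤ 9 / 25 * (N : ℝ) ^ 2 := by
  have h3 : (10 : ℝ) ≤ N := by exact_mod_cast hN
  unfold gg
  split_ifs with h
  · nlinarith [sq_nonneg (((n : ℝ) - N + 1) - (2 * N + 1 - n))]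
  · positivity

theorem gg_diff {N n : ℕ} (hN : 10 ≤ N) (h1 : N ≤ n + 1) (h2 : n ≤ 2 * N) :
    |gg N (n + 1) - gg N n| ≤ 11 / 10 * (N : ℝ) := by
  have h3 : (10 : ℝ) ≤ N := by exact_mod_cast hN
  have h4 : (N : ℝ) ≤ n + 1 := by exact_mod_cast h1
  have h5 : (n : ℝ) ≤ 2 * N := by exact_mod_cast h2
  rw [gg_eq (by omega) (by omega), gg_eq h1 (by omega)]
  push_cast
  rw [abs_le]
  constructor <;> nlinarith

section

variable {N q : ℕ} {t : ℝ}

theorem ZZ_norm (hq : 8 * N ≤ q) {n : ℕ} (h2 : n ≤ 2 * N + 1) (hN : 10 ≤ N)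
    (ht : t ^ 2 ≤ (N : ℝ) * q) : ‖ZZ q t N n‖ = 1 := by
  unfold ZZ
  rw [norm_prod]
  refine Finset.prod_eq_one fun k hk => ?_
  rw [Finset.mem_Ico] at hk
  exact zz_norm hq hk.1 (by omega) hN ht

theorem ZZ_succ {n : ℕ} (h : N ≤ n) : ZZ q t N (n + 1) = ZZ q t N n * zz q t n := by
  unfold ZZ
  rw [Finset.prod_Ico_succ_top h]

theorem cc_norm (hq : 8 * N ≤ q) (n : ℕ) (hN : 10 ≤ N) (ht : t ^ 2 ≤ (N : ℝ) * q) :
    ‖cc q t N n‖ = gg N n := by
  unfold cc
  by_cases h : N ≤ n ∧ n ≤ 2 * N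
  · rw [norm_mul, ZZ_norm hq (by omega) hN ht, mul_one, Complex.norm_real, Real.norm_eq_abs,
      abs_of_nonneg (gg_nonneg N n)]
  · have h0 : gg N n = 0 := gg_zero (by omega)
    rw [h0]
    simp

theorem s_mul (hq : 8 * N ≤ q) (hN : 10 ≤ N) :
    (q : ℝ) / √((N : ℝ) * q) = √((N : ℝ) * q) / N := by
  have hs := sqrt_pos' hq hN
  have hNpos : (0 : ℝ) < N := by exact_mod_cast (by omega : 0 < N)
  rw [div_eq_div_iff hs.ne' hNpos.ne', Real.mul_self_sqrt (by positivity)]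
  ring

/-- the common bound for the two last terms -/
theorem step_bound (hq : 8 * N ≤ q) {n : ℕ} (h1 : N ≤ n) (h2 : n ≤ 2 * N) (hN : 10 ≤ N) :
    |bb q (n + 1) * gg N (n + 1) - bb q n * gg N n| ≤ 1811 / 1000 * (N * √((N : ℝ) * q)) := by
  have hs := sqrt_pos' hq hN
  have hNpos : (0 : ℝ) < N := by exact_mod_cast (by omega : 0 < N)
  have e1 := bb_upper hq (n := n + 1) (by omega) hN
  have e2 := bb_diff hq h1 (by omega) hN
  have e3 := gg_diff hN (by omega) h2
  have e4 := gg_le hN n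
  have e5 := gg_nonneg N n
  rw [s_mul hq hN] at e2
  have h3 : bb q (n + 1) * gg N (n + 1) - bb q n * gg N n =
      bb q (n + 1) * (gg N (n + 1) - gg N n) + (bb q (n + 1) - bb q n) * gg N n := by ring
  rw [h3]
  refine (abs_add_le _ _).trans ?_
  rw [abs_mul, abs_mul, abs_of_nonneg (bb_nonneg q (n + 1)), abs_of_nonneg e5]
  calc bb q (n + 1) * |gg N (n + 1) - gg N n| + |bb q (n + 1) - bb q n| * gg N n
      ≤ (29 / 20 * √((N : ℝ) * q)) * (11 / 10 * (N : ℝ)) +
        (3 / 5 * (√((N : ℝ) * q) / N)) * (9 / 25 * (N : ℝ) ^ 2) := by gcongr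
    _ = 1811 / 1000 * (N * √((N : ℝ) * q)) := by
        field_simp
        norm_num

theorem RR_bound (hq : 8 * N ≤ q) {n : ℕ} (h1 : N ≤ n + 1) (h2 : n ≤ 2 * N + 1) (hN : 10 ≤ N)
    (ht : t ^ 2 ≤ (N : ℝ) * q) : ‖RR q t N n‖ ≤ 15 / 4 * (N * √((N : ℝ) * q)) := by
  have hs := sqrt_pos' hq hN
  have hNpos : (0 : ℝ) < N := by exact_mod_cast (by omega : 0 < N)
  have hN10 : (10 : ℝ) ≤ N := by exact_mod_cast hN
  have hNs : 0 < (N : ℝ) * √((N : ℝ) * q) := by positivity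
  rcases Nat.lt_or_ge n N with hlt | hge
  · -- n + 1 = N
    have hn : n + 1 = N := by omega
    have c1 : cc q t N (n - 1) = 0 := by
      unfold cc
      rw [gg_zero (by omega)]
      simp
    have c2 : cc q t N n = 0 := by
      unfold cc
      rw [gg_zero (by omega)]
      simp
    unfold RR
    rw [c1, c2, mul_zero, mul_zero, zero_add, sub_zero, norm_mul, cc_norm hq _ hN ht,
      Complex.norm_real, Real.norm_eq_abs, abs_of_nonneg (bb_nonneg _ _)]
    have e1 := bb_upper hq (n := n + 1) (by omega) hN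
    have e2 : gg N (n + 1) ≤ 11 / 10 * (N : ℝ) := by
      rw [gg_eq (by omega) (by omega), hn]
      nlinarith
    calc bb q (n + 1) * gg N (n + 1) ≤ (29 / 20 * √((N : ℝ) * q)) * (11 / 10 * (N : ℝ)) := by
          have := gg_nonneg N (n + 1)
          gcongr
      _ ≤ 15 / 4 * (N * √((N : ℝ) * q)) := by nlinarith
  rcases Nat.lt_or_ge (2 * N) n with hlt | hle
  · have hn : n = 2 * N + 1 := by omega
    have c1 : cc q t N (n + 1) = 0 := by
      unfold cc
      rw [gg_zero (by omega)]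
      simp
    have c2 : cc q t N n = 0 := by
      unfold cc
      rw [gg_zero (by omega)]
      simp
    unfold RR
    rw [c1, c2, mul_zero, mul_zero, add_zero, sub_zero, norm_mul, cc_norm hq _ hN ht,
      Complex.norm_real, Real.norm_eq_abs, abs_of_nonneg (bb_nonneg _ _)]
    have e1 := bb_upper hq (n := n) (by omega) hN
    have e2 : gg N (n - 1) ≤ 11 / 10 * (N : ℝ) := by
      rw [gg_eq (by omega) (by omega), hn]
      have : ((2 * N + 1 - 1 : ℕ) : ℝ) = 2 * N := by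
        rw [Nat.add_sub_cancel]
        push_cast
        ring
      rw [this]
      nlinarith
    calc bb q n * gg N (n - 1) ≤ (29 / 20 * √((N : ℝ) * q)) * (11 / 10 * (N : ℝ)) := by
          have := gg_nonneg N (n - 1)
          gcongr
      _ ≤ 15 / 4 * (N * √((N : ℝ) * q)) := by nlinarith
  have hst := step_bound hq hge hle hN
  have hz1 := zz_norm hq hge (by omega) hN ht
  have hZ := ZZ_norm hq (n := n) (by omega) hN ht
  have htc := zz_add_conj hq (t := t) hge (by omega : n ≤ 2 * N + 2) hN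
  have ebn := bb_upper hq (n := n) (by omega) hN
  have hcn1 : cc q t N (n + 1) = (gg N (n + 1) : ℂ) * (ZZ q t N n * zz q t n) := by
    unfold cc
    rw [ZZ_succ hge]
  rcases Nat.eq_or_lt_of_le hge with heq | hgt
  · -- n = N
    have c1 : cc q t N (n - 1) = 0 := by
      unfold cc
      rw [gg_zero (by omega)]
      simp
    have hR : RR q t N n = ZZ q t N n * (-((bb q n : ℂ) * gg N n * (starRingEnd ℂ) (zz q t n)) +
        ((bb q (n + 1) * gg N (n + 1) - bb q n * gg N n : ℝ) : ℂ) * zz q t n) := by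
      unfold RR
      rw [c1, hcn1, ← htc]
      unfold cc
      push_cast
      ring
    rw [hR, norm_mul, hZ, one_mul]
    refine (norm_add_le _ _).trans ?_
    rw [norm_neg, norm_mul, norm_mul, norm_mul, Complex.norm_real, Complex.norm_real,
      Complex.norm_real, RCLike.norm_conj, hz1, mul_one, mul_one, Real.norm_eq_abs,
      Real.norm_eq_abs, Real.norm_eq_abs, abs_of_nonneg (bb_nonneg _ _),
      abs_of_nonneg (gg_nonneg _ _)]
    have e2 : gg N n ≤ 11 / 10 * (N : ℝ) := by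
      rw [gg_eq (by omega) (by omega), ← heq]
      nlinarith
    have e3 : bb q n * gg N n ≤ (29 / 20 * √((N : ℝ) * q)) * (11 / 10 * (N : ℝ)) := by
      have := gg_nonneg N n
      gcongr
    nlinarith
  · -- N < n
    obtain ⟨m, rfl⟩ : ∃ m, n = m + 1 := ⟨n - 1, by omega⟩
    have hm : N ≤ m := by omega
    have hzm := zz_norm hq hm (by omega) hN ht
    have hcm : cc q t N (m + 1 - 1) = (gg N m : ℂ) * (ZZ q t N (m + 1) * (starRingEnd ℂ) (zz q t m)) := by
      rw [Nat.add_sub_cancel]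
      unfold cc
      rw [ZZ_succ hm, mul_assoc, Complex.mul_conj, Complex.normSq_eq_norm_sq, hzm]
      simp
    have hR : RR q t N (m + 1) = ZZ q t N (m + 1) *
        (((bb q (m + 1) * (gg N m - gg N (m + 1)) : ℝ) : ℂ) * (starRingEnd ℂ) (zz q t m) +
        ((bb q (m + 1) * gg N (m + 1) : ℝ) : ℂ) * ((starRingEnd ℂ) (zz q t m) -
          (starRingEnd ℂ) (zz q t (m + 1))) +
        ((bb q (m + 1 + 1) * gg N (m + 1 + 1) - bb q (m + 1) * gg N (m + 1) : ℝ) : ℂ) *
          zz q t (m + 1)) := by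
      unfold RR
      rw [hcm, hcn1, ← htc]
      unfold cc
      push_cast
      ring
    rw [hR, norm_mul, hZ, one_mul]
    refine (norm_add_le _ _).trans ?_
    have hzd := zz_diff hq hm (by omega) hN ht
    have egd := gg_diff (N := N) (n := m) hN (by omega) (by omega)
    have e4 := gg_le hN (m + 1)
    have e5 := gg_nonneg N (m + 1)
    have hfirst : ‖((bb q (m + 1) * (gg N m - gg N (m + 1)) : ℝ) : ℂ) * (starRingEnd ℂ) (zz q t m) +
        ((bb q (m + 1) * gg N (m + 1) : ℝ) : ℂ) * ((starRingEnd ℂ) (zz q t m) -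
          (starRingEnd ℂ) (zz q t (m + 1)))‖ ≤ 19082 / 10000 * (N * √((N : ℝ) * q)) := by
      refine (norm_add_le _ _).trans ?_
      rw [norm_mul, norm_mul, ← map_sub, RCLike.norm_conj, RCLike.norm_conj, hzm, mul_one,
        Complex.norm_real, Complex.norm_real, Real.norm_eq_abs, Real.norm_eq_abs, abs_mul, abs_mul,
        abs_of_nonneg (bb_nonneg _ _), abs_of_nonneg e5, abs_sub_comm, norm_sub_rev]
      calc bb q (m + 1) * |gg N (m + 1) - gg N m| + bb q (m + 1) * gg N (m + 1) *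
            ‖zz q t (m + 1) - zz q t m‖
          ≤ (29 / 20 * √((N : ℝ) * q)) * (11 / 10 * (N : ℝ)) +
            (29 / 20 * √((N : ℝ) * q)) * (9 / 25 * (N : ℝ) ^ 2) * ((3 / 5) / N) := by gcongr
        _ = 19082 / 10000 * (N * √((N : ℝ) * q)) := by
            field_simp
            norm_num
    have hsecond : ‖((bb q (m + 1 + 1) * gg N (m + 1 + 1) - bb q (m + 1) * gg N (m + 1) : ℝ) : ℂ) *
          zz q t (m + 1)‖ ≤ 1811 / 1000 * (N * √((N : ℝ) * q)) := by
      rw [norm_mul, hz1, mul_one, Complex.norm_real, Real.norm_eq_abs]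
      exact hst
    nlinarith

theorem RR_zero {n : ℕ} (h : n + 1 < N ∨ 2 * N + 1 < n) : RR q t N n = 0 := by
  unfold RR cc
  rw [gg_zero (n := n) (by omega), gg_zero (n := n + 1) (by omega), gg_zero (n := n - 1) (by omega)]
  simp

/-- the radial coefficients -/
noncomputable def aa (q : ℕ) (t : ℝ) (N n : ℕ) : ℂ := cc q t N n / (√(q.choose n : ℝ) : ℝ)

theorem choose_bb (n : ℕ) (h1 : 1 ≤ n) (h2 : n ≤ q) :
    (n : ℝ) * √(q.choose n : ℝ) = bb q n * √(q.choose (n - 1) : ℝ) := by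
  obtain ⟨m, rfl⟩ : ∃ m, n = m + 1 := ⟨n - 1, by omega⟩
  rw [Nat.add_sub_cancel]
  have h3 : (q.choose (m + 1) : ℝ) * (m + 1) = q.choose m * (q - m) := by
    have := Nat.choose_succ_right_eq q m
    have h4 : ((q.choose (m + 1) * (m + 1) : ℕ) : ℝ) = ((q.choose m * (q - m) : ℕ) : ℝ) := by
      exact_mod_cast this
    rw [Nat.cast_mul, Nat.cast_mul, Nat.cast_sub (by omega)] at h4
    push_cast at h4
    exact h4
  have h0 : (0 : ℝ) ≤ (q : ℝ) - m := by
    have : (m : ℝ) + 1 ≤ q := by exact_mod_cast h2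
    linarith
  have e1 : (((m + 1 : ℕ) : ℝ) * √(q.choose (m + 1) : ℝ)) ^ 2 =
      (bb q (m + 1) * √(q.choose m : ℝ)) ^ 2 := by
    rw [mul_pow, mul_pow, Real.sq_sqrt (by positivity), Real.sq_sqrt (by positivity),
      bb_sq q (m + 1) (by omega)]
    push_cast
    nlinarith
  exact (pow_left_inj₀ (by positivity) (mul_nonneg (bb_nonneg _ _) (Real.sqrt_nonneg _))
    two_ne_zero).1 e1

theorem sqrt_choose_pos {n : ℕ} (h : n ≤ q) : 0 < √(q.choose n : ℝ) := by
  apply Real.sqrt_pos.2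
  exact_mod_cast Nat.choose_pos h

theorem jop_aa {n : ℕ} (h1 : 1 ≤ n) (h2 : n + 1 ≤ q) :
    ((√(q.choose n : ℝ) : ℝ) : ℂ) * jop q t (aa q t N) n = RR q t N n := by
  have p0 : ((√(q.choose (n - 1) : ℝ) : ℝ) : ℂ) ≠ 0 := by
    exact_mod_cast (sqrt_choose_pos (q := q) (n := n - 1) (by omega)).ne'
  have p1 : ((√(q.choose n : ℝ) : ℝ) : ℂ) ≠ 0 := by
    exact_mod_cast (sqrt_choose_pos (q := q) (n := n) (by omega)).ne'
  have p2 : ((√(q.choose (n + 1) : ℝ) : ℝ) : ℂ) ≠ 0 := by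
    exact_mod_cast (sqrt_choose_pos (q := q) (n := n + 1) (by omega)).ne'
  have b1 : (n : ℂ) * ((√(q.choose n : ℝ) : ℝ) : ℂ) =
      (bb q n : ℂ) * ((√(q.choose (n - 1) : ℝ) : ℝ) : ℂ) := by
    exact_mod_cast congrArg (fun r : ℝ => (r : ℂ)) (choose_bb (q := q) n h1 (by omega))
  have b2 : ((q : ℂ) - n) * ((√(q.choose n : ℝ) : ℝ) : ℂ) =
      (bb q (n + 1) : ℂ) * ((√(q.choose (n + 1) : ℝ) : ℝ) : ℂ) := by
    have h3 := choose_bb (q := q) (n + 1) (by omega) h2
    rw [Nat.add_sub_cancel] at h3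
    have hs := sqrt_choose_pos (q := q) (n := n) (by omega)
    have hs2 := sqrt_choose_pos (q := q) (n := n + 1) (by omega)
    have hb := bb_sq q (n + 1) (by omega)
    have hn1 : (0 : ℝ) < ((n + 1 : ℕ) : ℝ) := by positivity
    have h4 : ((q : ℝ) - n) * √(q.choose n : ℝ) = bb q (n + 1) * √(q.choose (n + 1) : ℝ) := by
      have h5 : ((n + 1 : ℕ) : ℝ) * (((q : ℝ) - n) * √(q.choose n : ℝ)) =
          ((n + 1 : ℕ) : ℝ) * (bb q (n + 1) * √(q.choose (n + 1) : ℝ)) := by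
        calc ((n + 1 : ℕ) : ℝ) * (((q : ℝ) - n) * √(q.choose n : ℝ))
            = bb q (n + 1) ^ 2 * √(q.choose n : ℝ) := by
              rw [hb]
              push_cast
              ring
          _ = bb q (n + 1) * (bb q (n + 1) * √(q.choose n : ℝ)) := by ring
          _ = bb q (n + 1) * (((n + 1 : ℕ) : ℝ) * √(q.choose (n + 1) : ℝ)) := by rw [h3]
          _ = ((n + 1 : ℕ) : ℝ) * (bb q (n + 1) * √(q.choose (n + 1) : ℝ)) := by ring
      exact mul_left_cancel₀ hn1.ne' h5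
    exact_mod_cast congrArg (fun r : ℝ => (r : ℂ)) h4
  unfold jop RR aa
  have e1 : ((√(q.choose n : ℝ) : ℝ) : ℂ) * ((n : ℂ) * (cc q t N (n - 1) /
      ((√(q.choose (n - 1) : ℝ) : ℝ) : ℂ))) = (bb q n : ℂ) * cc q t N (n - 1) := by
    field_simp
    linear_combination (cc q t N (n - 1)) * b1
  have e2 : ((√(q.choose n : ℝ) : ℝ) : ℂ) * (((q : ℂ) - n) * (cc q t N (n + 1) /
      ((√(q.choose (n + 1) : ℝ) : ℝ) : ℂ))) = (bb q (n + 1) : ℂ) * cc q t N (n + 1) := by
    field_simp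
    linear_combination (cc q t N (n + 1)) * b2
  have e3 : ((√(q.choose n : ℝ) : ℝ) : ℂ) * ((t : ℂ) * (cc q t N n /
      ((√(q.choose n : ℝ) : ℝ) : ℂ))) = (t : ℂ) * cc q t N n := by
    field_simp
  rw [mul_sub, mul_add, e1, e2, e3]

theorem norm_aa (hq : 8 * N ≤ q) {n : ℕ} (hN : 10 ≤ N) (ht : t ^ 2 ≤ (N : ℝ) * q) (h2 : n ≤ q) :
    (q.choose n : ℝ) * ‖aa q t N n‖ ^ 2 = gg N n ^ 2 := by
  have hs := sqrt_choose_pos (q := q) (n := n) h2
  unfold aa
  rw [norm_div, cc_norm hq n hN ht, Complex.norm_real, Real.norm_eq_abs, abs_of_pos hs, div_pow,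
    Real.sq_sqrt (by positivity)]
  have : (0 : ℝ) < q.choose n := by exact_mod_cast Nat.choose_pos h2
  field_simp

theorem norm_jop_aa (hq : 8 * N ≤ q) {n : ℕ} (hN : 10 ≤ N) (ht : t ^ 2 ≤ (N : ℝ) * q) (h2 : n ≤ q) :
    (q.choose n : ℝ) * ‖jop q t (aa q t N) n‖ ^ 2 ≤
      if n ∈ Icc (N - 1) (2 * N + 1) then (15 / 4 * (N * √((N : ℝ) * q))) ^ 2 else 0 := by
  by_cases hn : n ∈ Icc (N - 1) (2 * N + 1)
  · rw [if_pos hn]
    rw [Finset.mem_Icc] at hn
    have h3 := jop_aa (q := q) (t := t) (N := N) (n := n) (by omega) (by omega)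
    have h4 := RR_bound hq (n := n) (by omega) (by omega) hN ht
    rw [← h3, norm_mul, Complex.norm_real, Real.norm_eq_abs, abs_of_nonneg (Real.sqrt_nonneg _)] at h4
    calc (q.choose n : ℝ) * ‖jop q t (aa q t N) n‖ ^ 2
        = (√(q.choose n : ℝ) * ‖jop q t (aa q t N) n‖) ^ 2 := by
          rw [mul_pow, Real.sq_sqrt (by positivity)]
      _ ≤ _ := by gcongr
  · rw [if_neg hn]
    rw [Finset.mem_Icc] at hn
    have a0 : ∀ m, (m < N ∨ 2 * N < m) → aa q t N m = 0 := by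
      intro m hm
      unfold aa cc
      rw [gg_zero hm]
      simp
    have : jop q t (aa q t N) n = 0 := by
      unfold jop
      rw [a0 n (by omega), a0 (n + 1) (by omega), a0 (n - 1) (by omega)]
      simp
    rw [this]
    simp

theorem sum_gg (N : ℕ) : ∑ j ∈ range (N + 1), ((j : ℝ) + 1) * ((N : ℝ) + 1 - j) =
    ((N : ℝ) + 1) * (N + 2) * (N + 3) / 6 := by
  have h : ∀ K : ℕ, ∀ x : ℝ, ∑ j ∈ range (K + 1), ((j : ℝ) + 1) * (x + 1 - j) =
      (x + 1) * (((K : ℝ) + 1) * (K + 2) / 2) - ((K : ℝ) * (K + 1) * (K + 2) / 3) := by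
    intro K x
    induction K with
    | zero => simp
    | succ K ih =>
      rw [Finset.sum_range_succ, ih]
      push_cast
      ring
  rw [h N N]
  ring

theorem norm_lower (hN : 10 ≤ N) (hq : 8 * N ≤ q) :
    (N : ℝ) ^ 5 / 36 ≤ ∑ n ∈ range (q + 1), gg N n ^ 2 := by
  have h1 : ∑ j ∈ range (N + 1), gg N (N + j) ^ 2 ≤ ∑ n ∈ range (q + 1), gg N n ^ 2 := by
    rw [← Finset.sum_image (s := range (N + 1)) (g := fun j => N + j) (f := fun n => gg N n ^ 2)
      (by intro a _ b _ h; simpa using h)]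
    refine Finset.sum_le_sum_of_subset_of_nonneg ?_ fun _ _ _ => by positivity
    intro n hn
    rw [Finset.mem_image] at hn
    obtain ⟨j, hj, rfl⟩ := hn
    rw [Finset.mem_range] at hj ⊢
    omega
  have h2 : ∑ j ∈ range (N + 1), gg N (N + j) = ((N : ℝ) + 1) * (N + 2) * (N + 3) / 6 := by
    rw [← sum_gg N]
    refine Finset.sum_congr rfl fun j hj => ?_
    rw [Finset.mem_range] at hj
    rw [gg_eq (by omega) (by omega)]
    push_cast
    ring
  have h3 : (∑ j ∈ range (N + 1), gg N (N + j)) ^ 2 ≤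
      ((range (N + 1)).card : ℝ) * ∑ j ∈ range (N + 1), gg N (N + j) ^ 2 := sq_sum_le_card_mul_sum_sq
  rw [Finset.card_range, h2] at h3
  push_cast at h3
  have hN0 : (0 : ℝ) ≤ N := by positivity
  have h4 : (N : ℝ) ^ 5 / 36 * ((N : ℝ) + 1) ≤ (((N : ℝ) + 1) * (N + 2) * (N + 3) / 6) ^ 2 := by
    have : (((N : ℝ) + 1) * (N + 2) * (N + 3) / 6) ^ 2 =
        (N + 1) * ((N + 1) * ((N + 2) * (N + 3)) ^ 2 / 36) := by ring
    rw [this, mul_comm]
    refine mul_le_mul_of_nonneg_left ?_ (by positivity)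
    have h5 : (N : ℝ) ^ 5 = N * (N * N) ^ 2 := by ring
    rw [h5]
    gcongr <;> linarith
  have h6 : (0 : ℝ) < (N : ℝ) + 1 := by positivity
  have h7 : (N : ℝ) ^ 5 / 36 ≤ ∑ j ∈ range (N + 1), gg N (N + j) ^ 2 := by
    by_contra hc
    push Not at hc
    have : ((N : ℝ) + 1) * ∑ j ∈ range (N + 1), gg N (N + j) ^ 2 < ((N : ℝ) + 1) * ((N : ℝ) ^ 5 / 36) :=
      mul_lt_mul_of_pos_left hc h6
    linarith
  exact h7.trans h1

theorem exists_radial (hN : 10 ≤ N) (hq : 8 * N ≤ q) (ht : t ^ 2 ≤ (N : ℝ) * q) :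
    ∃ a : ℕ → ℂ, (∀ n, 2 * N < n → a n = 0) ∧
      0 < ∑ n ∈ range (q + 1), (q.choose n : ℝ) * ‖a n‖ ^ 2 ∧
      ∑ n ∈ range (q + 1), (q.choose n : ℝ) * ‖jop q t a n‖ ^ 2 ≤
        660 * ((q : ℝ) / N) * ∑ n ∈ range (q + 1), (q.choose n : ℝ) * ‖a n‖ ^ 2 := by
  have hNpos : (0 : ℝ) < N := by exact_mod_cast (by omega : 0 < N)
  have hN10 : (10 : ℝ) ≤ N := by exact_mod_cast hN
  have e1 : ∑ n ∈ range (q + 1), (q.choose n : ℝ) * ‖aa q t N n‖ ^ 2 =
      ∑ n ∈ range (q + 1), gg N n ^ 2 := by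
    refine Finset.sum_congr rfl fun n hn => ?_
    rw [Finset.mem_range] at hn
    exact norm_aa hq hN ht (by omega)
  have e2 := norm_lower (q := q) hN hq
  refine ⟨aa q t N, ?_, ?_, ?_⟩
  · intro n hn
    unfold aa cc
    rw [gg_zero (by omega)]
    simp
  · rw [e1]
    refine lt_of_lt_of_le ?_ e2
    positivity
  · rw [e1]
    have e3 : ∑ n ∈ range (q + 1), (q.choose n : ℝ) * ‖jop q t (aa q t N) n‖ ^ 2 ≤
        ((N : ℝ) + 3) * (15 / 4 * (N * √((N : ℝ) * q))) ^ 2 := by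
      calc _ ≤ ∑ n ∈ range (q + 1), (if n ∈ Icc (N - 1) (2 * N + 1) then
            (15 / 4 * (N * √((N : ℝ) * q))) ^ 2 else 0) := by
            refine Finset.sum_le_sum fun n hn => ?_
            rw [Finset.mem_range] at hn
            exact norm_jop_aa hq hN ht (by omega)
        _ = ((range (q + 1)).filter (fun n => n ∈ Icc (N - 1) (2 * N + 1))).card *
            (15 / 4 * (N * √((N : ℝ) * q))) ^ 2 := by
            rw [← Finset.sum_filter, Finset.sum_const, nsmul_eq_mul]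
        _ ≤ ((N : ℝ) + 3) * (15 / 4 * (N * √((N : ℝ) * q))) ^ 2 := by
            gcongr
            have h5 : ((range (q + 1)).filter (fun n => n ∈ Icc (N - 1) (2 * N + 1))).card ≤
                (Icc (N - 1) (2 * N + 1)).card := by
              refine Finset.card_le_card fun n hn => ?_
              exact (Finset.mem_filter.1 hn).2
            rw [Nat.card_Icc] at h5
            have h6 : 2 * N + 1 + 1 - (N - 1) = N + 3 := by omega
            rw [h6] at h5
            exact_mod_cast h5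
    refine e3.trans ?_
    have hsq : √((N : ℝ) * q) ^ 2 = N * q := Real.sq_sqrt (by positivity)
    have e4 : ((N : ℝ) + 3) * (15 / 4 * (N * √((N : ℝ) * q))) ^ 2 =
        (N + 3) * (225 / 16 * (N ^ 3 * q)) := by
      rw [mul_pow, mul_pow, hsq]
      ring
    rw [e4]
    calc ((N : ℝ) + 3) * (225 / 16 * (N ^ 3 * q)) ≤ (13 / 10 * N) * (225 / 16 * (N ^ 3 * q)) := by
          gcongr
          linarith
      _ ≤ 660 * ((q : ℝ) / N) * ((N : ℝ) ^ 5 / 36) := by
          have h7 : 660 * ((q : ℝ) / N) * ((N : ℝ) ^ 5 / 36) = 660 / 36 * (N ^ 4 * q) := by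
            field_simp
          have h8 : (13 / 10 * (N : ℝ)) * (225 / 16 * (N ^ 3 * q)) = (13 / 10 * (225 / 16)) * (N ^ 4 * q) := by
            ring
          rw [h7, h8]
          gcongr
          norm_num
      _ ≤ 660 * ((q : ℝ) / N) * ∑ n ∈ range (q + 1), gg N n ^ 2 := by
          gcongr

end

end Pool.Agent.H35.VQ
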