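import Pool.Agent.H35.VQ.Model
import Pool.Agent.H35.VQ.Vec

/-!
# Approximation of prescribed point counts
-/

namespace Pool.Agent.H35.VQ

open Finset Polynomial

set_option linter.unusedSectionVars false

/-- the test vector: support at most `M`, and the bound `R` -/
theorem exists_vector (q g : ℕ) (hq : 2 ≤ q) (hg : 1 ≤ g) (t : ℝ)
    (ht : |t| ≤ √((min g q : ℕ) * (q : ℝ)) / 3) :
    ∃ (M : ℕ) (a : ℕ → ℂ) (R : ℝ), 2 * M + 1 ≤ g ∧ (∀ n, M < n → a n = 0) ∧
      0 < ∑ n ∈ range (q + 1), (q.choose n : ℝ) * ‖a n‖ ^ 2 ∧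
      ∑ n ∈ range (q + 1), (q.choose n : ℝ) * ‖jop q t a n‖ ^ 2 ≤
        R * ∑ n ∈ range (q + 1), (q.choose n : ℝ) * ‖a n‖ ^ 2 ∧
      0 ≤ R ∧ R ≤ 14400 * ((q : ℝ) / (min g q : ℕ)) ∧
      ∃ L : ℝ, 0 < L ∧ 2 * L ≤ 14400 * ((q : ℝ) / (min g q : ℕ)) ∧
        (3 ≤ q → (R + 2) < L * (1 - ((q : ℝ) + 1) / ((q : ℝ) * ((q : ℝ) - 1)))) := by
  set m := min g q with hm
  have hm1 : 1 ≤ m := by omega
  have hmq : m ≤ q := min_le_right _ _
  have hmg : m ≤ g := min_le_left _ _
  have hmR : (1 : ℝ) ≤ m := by exact_mod_cast hm1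
  have hqR : (2 : ℝ) ≤ q := by exact_mod_cast hq
  have hmqR : (m : ℝ) ≤ q := by exact_mod_cast hmq
  have ht2 : t ^ 2 ≤ (m : ℝ) * q / 9 := by
    have h1 : t ^ 2 = |t| ^ 2 := (sq_abs t).symm
    rw [h1]
    calc |t| ^ 2 ≤ (√((m : ℝ) * (q : ℝ)) / 3) ^ 2 := by gcongr
      _ = (m : ℝ) * q / 9 := by
          rw [div_pow, Real.sq_sqrt (by positivity)]
          norm_num
  have hqm : 1 ≤ (q : ℝ) / m := by
    rw [le_div_iff₀ (by linarith)]
    linarith
  by_cases h80 : 80 ≤ m
  · -- large case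
    have h80R : (80 : ℝ) ≤ m := by exact_mod_cast h80
    set N := m / 8 with hN
    have hN10 : 10 ≤ N := by omega
    have hN8 : 8 * N ≤ m := by omega
    have hN9 : m ≤ 9 * N := by omega
    have hN9R : (m : ℝ) ≤ 9 * N := by exact_mod_cast hN9
    have hNpos : (0 : ℝ) < N := by exact_mod_cast (by omega : 0 < N)
    obtain ⟨a, ha1, ha2, ha3⟩ := exists_radial (q := q) (N := N) (t := t) hN10 (by omega) (by
      refine ht2.trans ?_
      nlinarith)
    have hqN : (q : ℝ) / N ≤ 9 * (q / m) := by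
      rw [div_le_iff₀ hNpos]
      have : 9 * ((q : ℝ) / m) * N = (q / m) * (9 * N) := by ring
      rw [this]
      calc (q : ℝ) = (q / m) * m := by field_simp
        _ ≤ (q / m) * (9 * N) := by gcongr
    refine ⟨2 * N, a, 660 * ((q : ℝ) / N), by omega, ha1, ha2, ha3, by positivity, ?_, ?_⟩
    · nlinarith
    · refine ⟨(21 / 20) * (660 * ((q : ℝ) / N) + 2), by positivity, by nlinarith, fun _ => ?_⟩
      have hq80 : (80 : ℝ) ≤ q := h80R.trans hmqR
      have h1 : ((q : ℝ) + 1) / ((q : ℝ) * ((q : ℝ) - 1)) ≤ 1 / 50 := by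
        rw [div_le_div_iff₀ (by nlinarith) (by norm_num)]
        nlinarith
      have h2 : (0 : ℝ) < 660 * ((q : ℝ) / N) + 2 := by positivity
      nlinarith
  · push Not at h80
    have h80R : (m : ℝ) ≤ 79 := by exact_mod_cast (by omega : m ≤ 79)
    set a : ℕ → ℂ := fun n => if n = 0 then 1 else 0 with ha
    have hs1 : ∑ n ∈ range (q + 1), (q.choose n : ℝ) * ‖a n‖ ^ 2 = 1 := by
      rw [Finset.sum_eq_single 0]
      · simp [ha]
      · intro n _ hn
        simp [ha, hn]
      · intro h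
        simp at h
    have hs2 : ∑ n ∈ range (q + 1), (q.choose n : ℝ) * ‖jop q t a n‖ ^ 2 = (q : ℝ) + t ^ 2 := by
      have h01 : ({0, 1} : Finset ℕ) ⊆ range (q + 1) := by
        intro n hn
        rw [Finset.mem_insert, Finset.mem_singleton] at hn
        rw [Finset.mem_range]
        omega
      rw [← Finset.sum_subset h01]
      · rw [Finset.sum_pair (by norm_num)]
        have e0 : jop q t a 0 = -(t : ℂ) := by
          unfold jop
          simp [ha]
        have e1 : jop q t a 1 = 1 := by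
          unfold jop
          simp [ha]
        rw [e0, e1, norm_neg, Complex.norm_real, Real.norm_eq_abs, sq_abs]
        simp
        ring
      · intro n _ hn
        rw [Finset.mem_insert, Finset.mem_singleton, not_or] at hn
        have : jop q t a n = 0 := by
          unfold jop
          have e1 : a (n - 1) = 0 := by
            simp only [ha]
            rw [if_neg (by omega)]
          have e2 : a (n + 1) = 0 := by
            simp only [ha]
            rw [if_neg (by omega)]
          have e3 : a n = 0 := by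
            simp only [ha]
            rw [if_neg (by omega)]
          rw [e1, e2, e3]
          simp
        rw [this]
        simp
    have hR : (q : ℝ) + t ^ 2 ≤ 10 * q := by nlinarith
    have hbig : 1600 * 9 / 79 * (q : ℝ) ≤ 14400 * ((q : ℝ) / m) := by
      have h1 : (q : ℝ) / 79 ≤ q / m := by gcongr
      linarith
    refine ⟨0, a, (q : ℝ) + t ^ 2, by omega, ?_, by rw [hs1]; norm_num, by rw [hs1, hs2]; linarith,
      by positivity, ?_, ?_⟩
    · intro n hn
      simp only [ha]
      rw [if_neg (by omega)]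
    · linarith
    · refine ⟨4 * ((q : ℝ) + t ^ 2 + 2), by positivity, by linarith, fun h3 => ?_⟩
      have h3R : (3 : ℝ) ≤ q := by exact_mod_cast h3
      have h1 : ((q : ℝ) + 1) / ((q : ℝ) * ((q : ℝ) - 1)) ≤ 2 / 3 := by
        rw [div_le_div_iff₀ (by nlinarith) (by norm_num)]
        nlinarith
      have h2 : (0 : ℝ) < (q : ℝ) + t ^ 2 + 2 := by positivity
      nlinarith

/-- prescribed approximate point counts -/
theorem approx (k : Type) [Field k] [Fintype k] (g : ℕ) (hg : 1 ≤ g) (t : ℝ)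
    (ht : |t| ≤ √((min g (Fintype.card k) : ℕ) * (Fintype.card k : ℝ)) / 3) :
    ∃ C : Hyp k g, |(C.numPoints : ℝ) - (Fintype.card k + 1) - t| ≤
      120 * √((Fintype.card k : ℝ) / (min g (Fintype.card k) : ℕ)) := by
  classical
  have hq : 2 ≤ Fintype.card k := Fintype.one_lt_card
  obtain ⟨M, a, R, hM, ha, hpos, hj, hR0, hR, L, hL0, hL, hL3⟩ :=
    exists_vector (Fintype.card k) g hq hg t ht
  have hroot : ∀ z : ℝ, z ^ 2 ≤ 14400 * ((Fintype.card k : ℝ) / (min g (Fintype.card k) : ℕ)) →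
      |z| ≤ 120 * √((Fintype.card k : ℝ) / (min g (Fintype.card k) : ℕ)) := by
    intro z hz
    apply abs_le_of_sq_le_sq _ (by positivity)
    rw [mul_pow, Real.sq_sqrt (by positivity)]
    linarith
  by_cases hk : (2 : k) = 0
  · obtain ⟨f, hm, hd, hf⟩ := exists_even hk g M hM t a ha hpos R hj
    refine ⟨evenHyp hk g hg f hm hd, ?_⟩
    rw [evenHyp_numPoints]
    have : (Fintype.card k : ℝ) + 1 + ∑ x, tau (f.eval x) - (Fintype.card k + 1) - t =
        ∑ x, tau (f.eval x) - t := by ring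
    rw [this]
    exact hroot _ (hf.trans hR)
  · have hr : ringChar k ≠ 2 := by
      intro h
      apply hk
      have := ringChar.Nat.cast_ringChar (R := k)
      rw [h] at this
      exact_mod_cast this
    have hq3 : 3 ≤ Fintype.card k := by
      have h1 : Fintype.card k % 2 = 1 := FiniteField.odd_card_of_char_ne_two hr
      omega
    obtain ⟨f, hm, hd, hs, hf⟩ := exists_odd hr g M hM t a ha hpos R hj L hL0 (hL3 hq3)
    refine ⟨oddHyp hk g f hm hd hs, ?_⟩
    rw [oddHyp_numPoints]
    have : (Fintype.card k : ℝ) + 1 + ∑ x, chi (f.eval x) - (Fintype.card k + 1) - t =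
        ∑ x, chi (f.eval x) - t := by ring
    rw [this]
    exact hroot _ (hf.trans hL)

end Pool.Agent.H35.VQ
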