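import Mathlib

/-!
# Polynomials in signs

`mon A e` is the product of the signs `e x`, `x ∈ A`; `lin α e` is the multilinear polynomial with
coefficients `α A`.
-/

namespace Pool.Agent.H35.VQ

open Finset

variable {k : Type} [Fintype k] [DecidableEq k]

/-- the product of the `e x` for `x` in `A` -/
def mon (A : Finset k) (e : k → ℝ) : ℝ := ∏ x, if x ∈ A then e x else 1

theorem mon_empty (e : k → ℝ) : mon (∅ : Finset k) e = 1 := by simp [mon]

theorem mon_eq_prod (A : Finset k) (e : k → ℝ) : mon A e = ∏ x ∈ A, e x := by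
  unfold mon
  rw [Finset.prod_ite_mem, Finset.univ_inter]

theorem mon_singleton (x : k) (e : k → ℝ) : mon {x} e = e x := by
  rw [mon_eq_prod, Finset.prod_singleton]

theorem mon_mul (A B : Finset k) (e : k → ℝ) (he : ∀ x, e x ^ 2 = 1) :
    mon A e * mon B e = mon (symmDiff A B) e := by
  unfold mon
  rw [← Finset.prod_mul_distrib]
  refine Finset.prod_congr rfl fun x _ => ?_
  have h := he x
  by_cases hA : x ∈ A <;> by_cases hB : x ∈ B <;> simp [Finset.mem_symmDiff, hA, hB]
  nlinarith

theorem abs_mon (A : Finset k) (e : k → ℝ) (he : ∀ x, e x ^ 2 = 1) : |mon A e| = 1 := by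
  rw [mon_eq_prod, Finset.abs_prod]
  refine Finset.prod_eq_one fun x _ => ?_
  have h := he x
  rw [← sq_abs] at h
  exact (pow_eq_one_iff_of_nonneg (abs_nonneg _) two_ne_zero).1 h

/-- the multilinear polynomial with coefficients `α` -/
noncomputable def lin (α : Finset k → ℂ) (e : k → ℝ) : ℂ := ∑ A, α A * ((mon A e : ℝ) : ℂ)

omit [Fintype k] in
theorem symmDiff_card_le (A B : Finset k) : (symmDiff A B).card ≤ A.card + B.card := by
  calc (symmDiff A B).card ≤ (A ∪ B).card := Finset.card_le_card (by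
        intro x hx
        rw [Finset.mem_symmDiff] at hx
        rw [Finset.mem_union]
        rcases hx with h | h
        · exact Or.inl h.1
        · exact Or.inr h.1)
    _ ≤ A.card + B.card := Finset.card_union_le _ _

theorem norm_sum {Ω : Type} [Fintype Ω] (e : Ω → k → ℝ) (he : ∀ ω x, e ω x ^ 2 = 1) (w : Ω → ℝ)
    (W : ℝ) (N M : ℕ) (hN : 2 * M ≤ N)
    (hw : ∀ D : Finset k, D.card ≤ N → ∑ ω, w ω * mon D (e ω) = if D = ∅ then W else 0)
    (α : Finset k → ℂ) (hα : ∀ A : Finset k, M < A.card → α A = 0) :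
    ∑ ω, w ω * ‖lin α (e ω)‖ ^ 2 = W * ∑ A, ‖α A‖ ^ 2 := by
  have key : ∀ ω, ((‖lin α (e ω)‖ ^ 2 : ℝ) : ℂ) =
      ∑ A, ∑ B, α A * (starRingEnd ℂ) (α B) * ((mon (symmDiff A B) (e ω) : ℝ) : ℂ) := by
    intro ω
    rw [← Complex.normSq_eq_norm_sq, Complex.normSq_eq_conj_mul_self]
    unfold lin
    rw [map_sum, mul_comm, Finset.sum_mul_sum]
    refine Finset.sum_congr rfl fun A _ => Finset.sum_congr rfl fun B _ => ?_
    rw [← mon_mul A B (e ω) (he ω), map_mul, Complex.conj_ofReal]
    push_cast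
    ring
  have h2 : ((∑ ω, w ω * ‖lin α (e ω)‖ ^ 2 : ℝ) : ℂ) = ((W * ∑ A, ‖α A‖ ^ 2 : ℝ) : ℂ) := by
    push_cast
    have h3 : ∀ ω, ((w ω : ℝ) : ℂ) * ((‖lin α (e ω)‖ : ℝ) : ℂ) ^ 2 =
        ∑ A, ∑ B, α A * (starRingEnd ℂ) (α B) * (((w ω * mon (symmDiff A B) (e ω) : ℝ)) : ℂ) := by
      intro ω
      have := key ω
      push_cast at this
      rw [this, Finset.mul_sum]
      refine Finset.sum_congr rfl fun A _ => ?_
      rw [Finset.mul_sum]
      refine Finset.sum_congr rfl fun B _ => ?_
      push_cast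
      ring
    rw [Finset.sum_congr rfl fun ω _ => h3 ω, Finset.sum_comm, Finset.mul_sum]
    refine Finset.sum_congr rfl fun A _ => ?_
    rw [Finset.sum_comm]
    have h4 : ∀ B : Finset k, ∑ ω, α A * (starRingEnd ℂ) (α B) *
        (((w ω * mon (symmDiff A B) (e ω) : ℝ)) : ℂ) =
        if A = B then (W : ℂ) * ((‖α A‖ : ℝ) : ℂ) ^ 2 else 0 := by
      intro B
      rw [← Finset.mul_sum, ← Complex.ofReal_sum]
      by_cases hA : M < A.card
      · rw [hα A hA]
        simp
      by_cases hB : M < B.card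
      · rw [hα B hB]
        by_cases hAB : A = B
        · subst hAB
          exact absurd hB hA
        · simp [hAB]
      push Not at hA hB
      rw [hw (symmDiff A B) ((symmDiff_card_le A B).trans (by omega))]
      by_cases hAB : A = B
      · subst hAB
        simp only [symmDiff_self, Finset.bot_eq_empty, if_true]
        rw [Complex.mul_conj, Complex.normSq_eq_norm_sq]
        push_cast
        ring
      · have : symmDiff A B ≠ ∅ := by
          intro h
          exact hAB (symmDiff_eq_bot.1 (by rw [Finset.bot_eq_empty]; exact h))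
        simp [hAB, this]
    rw [Finset.sum_congr rfl fun B _ => h4 B]
    simp
  exact_mod_cast h2

theorem mul_lin (α : Finset k → ℂ) (e : k → ℝ) (he : ∀ x, e x ^ 2 = 1) (t : ℝ) :
    (((∑ x, e x) - t : ℝ) : ℂ) * lin α e = lin (fun A => ∑ x, α (symmDiff A {x}) - t * α A) e := by
  unfold lin
  push_cast
  rw [sub_mul, Finset.sum_mul]
  have h1 : ∀ x, ((e x : ℝ) : ℂ) * ∑ A, α A * ((mon A e : ℝ) : ℂ)
      = ∑ A, α (symmDiff A {x}) * ((mon A e : ℝ) : ℂ) := by
    intro x
    rw [Finset.mul_sum]
    refine Finset.sum_nbij' (fun A => symmDiff A {x}) (fun A => symmDiff A {x}) ?_ ?_ ?_ ?_ ?_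
    · intro A _
      exact Finset.mem_univ _
    · intro A _
      exact Finset.mem_univ _
    · intro A _
      rw [symmDiff_assoc, symmDiff_self, symmDiff_bot]
    · intro A _
      rw [symmDiff_assoc, symmDiff_self, symmDiff_bot]
    · intro A _
      rw [symmDiff_assoc, symmDiff_self, symmDiff_bot, ← mon_mul A {x} e he, mon_singleton]
      push_cast
      ring
  rw [Finset.sum_congr rfl fun x _ => h1 x, Finset.sum_comm, Finset.mul_sum, ← Finset.sum_sub_distrib]
  refine Finset.sum_congr rfl fun A _ => ?_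
  rw [sub_mul, Finset.sum_mul]
  ring

omit [Fintype k] in
theorem card_symmDiff_singleton_mem (A : Finset k) (x : k) (hx : x ∈ A) :
    (symmDiff A {x}).card = A.card - 1 := by
  have : symmDiff A {x} = A.erase x := by
    ext y
    simp only [Finset.mem_symmDiff, Finset.mem_singleton, Finset.mem_erase]
    by_cases hy : y = x
    · subst hy
      simp [hx]
    · simp [hy]
  rw [this, Finset.card_erase_of_mem hx]

omit [Fintype k] in
theorem card_symmDiff_singleton_notMem (A : Finset k) (x : k) (hx : x ∉ A) :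
    (symmDiff A {x}).card = A.card + 1 := by
  have : symmDiff A {x} = insert x A := by
    ext y
    simp only [Finset.mem_symmDiff, Finset.mem_singleton, Finset.mem_insert]
    by_cases hy : y = x
    · subst hy
      simp [hx]
    · simp [hy]
  rw [this, Finset.card_insert_of_notMem hx]

theorem sum_radial (a : ℕ → ℂ) (A : Finset k) :
    ∑ x, a (symmDiff A {x}).card =
      (A.card : ℂ) * a (A.card - 1) + ((Fintype.card k : ℂ) - A.card) * a (A.card + 1) := by
  rw [← Finset.sum_add_sum_compl A]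
  congr 1
  · rw [Finset.sum_congr rfl fun x hx => by rw [card_symmDiff_singleton_mem A x hx],
      Finset.sum_const, nsmul_eq_mul]
  · rw [Finset.sum_congr rfl fun x hx => by
      rw [card_symmDiff_singleton_notMem A x (Finset.mem_compl.1 hx)],
      Finset.sum_const, nsmul_eq_mul, Finset.card_compl, Nat.cast_sub (Finset.card_le_univ A)]

theorem sum_card_eq (f : ℕ → ℝ) :
    ∑ A : Finset k, f A.card = ∑ n ∈ range (Fintype.card k + 1), ((Fintype.card k).choose n : ℝ) * f n := by
  have := Finset.sum_powerset_apply_card f (x := (Finset.univ : Finset k))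
  rw [Finset.powerset_univ, Finset.card_univ] at this
  rw [this]
  simp [nsmul_eq_mul]

/-- the operator of multiplication by `S - t` on radial coefficients -/
noncomputable def jop (q : ℕ) (t : ℝ) (a : ℕ → ℂ) (n : ℕ) : ℂ :=
  (n : ℂ) * a (n - 1) + ((q : ℂ) - n) * a (n + 1) - t * a n

theorem mul_lin_radial (a : ℕ → ℂ) (e : k → ℝ) (he : ∀ x, e x ^ 2 = 1) (t : ℝ) :
    (((∑ x, e x) - t : ℝ) : ℂ) * lin (fun A => a A.card) e =
      lin (fun A => jop (Fintype.card k) t a A.card) e := by
  rw [mul_lin _ e he t]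
  congr 1
  funext A
  rw [sum_radial a A, jop]

theorem norm_lin_sq_le (M : ℕ) (α : Finset k → ℂ) (hα : ∀ A : Finset k, M < A.card → α A = 0)
    (e : k → ℝ) (he : ∀ x, e x ^ 2 = 1) :
    ‖lin α e‖ ^ 2 ≤ ((Fintype.card k : ℝ) ^ M + 1) * ∑ A, ‖α A‖ ^ 2 := by
  classical
  set T : Finset (Finset k) := Finset.univ.filter fun A => A.card ≤ M with hT
  have h1 : lin α e = ∑ A ∈ T, α A * ((mon A e : ℝ) : ℂ) := by
    unfold lin
    rw [hT, Finset.sum_filter]
    refine Finset.sum_congr rfl fun A _ => ?_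
    by_cases h : A.card ≤ M
    · simp [h]
    · simp [h, hα A (by omega)]
  have h2 : ‖lin α e‖ ≤ ∑ A ∈ T, ‖α A‖ := by
    rw [h1]
    refine (norm_sum_le _ _).trans (Finset.sum_le_sum fun A _ => ?_)
    rw [norm_mul, Complex.norm_real, Real.norm_eq_abs, abs_mon A e he, mul_one]
  have h3 : (∑ A ∈ T, ‖α A‖) ^ 2 ≤ (T.card : ℝ) * ∑ A ∈ T, ‖α A‖ ^ 2 :=
    sq_sum_le_card_mul_sum_sq
  have h4 : ∑ A ∈ T, ‖α A‖ ^ 2 ≤ ∑ A, ‖α A‖ ^ 2 :=
    Finset.sum_le_sum_of_subset_of_nonneg (Finset.subset_univ _) fun A _ _ => by positivity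
  have h5 : T.card ≤ (Fintype.card k) ^ M + 1 := by
    have h6 : T ⊆ insert ∅ ((Finset.univ : Finset (Fin M → k)).image fun v => Finset.univ.image v) := by
      intro A hA
      rw [hT, Finset.mem_filter] at hA
      rw [Finset.mem_insert]
      rcases Finset.eq_empty_or_nonempty A with h0 | ⟨y, hy⟩
      · exact Or.inl h0
      · right
        rw [Finset.mem_image]
        refine ⟨fun i => if h : i.val < A.card then (A.equivFin.symm ⟨i.val, h⟩ : k) else y,
          Finset.mem_univ _, ?_⟩
        ext z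
        rw [Finset.mem_image]
        constructor
        · rintro ⟨i, _, hi⟩
          by_cases h : i.val < A.card
          · simp only [h, dif_pos] at hi
            rw [← hi]
            exact (A.equivFin.symm ⟨i.val, h⟩).2
          · simp only [h, dif_neg, not_false_iff] at hi
            rw [← hi]
            exact hy
        · intro hz
          refine ⟨⟨(A.equivFin ⟨z, hz⟩).val, lt_of_lt_of_le (A.equivFin ⟨z, hz⟩).2 hA.2⟩,
            Finset.mem_univ _, ?_⟩
          have h : (A.equivFin ⟨z, hz⟩).val < A.card := (A.equivFin ⟨z, hz⟩).2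
          simp [h]
    calc T.card ≤ _ := Finset.card_le_card h6
      _ ≤ ((Finset.univ : Finset (Fin M → k)).image fun v => Finset.univ.image v).card + 1 :=
          Finset.card_insert_le _ _
      _ ≤ (Finset.univ : Finset (Fin M → k)).card + 1 := by
          gcongr
          exact Finset.card_image_le
      _ = (Fintype.card k) ^ M + 1 := by
          rw [Finset.card_univ, Fintype.card_fun, Fintype.card_fin]
  calc ‖lin α e‖ ^ 2 ≤ (∑ A ∈ T, ‖α A‖) ^ 2 := by gcongr
    _ ≤ (T.card : ℝ) * ∑ A ∈ T, ‖α A‖ ^ 2 := h3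
    _ ≤ ((Fintype.card k : ℝ) ^ M + 1) * ∑ A, ‖α A‖ ^ 2 := by
        gcongr
        exact_mod_cast h5

end Pool.Agent.H35.VQ
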