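import Mathlib

/-!
# Smooth hyperelliptic Weierstrass models
-/

namespace Pool.Agent.H35.VQ

open Polynomial

/-- A smooth hyperelliptic Weierstrass model of genus `g` over the field `k`:
`y² + h(x) y = f(x)` with `deg h ≤ g + 1`, `deg f ≤ 2 g + 2`, glued by `u = 1 / x`,
`w = y / x ^ (g + 1)` with the chart at infinity, smooth at all points over the algebraic closure
(at the points with `u = 0` the equation is `w² + h_{g+1} w = f_{2g+2}`). -/
structure Hyp (k : Type) [Field k] (g : ℕ) where
  /-- the coefficient of `y` -/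
  h : k[X]
  /-- the right hand side -/
  f : k[X]
  deg_h : h.natDegree ≤ g + 1
  deg_f : f.natDegree ≤ 2 * g + 2
  smooth : ∀ x y : AlgebraicClosure k, y ^ 2 + aeval x h * y = aeval x f →
    2 * y + aeval x h ≠ 0 ∨ aeval x (derivative h) * y ≠ aeval x (derivative f)
  smooth_infty : ∀ w : AlgebraicClosure k,
    w ^ 2 + algebraMap k _ (h.coeff (g + 1)) * w = algebraMap k _ (f.coeff (2 * g + 2)) →
    2 * w + algebraMap k _ (h.coeff (g + 1)) ≠ 0 ∨
      algebraMap k _ (h.coeff g) * w ≠ algebraMap k _ (f.coeff (2 * g + 1))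

/-- the number of rational points: affine points and points at infinity -/
noncomputable def Hyp.numPoints {k : Type} [Field k] {g : ℕ} (C : Hyp k g) : ℕ :=
  Nat.card {P : k × k // P.2 ^ 2 + C.h.eval P.1 * P.2 = C.f.eval P.1} +
    Nat.card {w : k // w ^ 2 + C.h.coeff (g + 1) * w = C.f.coeff (2 * g + 2)}

end Pool.Agent.H35.VQ
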