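import Pool.Agent.H35.VQ.Poly

/-!
# Monic polynomials with prescribed approximate trace sum, characteristic two
-/

namespace Pool.Agent.H35.VQ

open Finset Polynomial

set_option linter.unusedSectionVars false

variable {k : Type} [Field k] [Fintype k] [DecidableEq k]

/-- the sign attached to `a`: one less than the number of solutions of `y² + y = a` -/
noncomputable def tau (a : k) : ℝ := ((Finset.univ.filter fun y : k => y ^ 2 + y = a).card : ℝ) - 1

theorem card_fib (h2 : (2 : k) = 0) (a : k) :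
    (Finset.univ.filter fun y : k => y ^ 2 + y = a).card = 0 ∨
    (Finset.univ.filter fun y : k => y ^ 2 + y = a).card = 2 := by
  by_cases h : ∃ y0 : k, y0 ^ 2 + y0 = a
  · right
    obtain ⟨y0, hy0⟩ := h
    have h3 : (Finset.univ.filter fun y : k => y ^ 2 + y = a) = {y0, y0 + 1} := by
      ext y
      rw [Finset.mem_filter, Finset.mem_insert, Finset.mem_singleton]
      constructor
      · rintro ⟨_, hy⟩
        have h4 : (y - y0) * (y - (y0 + 1)) = 0 := by
          linear_combination hy - hy0 - (y * y0 + y - y0 ^ 2 - y0) * h2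
        rcases mul_eq_zero.1 h4 with h5 | h5
        · exact Or.inl (sub_eq_zero.1 h5)
        · exact Or.inr (sub_eq_zero.1 h5)
      · rintro (rfl | rfl)
        · exact ⟨Finset.mem_univ _, hy0⟩
        · refine ⟨Finset.mem_univ _, ?_⟩
          linear_combination hy0 + (y0 + 1) * h2
    rw [h3, Finset.card_pair]
    intro h6
    have : (1 : k) = 0 := by linear_combination -h6
    exact one_ne_zero this
  · left
    rw [Finset.card_eq_zero, Finset.filter_eq_empty_iff]
    intro y _ hy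
    exact h ⟨y, hy⟩

theorem tau_sq (h2 : (2 : k) = 0) (a : k) : tau a ^ 2 = 1 := by
  unfold tau
  rcases card_fib h2 a with h | h <;> rw [h] <;> norm_num

theorem sum_tau : ∑ a : k, tau a = 0 := by
  unfold tau
  rw [Finset.sum_sub_distrib]
  have h : (∑ a : k, (Finset.univ.filter fun y : k => y ^ 2 + y = a).card) = Fintype.card k := by
    rw [← Finset.card_univ, Finset.card_eq_sum_card_fiberwise (f := fun y : k => y ^ 2 + y)
      (t := Finset.univ) (fun y _ => Finset.mem_coe.2 (Finset.mem_univ _))]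
  have h' : (∑ a : k, ((Finset.univ.filter fun y : k => y ^ 2 + y = a).card : ℝ)) =
      Fintype.card k := by
    rw [← Nat.cast_sum, h]
  rw [h']
  simp

theorem sum_tau_b : ∑ a : k, ∑ _b : Bool, tau a = 0 := by
  rw [Finset.sum_congr rfl fun a _ => show ∑ _b : Bool, tau a = 2 * tau a by simp [two_mul],
    ← Finset.mul_sum, sum_tau, mul_zero]

theorem exists_even (h2 : (2 : k) = 0) (g M : ℕ) (hM : 2 * M + 1 ≤ g) (t : ℝ) (a : ℕ → ℂ)
    (ha : ∀ n, M < n → a n = 0)
    (hpos : 0 < ∑ n ∈ range (Fintype.card k + 1), ((Fintype.card k).choose n : ℝ) * ‖a n‖ ^ 2) (R : ℝ)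
    (hj : ∑ n ∈ range (Fintype.card k + 1), ((Fintype.card k).choose n : ℝ) *
      ‖jop (Fintype.card k) t a n‖ ^ 2 ≤
      R * ∑ n ∈ range (Fintype.card k + 1), ((Fintype.card k).choose n : ℝ) * ‖a n‖ ^ 2) :
    ∃ f : k[X], f.Monic ∧ f.natDegree = 2 * g + 1 ∧
      (∑ x, tau (f.eval x) - t) ^ 2 ≤ R := by
  classical
  set q := Fintype.card k with hq
  have hq1 : 1 < q := Fintype.one_lt_card
  set α : Finset k → ℂ := fun A => a A.card with hα
  have hαM : ∀ A : Finset k, M < A.card → α A = 0 := fun A hA => ha _ hA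
  set A0 : ℝ := ∑ A : Finset k, ‖α A‖ ^ 2 with hA0
  have hA0' : A0 = ∑ n ∈ range (q + 1), (q.choose n : ℝ) * ‖a n‖ ^ 2 := sum_card_eq (fun n => ‖a n‖ ^ 2)
  have hA0pos : 0 < A0 := hA0' ▸ hpos
  have hTpos : 0 < tot k (2 * g + 1) := by
    unfold tot
    rw [← hq]
    positivity
  have hso : ∀ (ω : Sp k (2 * g + 1)) x, sgs (fun _ a _ => tau a) ω x ^ 2 = 1 :=
    fun ω x => tau_sq h2 _
  have h0 : ∀ _x : k, ∑ a : k, ∑ _b : Bool, tau a = 0 := fun _ => sum_tau_b
  have h1 : ∑ ω : Sp k (2 * g + 1), ‖lin α (sgs (fun _ a _ => tau a) ω)‖ ^ 2 =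
      tot k (2 * g + 1) * A0 := by
    have := norm_sum (Ω := Sp k (2 * g + 1)) (fun ω => sgs (fun _ a _ => tau a) ω) hso (fun _ => 1)
      (tot k (2 * g + 1)) (2 * g + 1) M (by omega)
      (fun D hD => by simpa using unbiased (2 * g + 1) (fun _ a _ => tau a) h0 D hD) α hαM
    simpa using this
  have h2' : ∑ ω : Sp k (2 * g + 1), (∑ x, sgs (fun _ a _ => tau a) ω x - t) ^ 2 *
      ‖lin α (sgs (fun _ a _ => tau a) ω)‖ ^ 2 ≤ tot k (2 * g + 1) * (R * A0) := by
    have e1 : ∀ ω : Sp k (2 * g + 1), (∑ x, sgs (fun _ a _ => tau a) ω x - t) ^ 2 *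
        ‖lin α (sgs (fun _ a _ => tau a) ω)‖ ^ 2 =
        ‖lin (fun A => jop q t a A.card) (sgs (fun _ a _ => tau a) ω)‖ ^ 2 := by
      intro ω
      rw [hq, ← mul_lin_radial a _ (hso ω) t, norm_mul, mul_pow, Complex.norm_real, Real.norm_eq_abs,
        sq_abs]
    rw [Finset.sum_congr rfl fun ω _ => e1 ω]
    have e2 := norm_sum (Ω := Sp k (2 * g + 1)) (fun ω => sgs (fun _ a _ => tau a) ω) hso (fun _ => 1)
      (tot k (2 * g + 1)) (2 * g + 1) (M + 1) (by omega)
      (fun D hD => by simpa using unbiased (2 * g + 1) (fun _ a _ => tau a) h0 D hD)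
      (fun A => jop q t a A.card) (fun A hA => by
        unfold jop
        rw [ha _ (by omega), ha _ (by omega), ha _ (by omega)]
        simp)
    simp only [one_mul] at e2
    rw [e2, sum_card_eq (fun n => ‖jop q t a n‖ ^ 2), ← hq, hA0']
    exact mul_le_mul_of_nonneg_left hj hTpos.le
  by_contra hcon
  push Not at hcon
  have h3 : ∀ ω : Sp k (2 * g + 1), R < (∑ x, sgs (fun _ a _ => tau a) ω x - t) ^ 2 :=
    fun ω => hcon (pl ω.1) (pl_monic ω.1) (pl_natDegree ω.1)
  have h4 : 0 < ∑ ω : Sp k (2 * g + 1), ((∑ x, sgs (fun _ a _ => tau a) ω x - t) ^ 2 - R) *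
      ‖lin α (sgs (fun _ a _ => tau a) ω)‖ ^ 2 := by
    have h5 : ∃ ω : Sp k (2 * g + 1), 0 < ‖lin α (sgs (fun _ a _ => tau a) ω)‖ ^ 2 := by
      by_contra hc
      push Not at hc
      have : ∑ ω : Sp k (2 * g + 1), ‖lin α (sgs (fun _ a _ => tau a) ω)‖ ^ 2 ≤ 0 :=
        Finset.sum_nonpos fun ω _ => hc ω
      rw [h1] at this
      have : 0 < tot k (2 * g + 1) * A0 := mul_pos hTpos hA0pos
      linarith
    obtain ⟨ω, hω⟩ := h5
    refine Finset.sum_pos' (fun ω _ => mul_nonneg (by linarith [h3 ω]) (by positivity))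
      ⟨ω, Finset.mem_univ _, mul_pos (by linarith [h3 ω]) hω⟩
  have h6 : ∑ ω : Sp k (2 * g + 1), ((∑ x, sgs (fun _ a _ => tau a) ω x - t) ^ 2 - R) *
      ‖lin α (sgs (fun _ a _ => tau a) ω)‖ ^ 2 =
      ∑ ω : Sp k (2 * g + 1), (∑ x, sgs (fun _ a _ => tau a) ω x - t) ^ 2 *
        ‖lin α (sgs (fun _ a _ => tau a) ω)‖ ^ 2 -
      R * ∑ ω : Sp k (2 * g + 1), ‖lin α (sgs (fun _ a _ => tau a) ω)‖ ^ 2 := by
    rw [Finset.mul_sum, ← Finset.sum_sub_distrib]
    refine Finset.sum_congr rfl fun ω _ => ?_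
    ring
  rw [h6, h1] at h4
  nlinarith

end Pool.Agent.H35.VQ
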