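import Mathlib

/-!
# Squarefree polynomials with prescribed values at all rational points
-/

namespace Pool.Agent.H35.VQ

open Finset Polynomial

set_option linter.unusedSectionVars false

variable {k : Type} [Field k] [Fintype k] [DecidableEq k]

theorem prod_X_sub_C_univ : (∏ x : k, (X - C x) : k[X]) = X ^ Fintype.card k - X := by
  have hm : (X ^ Fintype.card k - X : k[X]).Monic := by
    apply Polynomial.monic_X_pow_sub
    rw [Polynomial.degree_X]
    exact_mod_cast (Fintype.one_lt_card : 1 < Fintype.card k)
  have hr := FiniteField.roots_X_pow_card_sub_X k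
  have h := Polynomial.prod_multiset_X_sub_C_of_monic_of_roots_card_eq hm (by
    rw [hr, FiniteField.X_pow_card_sub_X_natDegree_eq k Fintype.one_lt_card]
    rfl)
  rw [hr] at h
  exact h

theorem mem_of_pow_card (K : Type) [Field K] [Algebra k K] (θ : K) (h : θ ^ Fintype.card k - θ = 0) :
    ∃ x : k, algebraMap k K x = θ := by
  have hr : (Polynomial.map (algebraMap k K) (X ^ Fintype.card k - X)) =
      ∏ x : k, (X - C (algebraMap k K x)) := by
    rw [← prod_X_sub_C_univ, Polynomial.map_prod]
    simp
  have h1 : (Polynomial.map (algebraMap k K) (X ^ Fintype.card k - X)).eval θ = 0 := by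
    simpa using h
  rw [hr, Polynomial.eval_prod, Finset.prod_eq_zero_iff] at h1
  obtain ⟨x, _, hx⟩ := h1
  refine ⟨x, ?_⟩
  rw [Polynomial.eval_sub, Polynomial.eval_X, Polynomial.eval_C, sub_eq_zero] at hx
  exact hx.symm

/-- the polynomial with prescribed values, of degree less than the number of elements -/
theorem exists_interp (v : k → k) : ∃ a : k[X], a.natDegree ≤ Fintype.card k - 1 ∧
    ∀ x, a.eval x = v x := by
  refine ⟨Lagrange.interpolate Finset.univ id v, ?_, ?_⟩
  · have h := Lagrange.degree_interpolate_lt v (s := (Finset.univ : Finset k)) (v := id)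
      (Set.injOn_id _)
    rw [Finset.card_univ] at h
    by_cases h0 : Lagrange.interpolate (Finset.univ : Finset k) id v = 0
    · rw [h0]
      simp
    · rw [← Polynomial.natDegree_lt_iff_degree_lt h0] at h
      omega
  · intro x
    exact Lagrange.eval_interpolate_at_node v (s := (Finset.univ : Finset k)) (v := id)
      (Set.injOn_id _) (Finset.mem_univ x)

theorem eval_card_sub (x : k) : (X ^ Fintype.card k - X : k[X]).eval x = 0 := by
  simp [FiniteField.pow_card]

theorem derivative_card_sub : derivative (X ^ Fintype.card k - X : k[X]) = -1 := by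
  rw [Polynomial.derivative_sub, Polynomial.derivative_X, Polynomial.derivative_X_pow]
  simp [FiniteField.cast_card_eq_zero]

theorem derivative_pow_char (p : ℕ) [CharP k p] (s : k[X]) : derivative (s ^ p) = 0 := by
  rw [Polynomial.derivative_pow]
  simp [CharP.cast_eq_zero]

theorem family_inj {K : Type} [Field K] [Algebra k K] (θ : K)
    (hθ : ∀ x : k, algebraMap k K x ≠ θ) (b b' : k × k)
    (h : algebraMap k K b.2 * θ + algebraMap k K b.1 = algebraMap k K b'.2 * θ + algebraMap k K b'.1) :
    b = b' := by
  have h1 : algebraMap k K (b.2 - b'.2) * θ = algebraMap k K (b'.1 - b.1) := by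
    rw [map_sub, map_sub]
    linear_combination h
  by_cases h2 : b.2 - b'.2 = 0
  · rw [h2, map_zero, zero_mul] at h1
    have h3 : b'.1 - b.1 = 0 := (algebraMap k K).injective (by rw [← h1, map_zero])
    exact Prod.ext (sub_eq_zero.1 h3).symm (sub_eq_zero.1 h2)
  · exfalso
    apply hθ ((b'.1 - b.1) / (b.2 - b'.2))
    rw [map_div₀]
    have h3 : algebraMap k K (b.2 - b'.2) ≠ 0 := by
      rw [Ne, map_eq_zero]
      exact h2
    rw [← h1]
    field_simp

/-- Prescribed nonzero values at all rational points, prescribed degree and leading coefficient. -/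
theorem exists_prescribed (p : ℕ) [Fact p.Prime] [CharP k p] (n : ℕ)
    (hn : Fintype.card k + 2 * p ≤ n) (c : k) (hc : c ≠ 0) (v : k → k) (hv : ∀ x, v x ≠ 0) :
    ∃ f : k[X], f.natDegree = n ∧ f.leadingCoeff = c ∧ (∀ x, f.eval x = v x) ∧ Squarefree f := by
  classical
  set q := Fintype.card k with hq
  have hq1 : 1 < q := Fintype.one_lt_card
  have hp2 : 2 ≤ p := (Fact.out : p.Prime).two_le
  have hpq : p ≤ q := by
    have h1 : p ∣ q := by
      have := FiniteField.cast_card_eq_zero k
      rw [← hq] at this
      exact (CharP.cast_eq_zero_iff k p q).1 this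
    exact Nat.le_of_dvd (by omega) h1
  obtain ⟨a, ha, hav⟩ := exists_interp v
  rw [← hq] at ha
  set e := (n - q) % p with he
  set j := (n - q) / p with hj
  have hej : n = q + e + p * j := by
    have := Nat.mod_add_div (n - q) p
    rw [← he, ← hj] at this
    omega
  have hep : e < p := Nat.mod_lt _ (by omega)
  have hj2 : 2 ≤ j := by
    rw [hj, Nat.le_div_iff_mul_le (by omega)]
    omega
  have : PerfectRing k p := PerfectRing.ofFiniteOfIsReduced p k
  set c' : k := (frobeniusEquiv k p).symm c with hc'
  have hc'p : c' ^ p = c := frobeniusEquiv_symm_pow_p k p c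
  have hc'0 : c' ≠ 0 := by
    intro h
    rw [h, zero_pow (by omega)] at hc'p
    exact hc hc'p.symm
  set W : k[X] := (X ^ q - X) * X ^ e with hW
  have hWm : W.Monic := by
    have h1 : (X ^ q - X : k[X]).Monic := by
      apply Polynomial.monic_X_pow_sub
      rw [Polynomial.degree_X]
      exact_mod_cast hq1
    exact h1.mul (Polynomial.monic_X_pow e)
  have hWd : W.natDegree = q + e := by
    have h1 : (X ^ q - X : k[X]).Monic := by
      apply Polynomial.monic_X_pow_sub
      rw [Polynomial.degree_X]
      exact_mod_cast hq1
    rw [hW, h1.natDegree_mul (Polynomial.monic_X_pow e), Polynomial.natDegree_X_pow,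
      FiniteField.X_pow_card_sub_X_natDegree_eq k hq1]
  let s : k × k → k[X] := fun b => C c' * X ^ j + (C b.2 * X + C b.1)
  have hsd : ∀ b, (s b).natDegree = j ∧ (s b).leadingCoeff = c' := by
    intro b
    have h1 : (C b.2 * X + C b.1 : k[X]).degree < (C c' * X ^ j : k[X]).degree := by
      rw [Polynomial.degree_C_mul_X_pow j hc'0]
      refine (Polynomial.degree_linear_le).trans_lt ?_
      exact_mod_cast hj2
    constructor
    · have h2 := Polynomial.degree_add_eq_left_of_degree_lt h1
      rw [Polynomial.degree_C_mul_X_pow j hc'0] at h2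
      exact Polynomial.natDegree_eq_of_degree_eq_some h2
    · simp only [s]
      rw [Polynomial.leadingCoeff_add_of_degree_lt' h1, Polynomial.leadingCoeff_C_mul_X_pow]
  let F : k × k → k[X] := fun b => a + W * s b ^ p
  have hWs : ∀ b, (W * s b ^ p).natDegree = n ∧ (W * s b ^ p).leadingCoeff = c := by
    intro b
    constructor
    · rw [Polynomial.natDegree_mul hWm.ne_zero (pow_ne_zero _ _), hWd, Polynomial.natDegree_pow,
        (hsd b).1, ← hej]
      intro h0
      have := (hsd b).2
      rw [h0, Polynomial.leadingCoeff_zero] at this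
      exact hc'0 this.symm
    · rw [Polynomial.leadingCoeff_mul, Polynomial.leadingCoeff_pow, (hsd b).2, hWm.leadingCoeff,
        one_mul, hc'p]
  have hlt : ∀ b, a.degree < (W * s b ^ p).degree := by
    intro b
    apply Polynomial.degree_lt_degree
    rw [(hWs b).1]
    omega
  have hFd : ∀ b, (F b).natDegree = n := by
    intro b
    have h2 := Polynomial.natDegree_eq_natDegree (Polynomial.degree_add_eq_right_of_degree_lt (hlt b))
    exact h2.trans (hWs b).1
  have hFl : ∀ b, (F b).leadingCoeff = c := by
    intro b
    exact (Polynomial.leadingCoeff_add_of_degree_lt (hlt b)).trans (hWs b).2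
  have hFv : ∀ b x, (F b).eval x = v x := by
    intro b x
    simp only [F, hW]
    rw [Polynomial.eval_add, Polynomial.eval_mul, Polynomial.eval_mul, eval_card_sub, hav]
    ring
  by_contra hcon
  push Not at hcon
  have hns : ∀ b, ¬ Squarefree (F b) := fun b => hcon (F b) (hFd b) (hFl b) (hFv b)
  have hroot : ∀ b, ∃ θ : AlgebraicClosure k, aeval θ (F b) = 0 ∧ aeval θ (derivative (F b)) = 0 := by
    intro b
    have h1 : ¬ (F b).Separable := fun h => hns b h.squarefree
    have h2 : ¬ ∀ z : AlgebraicClosure k, aeval z (F b) ≠ 0 ∨ aeval z (derivative (F b)) ≠ 0 :=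
      fun h => h1 ((Polynomial.isCoprime_iff_aeval_ne_zero_of_isAlgClosed k
        (AlgebraicClosure k) _ _).2 h)
    push Not at h2
    exact h2
  choose θ hθ1 hθ2 using hroot
  have hθk : ∀ b (x : k), algebraMap k (AlgebraicClosure k) x ≠ θ b := by
    intro b x h
    have h1 := hθ1 b
    rw [← h, Polynomial.aeval_algebraMap_apply_eq_algebraMap_eval, map_eq_zero, hFv] at h1
    exact hv x h1
  set A : k[X] := a * derivative W - derivative a * W with hA
  have hder : ∀ b, derivative (F b) = derivative a + derivative W * s b ^ p := by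
    intro b
    simp only [F]
    rw [Polynomial.derivative_add, Polynomial.derivative_mul, derivative_pow_char p, mul_zero, add_zero]
  have hAroot : ∀ b, aeval (θ b) A = 0 := by
    intro b
    have h1 := hθ1 b
    have h2 := hθ2 b
    rw [hder b] at h2
    simp only [F] at h1
    rw [map_add, map_mul] at h1 h2
    rw [hA, map_sub, map_mul (aeval (θ b)) a (derivative W), map_mul (aeval (θ b)) (derivative a) W]
    linear_combination (aeval (θ b) (derivative W)) * h1 - (aeval (θ b) W) * h2
  have hA0 : A ≠ 0 := by
    intro h0
    have h1 : A.eval 1 = -v 1 := by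
      have hW1 : W.eval 1 = 0 := by
        rw [hW, Polynomial.eval_mul, eval_card_sub, zero_mul]
      have hW2 : (derivative W).eval 1 = -1 := by
        rw [hW, Polynomial.derivative_mul, derivative_card_sub, Polynomial.eval_add,
          Polynomial.eval_mul, Polynomial.eval_mul, eval_card_sub]
        simp
      rw [hA, Polynomial.eval_sub, Polynomial.eval_mul, Polynomial.eval_mul, hW1, hW2, hav]
      ring
    rw [h0, Polynomial.eval_zero] at h1
    exact hv 1 (neg_eq_zero.1 h1.symm)
  have hAd : A.natDegree < q * q := by
    have h1 : (a * derivative W).natDegree ≤ (q - 1) + (q + e - 1) := by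
      refine Polynomial.natDegree_mul_le.trans ?_
      have := Polynomial.natDegree_derivative_le W
      rw [hWd] at this
      omega
    have h2 : (derivative a * W).natDegree ≤ (q - 2) + (q + e) := by
      refine Polynomial.natDegree_mul_le.trans ?_
      have := Polynomial.natDegree_derivative_le a
      rw [hWd]
      omega
    have h3 : A.natDegree ≤ 2 * q + e - 2 := by
      refine (Polynomial.natDegree_sub_le _ _).trans (max_le ?_ ?_) <;> omega
    have h4 : 2 * q + e - 2 ≤ 3 * q - 3 := by omega
    have h5 : 3 * q - 3 < q * q := by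
      zify [show 3 ≤ 3 * q by omega]
      nlinarith [sq_nonneg ((q : ℤ) - 2)]
    omega
  have hinj : Function.Injective θ := by
    intro b b' h
    apply family_inj (θ b) (hθk b)
    have h1 := hθ1 b
    have h2 := hθ1 b'
    rw [← h] at h2
    simp only [F] at h1 h2
    rw [map_add, map_mul, map_pow] at h1 h2
    have hWθ : aeval (θ b) W ≠ 0 := by
      rw [hW]
      intro h0
      rw [map_mul, map_sub, map_pow, map_pow, Polynomial.aeval_X, mul_eq_zero] at h0
      rcases h0 with h0 | h0
      · obtain ⟨x, hx⟩ := mem_of_pow_card (AlgebraicClosure k) (θ b) h0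
        exact hθk b x hx
      · have : θ b = 0 := eq_zero_of_pow_eq_zero h0
        exact hθk b 0 (by rw [map_zero, this])
    have h3 : aeval (θ b) (s b) ^ p = aeval (θ b) (s b') ^ p := by
      have : aeval (θ b) W * (aeval (θ b) (s b) ^ p - aeval (θ b) (s b') ^ p) = 0 := by
        linear_combination h1 - h2
      rcases mul_eq_zero.1 this with h0 | h0
      · exact absurd h0 hWθ
      · exact sub_eq_zero.1 h0
    have : CharP (AlgebraicClosure k) p := charP_of_injective_algebraMap (algebraMap k (AlgebraicClosure k)).injective p
    have h4 : aeval (θ b) (s b) = aeval (θ b) (s b') := frobenius_inj (AlgebraicClosure k) p h3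
    simp only [s] at h4
    simp only [map_add, map_mul, map_pow, Polynomial.aeval_X, Polynomial.aeval_C] at h4
    linear_combination h4
  have hcard : Fintype.card (k × k) ≤ (A.aroots (AlgebraicClosure k)).toFinset.card := by
    rw [← Finset.card_univ]
    refine Finset.card_le_card_of_injOn θ ?_ hinj.injOn
    intro b _
    rw [Finset.mem_coe, Multiset.mem_toFinset, Polynomial.mem_aroots]
    exact ⟨hA0, hAroot b⟩
  have hle : (A.aroots (AlgebraicClosure k)).toFinset.card ≤ A.natDegree := by
    refine (Multiset.toFinset_card_le _).trans ?_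
    refine (Polynomial.card_roots' _).trans ?_
    exact Polynomial.natDegree_map_le
  rw [Fintype.card_prod, ← hq] at hcard
  omega

end Pool.Agent.H35.VQ
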