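import Pool.Agent.H35.VQ.Poly

/-!
# Squarefree monic polynomials with prescribed approximate character sum, odd characteristic
-/

namespace Pool.Agent.H35.VQ

open Finset Polynomial

set_option linter.unusedSectionVars false

variable {k : Type} [Field k] [Fintype k] [DecidableEq k]

/-- sign of a Boolean -/
def sg (b : Bool) : ℝ := if b then 1 else -1

/-- the quadratic character with real values -/
noncomputable def chi (a : k) : ℝ := ((quadraticChar k a : ℤ) : ℝ)

/-- quadratic character with an auxiliary sign at zero -/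
noncomputable def so (a : k) (b : Bool) : ℝ := if a = 0 then sg b else chi a

theorem sg_sq (b : Bool) : sg b ^ 2 = 1 := by
  cases b <;> simp [sg]

theorem sum_sg : ∑ b, sg b = 0 := by
  simp [sg]

theorem chi_sq {a : k} (ha : a ≠ 0) : chi a ^ 2 = 1 := by
  unfold chi
  have h := quadraticChar_sq_one ha
  exact_mod_cast h

theorem so_sq (a : k) (b : Bool) : so a b ^ 2 = 1 := by
  unfold so
  split_ifs with h
  · exact sg_sq b
  · exact chi_sq h

theorem sum_chi (hk : ringChar k ≠ 2) : ∑ a : k, chi a = 0 := by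
  unfold chi
  have h := quadraticChar_sum_zero hk
  exact_mod_cast h

theorem chi_zero : chi (0 : k) = 0 := by
  unfold chi
  simp

theorem sum_so (hk : ringChar k ≠ 2) : ∑ a : k, ∑ b, so a b = 0 := by
  have h : ∀ a : k, ∑ b, so a b = 2 * chi a := by
    intro a
    by_cases ha : a = 0
    · subst ha
      simp only [so, if_true]
      rw [sum_sg, chi_zero, mul_zero]
    · simp only [so, ha, if_false]
      simp [two_mul]
  rw [Finset.sum_congr rfl fun a _ => h a, ← Finset.mul_sum, sum_chi hk, mul_zero]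

/-- the number of zeros -/
noncomputable def nz {n : ℕ} (ω : Sp k n) : ℝ := ∑ x : k, if (pl ω.1).eval x = 0 then (1 : ℝ) else 0

open Classical in
/-- indicator of divisibility -/
noncomputable def dv (P f : k[X]) : ℝ := if P ∣ f then 1 else 0

theorem dv_nonneg (P f : k[X]) : 0 ≤ dv P f := by
  unfold dv
  split_ifs <;> norm_num

/-- the number of square divisors -/
noncomputable def nsq {n : ℕ} (g : ℕ) (ω : Sp k n) : ℝ :=
  ∑ j ∈ Icc 1 g, ∑ p : Fin j → k, dv ((pl p) ^ 2) (pl ω.1)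

theorem nz_nonneg {n : ℕ} (ω : Sp k n) : 0 ≤ nz ω :=
  Finset.sum_nonneg fun x _ => by split_ifs <;> norm_num

theorem char_sum_diff {n : ℕ} (ω : Sp k n) :
    |∑ x, chi ((pl ω.1).eval x) - ∑ x, sgs (fun _ => so) ω x| ≤ nz ω := by
  rw [← Finset.sum_sub_distrib]
  refine (Finset.abs_sum_le_sum_abs _ _).trans ?_
  unfold nz
  refine Finset.sum_le_sum fun x _ => ?_
  unfold sgs so
  by_cases h : (pl ω.1).eval x = 0
  · rw [if_pos h]
    beta_reduce
    rw [if_pos h, h, chi_zero, zero_sub, abs_neg]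
    cases ω.2 x <;> simp [sg]
  · rw [if_neg h]
    beta_reduce
    rw [if_neg h]
    simp

theorem squarefree_of_nsq {g : ℕ} (ω : Sp k (2 * g + 1)) (h : nsq g ω < 1) :
    Squarefree (pl ω.1) := by
  classical
  have hmon := pl_monic ω.1
  have hdeg := pl_natDegree ω.1
  rw [squarefree_iff_emultiplicity_le_one] <;> skip
  intro p
  by_contra hc
  push Not at hc
  obtain ⟨hc1, hc2⟩ := hc
  have hp2 : p ^ 2 ∣ pl ω.1 := by
    have : ((2 : ℕ) : ℕ∞) ≤ emultiplicity p (pl ω.1) := by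
      have h1 : (1 : ℕ∞) + 1 ≤ emultiplicity p (pl ω.1) := Order.add_one_le_of_lt hc1
      have h2 : ((2 : ℕ) : ℕ∞) = 1 + 1 := by norm_num
      rw [h2]
      exact h1
    exact pow_dvd_of_le_emultiplicity this
  have hp0 : p ≠ 0 := by
    rintro rfl
    rw [zero_pow two_ne_zero, zero_dvd_iff] at hp2
    exact hmon.ne_zero hp2
  set P : k[X] := p * C p.leadingCoeff⁻¹ with hP
  have hPm : P.Monic := Polynomial.monic_mul_leadingCoeff_inv hp0
  have hPp : P ∣ p := by
    have hu : IsUnit (C p.leadingCoeff⁻¹ : k[X]) :=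
      Polynomial.isUnit_C.2 (isUnit_iff_ne_zero.2 (inv_ne_zero (Polynomial.leadingCoeff_ne_zero.2 hp0)))
    rw [hP]
    exact hu.mul_right_dvd.2 dvd_rfl
  have hP2 : P ^ 2 ∣ pl ω.1 := (pow_dvd_pow_of_dvd hPp 2).trans hp2
  have hPd : P.natDegree ≠ 0 := by
    intro h0
    apply hc2
    have h1 : P = 1 := Polynomial.eq_one_of_monic_natDegree_zero hPm h0
    have h2 : IsUnit (p * C p.leadingCoeff⁻¹) := by
      rw [← hP, h1]
      exact isUnit_one
    exact isUnit_of_mul_isUnit_left h2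
  have hle : P.natDegree ≤ g := by
    have h1 := Polynomial.natDegree_le_of_dvd hP2 hmon.ne_zero
    rw [Polynomial.natDegree_pow, hdeg] at h1
    omega
  have h3 : (1 : ℝ) ≤ nsq g ω := by
    unfold nsq
    have h4 : (1 : ℝ) ≤ ∑ p : Fin P.natDegree → k, dv ((pl p) ^ 2) (pl ω.1) := by
      have h5 := Finset.single_le_sum (f := fun p : Fin P.natDegree → k =>
        dv ((pl p) ^ 2) (pl ω.1)) (fun p _ => dv_nonneg _ _)
        (Finset.mem_univ (fun i : Fin P.natDegree => P.coeff i))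
      rw [pl_of_monic P hPm rfl] at h5
      unfold dv at h5
      rw [if_pos hP2] at h5
      exact h5
    refine h4.trans ?_
    exact Finset.single_le_sum (f := fun j => ∑ p : Fin j → k, dv ((pl p) ^ 2) (pl ω.1))
      (fun j _ => Finset.sum_nonneg fun p _ => dv_nonneg _ _)
      (Finset.mem_Icc.2 ⟨Nat.one_le_iff_ne_zero.2 hPd, hle⟩)
  linarith

/-- signs after dividing by a square -/
noncomputable def sP (P : k[X]) (x a : k) (b : Bool) : ℝ := if P.eval x = 0 then sg b else so a b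

theorem sP_sq (P : k[X]) (x a : k) (b : Bool) : sP P x a b ^ 2 = 1 := by
  unfold sP
  split_ifs
  · exact sg_sq b
  · exact so_sq a b

theorem sum_sP (hk : ringChar k ≠ 2) (P : k[X]) (x : k) : ∑ a : k, ∑ b, sP P x a b = 0 := by
  by_cases h : P.eval x = 0
  · simp only [sP, h, if_true]
    rw [sum_sg]
    simp
  · simp only [sP, h, if_false]
    exact sum_so hk

theorem sgs_mul_sq {n m : ℕ} (P : k[X]) (v : Fin n → k) (v' : Fin m → k) (σ : k → Bool)
    (h : pl v = P ^ 2 * pl v') : sgs (fun _ => so) ((v, σ) : Sp k n) = sgs (sP P) ((v', σ) : Sp k m) := by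
  funext x
  unfold sgs sP so
  simp only
  rw [h, Polynomial.eval_mul, Polynomial.eval_pow]
  by_cases hP : P.eval x = 0
  · rw [hP]
    simp
  · rw [if_neg hP]
    by_cases hv : (pl v').eval x = 0
    · rw [hv]
      simp
    · rw [if_neg hv, if_neg (mul_ne_zero (pow_ne_zero 2 hP) hv)]
      unfold chi
      rw [map_mul, map_pow, quadraticChar_sq_one hP, one_mul]

theorem sum_div (g j : ℕ) (hjg : j ≤ g) (p : Fin j → k) (F : (k → ℝ) → ℝ)
    (hF : ∀ e, 0 ≤ F e) :
    ∑ ω : Sp k (2 * g + 1), dv ((pl p) ^ 2) (pl ω.1) * F (sgs (fun _ => so) ω) ≤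
      ∑ ω : Sp k (2 * g + 1 - 2 * j), F (sgs (sP (pl p)) ω) := by
  classical
  have hquot : ∀ v : Fin (2 * g + 1) → k, (pl p) ^ 2 ∣ pl v →
      ∃ v' : Fin (2 * g + 1 - 2 * j) → k, pl v = (pl p) ^ 2 * pl v' := by
    intro v hv
    obtain ⟨r, hr⟩ := hv
    have hm : ((pl p) ^ 2 : k[X]).Monic := (pl_monic p).pow 2
    have hrm : r.Monic := hm.of_mul_monic_left (hr ▸ pl_monic v)
    have hd : r.natDegree = 2 * g + 1 - 2 * j := by
      have h1 := pl_natDegree v
      rw [hr, hm.natDegree_mul hrm, (pl_monic p).natDegree_pow, pl_natDegree] at h1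
      omega
    exact ⟨fun i => r.coeff i, by rw [hr, pl_of_monic r hrm hd]⟩
  let q' : Sp k (2 * g + 1) → Sp k (2 * g + 1 - 2 * j) := fun ω =>
    if h : (pl p) ^ 2 ∣ pl ω.1 then ((hquot ω.1 h).choose, ω.2) else (0, ω.2)
  have hq' : ∀ ω : Sp k (2 * g + 1), (pl p) ^ 2 ∣ pl ω.1 → pl ω.1 = (pl p) ^ 2 * pl (q' ω).1 ∧
      (q' ω).2 = ω.2 := by
    intro ω h
    have hq1 : q' ω = ((hquot ω.1 h).choose, ω.2) := dif_pos h
    rw [hq1]
    exact ⟨(hquot ω.1 h).choose_spec, rfl⟩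
  set U : Finset (Sp k (2 * g + 1)) := Finset.univ.filter fun ω => (pl p) ^ 2 ∣ pl ω.1 with hU
  have h1 : ∑ ω : Sp k (2 * g + 1), dv ((pl p) ^ 2) (pl ω.1) *
      F (sgs (fun _ => so) ω) = ∑ ω ∈ U, F (sgs (sP (pl p)) (q' ω)) := by
    rw [hU, Finset.sum_filter]
    refine Finset.sum_congr rfl fun ω _ => ?_
    unfold dv
    split_ifs with h
    · rw [one_mul]
      congr 1
      have h2 := hq' ω h
      have h3 := sgs_mul_sq (pl p) ω.1 (q' ω).1 ω.2 h2.1
      rw [show ω = (ω.1, ω.2) from rfl, h3]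
      congr 1
      exact Prod.ext rfl h2.2.symm
    · rw [zero_mul]
  rw [h1]
  have hinj : Set.InjOn q' (U : Set (Sp k (2 * g + 1))) := by
    intro ω hω ω' hω' h
    rw [Finset.mem_coe, hU, Finset.mem_filter] at hω hω'
    have e1 := hq' ω hω.2
    have e2 := hq' ω' hω'.2
    refine Prod.ext (pl_injective ?_) ?_
    · rw [e1.1, e2.1, h]
    · rw [← e1.2, ← e2.2, h]
  rw [← Finset.sum_image (f := fun ω => F (sgs (sP (pl p)) ω)) hinj]
  exact Finset.sum_le_sum_of_subset_of_nonneg (Finset.subset_univ _) fun ω _ _ => hF _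

theorem exists_odd (hk : ringChar k ≠ 2) (g M : ℕ) (hM : 2 * M + 1 ≤ g) (t : ℝ) (a : ℕ → ℂ)
    (ha : ∀ n, M < n → a n = 0)
    (hpos : 0 < ∑ n ∈ range (Fintype.card k + 1), ((Fintype.card k).choose n : ℝ) * ‖a n‖ ^ 2) (R : ℝ)
    (hj : ∑ n ∈ range (Fintype.card k + 1), ((Fintype.card k).choose n : ℝ) *
      ‖jop (Fintype.card k) t a n‖ ^ 2 ≤
      R * ∑ n ∈ range (Fintype.card k + 1), ((Fintype.card k).choose n : ℝ) * ‖a n‖ ^ 2) (L : ℝ)
    (hL0 : 0 < L)
    (hL : (R + 2) < L * (1 - ((Fintype.card k : ℝ) + 1) / ((Fintype.card k : ℝ) *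
      ((Fintype.card k : ℝ) - 1)))) :
    ∃ f : k[X], f.Monic ∧ f.natDegree = 2 * g + 1 ∧ Squarefree f ∧
      (∑ x, chi (f.eval x) - t) ^ 2 ≤ 2 * L := by
  classical
  set q := Fintype.card k with hq
  have hq1 : 1 < q := Fintype.one_lt_card
  have hqR : (1 : ℝ) < q := by exact_mod_cast hq1
  set α : Finset k → ℂ := fun A => a A.card with hα
  have hαM : ∀ A : Finset k, M < A.card → α A = 0 := fun A hA => ha _ hA
  set A0 : ℝ := ∑ A : Finset k, ‖α A‖ ^ 2 with hA0
  have hA0' : A0 = ∑ n ∈ range (q + 1), (q.choose n : ℝ) * ‖a n‖ ^ 2 := sum_card_eq (fun n => ‖a n‖ ^ 2)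
  have hA0pos : 0 < A0 := hA0' ▸ hpos
  have hTpos : ∀ n, 0 < tot k n := by
    intro n
    unfold tot
    rw [← hq]
    positivity
  have hso : ∀ (ω : Sp k (2 * g + 1)) x, sgs (fun _ => so) ω x ^ 2 = 1 := fun ω x => so_sq _ _
  -- (1)
  have h1 : ∑ ω : Sp k (2 * g + 1), ‖lin α (sgs (fun _ => so) ω)‖ ^ 2 = tot k (2 * g + 1) * A0 := by
    have := norm_sum (Ω := Sp k (2 * g + 1)) (fun ω => sgs (fun _ => so) ω) hso (fun _ => 1)
      (tot k (2 * g + 1)) (2 * g + 1) M (by omega)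
      (fun D hD => by simpa using unbiased (2 * g + 1) (fun _ => so) (fun _ => sum_so hk) D hD) α hαM
    simpa using this
  -- (2)
  have h2 : ∑ ω : Sp k (2 * g + 1), (∑ x, sgs (fun _ => so) ω x - t) ^ 2 *
      ‖lin α (sgs (fun _ => so) ω)‖ ^ 2 ≤ tot k (2 * g + 1) * (R * A0) := by
    have e1 : ∀ ω : Sp k (2 * g + 1), (∑ x, sgs (fun _ => so) ω x - t) ^ 2 *
        ‖lin α (sgs (fun _ => so) ω)‖ ^ 2 =
        ‖lin (fun A => jop q t a A.card) (sgs (fun _ => so) ω)‖ ^ 2 := by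
      intro ω
      rw [hq, ← mul_lin_radial a _ (hso ω) t, norm_mul, mul_pow, Complex.norm_real, Real.norm_eq_abs,
        sq_abs]
    rw [Finset.sum_congr rfl fun ω _ => e1 ω]
    have e2 := norm_sum (Ω := Sp k (2 * g + 1)) (fun ω => sgs (fun _ => so) ω) hso (fun _ => 1)
      (tot k (2 * g + 1)) (2 * g + 1) (M + 1) (by omega)
      (fun D hD => by simpa using unbiased (2 * g + 1) (fun _ => so) (fun _ => sum_so hk) D hD)
      (fun A => jop q t a A.card) (fun A hA => by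
        unfold jop
        rw [ha _ (by omega), ha _ (by omega), ha _ (by omega)]
        simp)
    simp only [one_mul] at e2
    rw [e2, sum_card_eq (fun n => ‖jop q t a n‖ ^ 2), ← hq, hA0']
    exact mul_le_mul_of_nonneg_left hj (hTpos _).le
  -- (3)
  have h3 : ∑ ω : Sp k (2 * g + 1), nz ω ^ 2 * ‖lin α (sgs (fun _ => so) ω)‖ ^ 2 ≤
      tot k (2 * g + 1) * (2 * A0) := by
    have e1 : ∀ ω : Sp k (2 * g + 1), nz ω ^ 2 * ‖lin α (sgs (fun _ => so) ω)‖ ^ 2 =
        ∑ y : k, ∑ z : k, ((if (pl ω.1).eval y = 0 then (1 : ℝ) else 0) *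
          (if (pl ω.1).eval z = 0 then (1 : ℝ) else 0)) * ‖lin α (sgs (fun _ => so) ω)‖ ^ 2 := by
      intro ω
      unfold nz
      rw [sq, Finset.sum_mul_sum, Finset.sum_mul]
      refine Finset.sum_congr rfl fun y _ => ?_
      rw [Finset.sum_mul]
    have e2 : ∀ y z : k, ∑ ω : Sp k (2 * g + 1), ((if (pl ω.1).eval y = 0 then (1 : ℝ) else 0) *
          (if (pl ω.1).eval z = 0 then (1 : ℝ) else 0)) * ‖lin α (sgs (fun _ => so) ω)‖ ^ 2 =
        (tot k (2 * g + 1) * (if y = z then 1 / (q : ℝ) else 1 / (q : ℝ) ^ 2)) * A0 := by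
      intro y z
      exact norm_sum (Ω := Sp k (2 * g + 1)) (fun ω => sgs (fun _ => so) ω) hso
        (fun ω => (if (pl ω.1).eval y = 0 then (1 : ℝ) else 0) *
          (if (pl ω.1).eval z = 0 then (1 : ℝ) else 0)) _ (2 * M) M le_rfl
        (fun D hD => unbiased_zeros (2 * g + 1) (fun _ => so) (fun _ => sum_so hk)
          (fun _ => by simp only [so, if_true]; exact sum_sg) y z D (by omega)) α hαM
    rw [Finset.sum_congr rfl fun ω _ => e1 ω, Finset.sum_comm]
    have e3 : ∀ y : k, ∑ ω : Sp k (2 * g + 1), ∑ z : k,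
        ((if (pl ω.1).eval y = 0 then (1 : ℝ) else 0) *
          (if (pl ω.1).eval z = 0 then (1 : ℝ) else 0)) * ‖lin α (sgs (fun _ => so) ω)‖ ^ 2 ≤
        tot k (2 * g + 1) * A0 * (2 / q) := by
      intro y
      rw [Finset.sum_comm, Finset.sum_congr rfl fun z _ => e2 y z]
      have e4 : ∀ z : k, (tot k (2 * g + 1) * (if y = z then 1 / (q : ℝ) else 1 / (q : ℝ) ^ 2)) * A0 ≤
          tot k (2 * g + 1) * A0 * ((if y = z then 1 / (q : ℝ) else 0) + 1 / (q : ℝ) ^ 2) := by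
        intro z
        have hc : 0 ≤ tot k (2 * g + 1) * A0 := (mul_pos (hTpos _) hA0pos).le
        have hx : (if y = z then 1 / (q : ℝ) else 1 / (q : ℝ) ^ 2) ≤
            (if y = z then 1 / (q : ℝ) else 0) + 1 / (q : ℝ) ^ 2 := by
          split_ifs
          · have : (0 : ℝ) ≤ 1 / (q : ℝ) ^ 2 := by positivity
            linarith
          · linarith
        calc _ = tot k (2 * g + 1) * A0 * (if y = z then 1 / (q : ℝ) else 1 / (q : ℝ) ^ 2) := by ring
          _ ≤ _ := mul_le_mul_of_nonneg_left hx hc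
      refine (Finset.sum_le_sum fun z _ => e4 z).trans (le_of_eq ?_)
      rw [← Finset.mul_sum, Finset.sum_add_distrib, Finset.sum_ite_eq]
      simp only [Finset.mem_univ, if_true, Finset.sum_const, Finset.card_univ, nsmul_eq_mul]
      rw [← hq]
      have : (q : ℝ) ≠ 0 := by positivity
      field_simp
      ring
    refine (Finset.sum_le_sum fun y _ => e3 y).trans (le_of_eq ?_)
    rw [Finset.sum_const, Finset.card_univ, nsmul_eq_mul, ← hq]
    have : (q : ℝ) ≠ 0 := by positivity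
    field_simp
  -- (4)
  have h4 : ∑ ω : Sp k (2 * g + 1), nsq g ω * ‖lin α (sgs (fun _ => so) ω)‖ ^ 2 ≤
      tot k (2 * g + 1) * (((q : ℝ) + 1) / (q * (q - 1)) * A0) := by
    have e1 : ∀ ω : Sp k (2 * g + 1), nsq g ω * ‖lin α (sgs (fun _ => so) ω)‖ ^ 2 =
        ∑ j ∈ Icc 1 g, ∑ p : Fin j → k, dv ((pl p) ^ 2) (pl ω.1) *
          ‖lin α (sgs (fun _ => so) ω)‖ ^ 2 := by
      intro ω
      unfold nsq
      rw [Finset.sum_mul]
      refine Finset.sum_congr rfl fun j _ => ?_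
      rw [Finset.sum_mul]
    rw [Finset.sum_congr rfl fun ω _ => e1 ω, Finset.sum_comm]
    have htot : ∀ j, j ≤ g → tot k (2 * g + 1 - 2 * j) = tot k (2 * g + 1) * (1 / (q : ℝ)) ^ (2 * j) := by
      intro j hj
      unfold tot
      rw [← hq]
      have h5 : (q : ℝ) ^ (2 * g + 1) = (q : ℝ) ^ (2 * g + 1 - 2 * j) * (q : ℝ) ^ (2 * j) := by
        rw [← pow_add]
        congr 1
        omega
      have : (q : ℝ) ≠ 0 := by positivity
      rw [h5, one_div, inv_pow]
      field_simp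
    have e2 : ∀ j ∈ Icc 1 g, ∑ ω : Sp k (2 * g + 1), ∑ p : Fin j → k,
        dv ((pl p) ^ 2) (pl ω.1) * ‖lin α (sgs (fun _ => so) ω)‖ ^ 2 ≤
        tot k (2 * g + 1) * A0 * ((1 / (q : ℝ)) ^ j +
          if j ∈ Ico (g - M + 1) (g + 1) then (q : ℝ) ^ M * (1 / (q : ℝ)) ^ j else 0) := by
      intro j hj
      rw [Finset.mem_Icc] at hj
      rw [Finset.sum_comm]
      have e3 : ∀ p : Fin j → k, ∑ ω : Sp k (2 * g + 1),
          dv ((pl p) ^ 2) (pl ω.1) * ‖lin α (sgs (fun _ => so) ω)‖ ^ 2 ≤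
          tot k (2 * g + 1) * (1 / (q : ℝ)) ^ (2 * j) * (A0 *
            (1 + if j ∈ Ico (g - M + 1) (g + 1) then (q : ℝ) ^ M else 0)) := by
        intro p
        refine (sum_div g j hj.2 p (fun e => ‖lin α e‖ ^ 2) (fun e => by positivity)).trans ?_
        rw [← htot j hj.2]
        by_cases hjM : j ∈ Ico (g - M + 1) (g + 1)
        · rw [if_pos hjM]
          have e4 : ∀ ω : Sp k (2 * g + 1 - 2 * j), ‖lin α (sgs (sP (pl p)) ω)‖ ^ 2 ≤
              ((q : ℝ) ^ M + 1) * A0 := fun ω =>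
            norm_lin_sq_le M α hαM _ (fun x => sP_sq _ _ _ _)
          refine (Finset.sum_le_sum fun ω _ => e4 ω).trans (le_of_eq ?_)
          rw [Finset.sum_const, Finset.card_univ, nsmul_eq_mul]
          have e5 : (Fintype.card (Sp k (2 * g + 1 - 2 * j)) : ℝ) = tot k (2 * g + 1 - 2 * j) := by
            unfold tot Sp
            rw [Fintype.card_prod, Fintype.card_fun, Fintype.card_fun, Fintype.card_fin,
              Fintype.card_bool]
            push_cast
            ring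
          rw [e5]
          ring
        · rw [if_neg hjM, add_zero, mul_one]
          rw [Finset.mem_Ico] at hjM
          have e6 := norm_sum (Ω := Sp k (2 * g + 1 - 2 * j)) (fun ω => sgs (sP (pl p)) ω)
            (fun ω x => sP_sq _ _ _ _) (fun _ => 1)
            (tot k (2 * g + 1 - 2 * j)) (2 * g + 1 - 2 * j) M (by omega)
            (fun D hD => by simpa using unbiased (2 * g + 1 - 2 * j) (sP (pl p)) (sum_sP hk (pl p)) D hD)
            α hαM
          simp only [one_mul] at e6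
          rw [e6]
      refine (Finset.sum_le_sum fun p _ => e3 p).trans (le_of_eq ?_)
      rw [Finset.sum_const, Finset.card_univ, nsmul_eq_mul, Fintype.card_fun, Fintype.card_fin, ← hq]
      have h6 : (1 / (q : ℝ)) ^ (2 * j) * (q : ℝ) ^ j = (1 / (q : ℝ)) ^ j := by
        have : (q : ℝ) ≠ 0 := by positivity
        rw [two_mul, pow_add, mul_assoc, ← mul_pow, one_div_mul_cancel this, one_pow, mul_one]
      push_cast
      calc (q : ℝ) ^ j * (tot k (2 * g + 1) * (1 / (q : ℝ)) ^ (2 * j) *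
            (A0 * (1 + if j ∈ Ico (g - M + 1) (g + 1) then (q : ℝ) ^ M else 0)))
          = tot k (2 * g + 1) * A0 * (((1 / (q : ℝ)) ^ (2 * j) * (q : ℝ) ^ j) *
            (1 + if j ∈ Ico (g - M + 1) (g + 1) then (q : ℝ) ^ M else 0)) := by ring
        _ = _ := by
            rw [h6]
            congr 1
            split_ifs <;> ring
    refine (Finset.sum_le_sum e2).trans ?_
    rw [← Finset.mul_sum, Finset.sum_add_distrib]
    have hx0 : (0 : ℝ) ≤ 1 / (q : ℝ) := by positivity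
    have hx1 : 1 / (q : ℝ) < 1 := by
      rw [div_lt_one (by linarith)]
      exact hqR
    have g1 : ∑ j ∈ Icc 1 g, (1 / (q : ℝ)) ^ j ≤ 1 / (q - 1) := by
      have hI : Icc 1 g = Ico 1 (g + 1) := by
        ext j
        rw [Finset.mem_Icc, Finset.mem_Ico]
        omega
      rw [hI]
      refine (geom_sum_Ico_le_of_lt_one hx0 hx1).trans (le_of_eq ?_)
      have h7 : (q : ℝ) - 1 ≠ 0 := by linarith
      have h8 : (q : ℝ) ≠ 0 := by positivity
      field_simp
    have g2 : ∑ j ∈ Icc 1 g, (if j ∈ Ico (g - M + 1) (g + 1) then (q : ℝ) ^ M * (1 / (q : ℝ)) ^ j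
        else 0) ≤ 1 / (q * (q - 1)) := by
      rw [← Finset.sum_filter]
      have hI : (Icc 1 g).filter (fun j => j ∈ Ico (g - M + 1) (g + 1)) = Ico (g - M + 1) (g + 1) := by
        ext j
        rw [Finset.mem_filter, Finset.mem_Icc, Finset.mem_Ico]
        omega
      rw [hI, ← Finset.mul_sum]
      have h9 : (q : ℝ) ^ M * (1 / (q : ℝ)) ^ (g - M + 1) ≤ (1 / (q : ℝ)) ^ 2 := by
        have h10 : (1 / (q : ℝ)) ^ (g - M + 1) ≤ (1 / (q : ℝ)) ^ (M + 2) :=
          pow_le_pow_of_le_one hx0 hx1.le (by omega)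
        calc (q : ℝ) ^ M * (1 / (q : ℝ)) ^ (g - M + 1) ≤ (q : ℝ) ^ M * (1 / (q : ℝ)) ^ (M + 2) := by gcongr
          _ = (1 / (q : ℝ)) ^ 2 := by
              have : (q : ℝ) ≠ 0 := by positivity
              rw [pow_add, ← mul_assoc, ← mul_pow, mul_one_div_cancel this, one_pow, one_mul]
      have h11 := geom_sum_Ico_le_of_lt_one (m := g - M + 1) (n := g + 1) hx0 hx1
      have h12 : (0 : ℝ) < 1 - 1 / (q : ℝ) := by linarith
      calc (q : ℝ) ^ M * ∑ j ∈ Ico (g - M + 1) (g + 1), (1 / (q : ℝ)) ^ j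
          ≤ (q : ℝ) ^ M * ((1 / (q : ℝ)) ^ (g - M + 1) / (1 - 1 / (q : ℝ))) := by gcongr
        _ = ((q : ℝ) ^ M * (1 / (q : ℝ)) ^ (g - M + 1)) / (1 - 1 / (q : ℝ)) := by ring
        _ ≤ (1 / (q : ℝ)) ^ 2 / (1 - 1 / (q : ℝ)) := by gcongr
        _ = 1 / (q * (q - 1)) := by
            have h7 : (q : ℝ) - 1 ≠ 0 := by linarith
            have h8 : (q : ℝ) ≠ 0 := by positivity
            field_simp
    have hc : 0 ≤ tot k (2 * g + 1) * A0 := (mul_pos (hTpos _) hA0pos).le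
    calc _ ≤ tot k (2 * g + 1) * A0 * (1 / ((q : ℝ) - 1) + 1 / (q * (q - 1))) := by
          gcongr
      _ = _ := by
          have h7 : (q : ℝ) - 1 ≠ 0 := by linarith
          have h8 : (q : ℝ) ≠ 0 := by positivity
          field_simp
  -- (5)
  have h5 : 0 < ∑ ω : Sp k (2 * g + 1), (L * (1 - nsq g ω) - (∑ x, sgs (fun _ => so) ω x - t) ^ 2 -
      nz ω ^ 2) * ‖lin α (sgs (fun _ => so) ω)‖ ^ 2 := by
    have e1 : ∑ ω : Sp k (2 * g + 1), (L * (1 - nsq g ω) - (∑ x, sgs (fun _ => so) ω x - t) ^ 2 -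
        nz ω ^ 2) * ‖lin α (sgs (fun _ => so) ω)‖ ^ 2 =
        L * (∑ ω : Sp k (2 * g + 1), ‖lin α (sgs (fun _ => so) ω)‖ ^ 2) -
        L * (∑ ω : Sp k (2 * g + 1), nsq g ω * ‖lin α (sgs (fun _ => so) ω)‖ ^ 2) -
        (∑ ω : Sp k (2 * g + 1), (∑ x, sgs (fun _ => so) ω x - t) ^ 2 *
          ‖lin α (sgs (fun _ => so) ω)‖ ^ 2) -
        (∑ ω : Sp k (2 * g + 1), nz ω ^ 2 * ‖lin α (sgs (fun _ => so) ω)‖ ^ 2) := by
      rw [Finset.mul_sum, Finset.mul_sum, ← Finset.sum_sub_distrib, ← Finset.sum_sub_distrib,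
        ← Finset.sum_sub_distrib]
      refine Finset.sum_congr rfl fun ω _ => ?_
      ring
    rw [e1, h1]
    have e2 : L * (∑ ω : Sp k (2 * g + 1), nsq g ω * ‖lin α (sgs (fun _ => so) ω)‖ ^ 2) ≤
        L * (tot k (2 * g + 1) * (((q : ℝ) + 1) / (q * (q - 1)) * A0)) := by gcongr
    have hc : 0 < tot k (2 * g + 1) * A0 := mul_pos (hTpos _) hA0pos
    nlinarith
  obtain ⟨ω, _, hω⟩ := Finset.exists_lt_of_sum_lt (s := Finset.univ)
    (f := fun _ : Sp k (2 * g + 1) => (0 : ℝ))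
    (g := fun ω => (L * (1 - nsq g ω) - (∑ x, sgs (fun _ => so) ω x - t) ^ 2 -
      nz ω ^ 2) * ‖lin α (sgs (fun _ => so) ω)‖ ^ 2) (by simpa using h5)
  have hbr : 0 < L * (1 - nsq g ω) - (∑ x, sgs (fun _ => so) ω x - t) ^ 2 - nz ω ^ 2 := by
    by_contra hc
    push Not at hc
    have : (L * (1 - nsq g ω) - (∑ x, sgs (fun _ => so) ω x - t) ^ 2 -
      nz ω ^ 2) * ‖lin α (sgs (fun _ => so) ω)‖ ^ 2 ≤ 0 :=
      mul_nonpos_of_nonpos_of_nonneg hc (by positivity)
    linarith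
  have hns : nsq g ω < 1 := by
    by_contra hc
    push Not at hc
    nlinarith [sq_nonneg (∑ x, sgs (fun _ => so) ω x - t), sq_nonneg (nz ω)]
  have hns0 : 0 ≤ nsq g ω := by
    unfold nsq
    exact Finset.sum_nonneg fun j _ => Finset.sum_nonneg fun p _ => dv_nonneg _ _
  refine ⟨pl ω.1, pl_monic ω.1, pl_natDegree ω.1, squarefree_of_nsq ω hns, ?_⟩
  have hd := char_sum_diff ω
  have hnz := nz_nonneg ω
  rw [abs_le] at hd
  have hLn : L * (1 - nsq g ω) ≤ L := by nlinarith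
  nlinarith [sq_nonneg ((∑ x, sgs (fun _ => so) ω x - t) - (∑ x, chi ((pl ω.1).eval x) -
    ∑ x, sgs (fun _ => so) ω x)), mul_nonneg (sub_nonneg.2 hd.2)
    (by linarith [hd.1] : 0 ≤ nz ω + (∑ x, chi ((pl ω.1).eval x) - ∑ x, sgs (fun _ => so) ω x))]

end Pool.Agent.H35.VQ
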