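import Pool.Agent.H35.VQ.Defs
import Pool.Agent.H35.VQ.Odd
import Pool.Agent.H35.VQ.Even

/-!
# Smooth hyperelliptic Weierstrass models and their rational points
-/

namespace Pool.Agent.H35.VQ

open Finset Polynomial

set_option linter.unusedSectionVars false

variable {k : Type} [Field k] [Fintype k] [DecidableEq k]

theorem card_affine (h f : k[X]) :
    Nat.card {P : k × k // P.2 ^ 2 + h.eval P.1 * P.2 = f.eval P.1} =
      ∑ x : k, (Finset.univ.filter fun y : k => y ^ 2 + h.eval x * y = f.eval x).card := by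
  rw [Nat.card_eq_fintype_card, Fintype.card_subtype, Finset.card_eq_sum_card_fiberwise
    (f := fun P : k × k => P.1) (t := Finset.univ) (fun y _ => Finset.mem_coe.2 (Finset.mem_univ _))]
  refine Finset.sum_congr rfl fun x _ => ?_
  refine Finset.card_bij (fun P _ => P.2) ?_ ?_ ?_
  · intro P hP
    rw [Finset.mem_filter, Finset.mem_filter] at hP
    rw [Finset.mem_filter]
    refine ⟨Finset.mem_univ _, ?_⟩
    have := hP.1.2
    rw [hP.2] at this
    exact this
  · intro P hP P' hP' h
    rw [Finset.mem_filter] at hP hP'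
    exact Prod.ext (hP.2.trans hP'.2.symm) h
  · intro y hy
    rw [Finset.mem_filter] at hy
    exact ⟨(x, y), by simp [hy.2], rfl⟩

/-- the model `y² = f(x)` in odd characteristic -/
noncomputable def oddHyp (hk : (2 : k) ≠ 0) (g : ℕ) (f : k[X]) (hm : f.Monic)
    (hd : f.natDegree = 2 * g + 1) (hs : Squarefree f) : Hyp k g where
  h := 0
  f := f
  deg_h := by simp
  deg_f := by omega
  smooth := by
    intro x y hxy
    by_contra hc
    push Not at hc
    obtain ⟨h1, h2⟩ := hc
    have h2k : (2 : AlgebraicClosure k) ≠ 0 := by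
      intro h0
      apply hk
      apply (algebraMap k (AlgebraicClosure k)).injective
      rw [map_ofNat, h0, map_zero]
    simp only [map_zero, add_zero, mul_eq_zero, h2k, false_or] at h1
    simp only [derivative_zero, map_zero, zero_mul] at h2
    rw [h1] at hxy
    simp only [map_zero, mul_zero, add_zero] at hxy
    have hsep : f.Separable := PerfectField.separable_iff_squarefree.2 hs
    obtain ⟨a, b, hab⟩ := hsep
    have h3 := congrArg (aeval x) hab
    rw [map_add, map_mul, map_mul, ← h2, ← hxy] at h3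
    simp at h3
  smooth_infty := by
    intro w _
    right
    have h1 : f.coeff (2 * g + 1) = 1 := by
      rw [← hd]
      exact hm.coeff_natDegree
    rw [h1]
    simp

theorem oddHyp_numPoints (hk : (2 : k) ≠ 0) (g : ℕ) (f : k[X]) (hm : f.Monic)
    (hd : f.natDegree = 2 * g + 1) (hs : Squarefree f) :
    ((oddHyp hk g f hm hd hs).numPoints : ℝ) = Fintype.card k + 1 + ∑ x, chi (f.eval x) := by
  have hr : ringChar k ≠ 2 := by
    intro h
    apply hk
    have := ringChar.Nat.cast_ringChar (R := k)
    rw [h] at this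
    exact_mod_cast this
  unfold Hyp.numPoints
  rw [card_affine]
  have h1 : Nat.card {w : k // w ^ 2 + (oddHyp hk g f hm hd hs).h.coeff (g + 1) * w =
      (oddHyp hk g f hm hd hs).f.coeff (2 * g + 2)} = 1 := by
    rw [Nat.card_eq_one_iff_unique]
    have h2 : f.coeff (2 * g + 2) = 0 := Polynomial.coeff_eq_zero_of_natDegree_lt (by omega)
    constructor
    · constructor
      rintro ⟨w, hw⟩ ⟨w', hw'⟩
      have e1 : w ^ 2 + (0 : k[X]).coeff (g + 1) * w = f.coeff (2 * g + 2) := hw
      have e2 : w' ^ 2 + (0 : k[X]).coeff (g + 1) * w' = f.coeff (2 * g + 2) := hw'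
      rw [h2] at e1 e2
      simp at e1 e2
      rw [Subtype.mk.injEq, e1, e2]
    · refine ⟨⟨0, ?_⟩⟩
      change (0 : k) ^ 2 + (0 : k[X]).coeff (g + 1) * 0 = f.coeff (2 * g + 2)
      rw [h2]
      simp
  rw [h1]
  push_cast
  have h3 : ∀ x : k, ((Finset.univ.filter fun y : k =>
      y ^ 2 + (oddHyp hk g f hm hd hs).h.eval x * y = (oddHyp hk g f hm hd hs).f.eval x).card : ℝ) =
      chi (f.eval x) + 1 := by
    intro x
    have h4 := quadraticChar_card_sqrts hr (f.eval x)
    have h5 : {y : k | y ^ 2 = f.eval x}.toFinset = Finset.univ.filter fun y : k =>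
        y ^ 2 + (oddHyp hk g f hm hd hs).h.eval x * y = (oddHyp hk g f hm hd hs).f.eval x := by
      ext y
      rw [Set.mem_toFinset, Finset.mem_filter]
      have : (y ^ 2 + (oddHyp hk g f hm hd hs).h.eval x * y = (oddHyp hk g f hm hd hs).f.eval x) ↔
          y ^ 2 = f.eval x := by
        change (y ^ 2 + (0 : k[X]).eval x * y = f.eval x) ↔ _
        simp
      rw [this]
      simp
    rw [h5] at h4
    unfold chi
    have h6 := congrArg (fun z : ℤ => (z : ℝ)) h4
    push_cast at h6
    exact h6
  rw [Finset.sum_congr rfl fun x _ => h3 x, Finset.sum_add_distrib]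
  simp
  ring

/-- the model `y² + y = f(x)` in characteristic two -/
noncomputable def evenHyp (hk : (2 : k) = 0) (g : ℕ) (hg : 1 ≤ g) (f : k[X]) (hm : f.Monic)
    (hd : f.natDegree = 2 * g + 1) : Hyp k g where
  h := 1
  f := f
  deg_h := by simp
  deg_f := by omega
  smooth := by
    intro x y _
    left
    have h2k : (2 : AlgebraicClosure k) = 0 := by
      rw [← map_ofNat (algebraMap k (AlgebraicClosure k)) 2, hk, map_zero]
    rw [h2k]
    simp
  smooth_infty := by
    intro w _
    right
    have h1 : f.coeff (2 * g + 1) = 1 := by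
      rw [← hd]
      exact hm.coeff_natDegree
    rw [h1, Polynomial.coeff_one, if_neg (by omega)]
    simp

theorem evenHyp_numPoints (hk : (2 : k) = 0) (g : ℕ) (hg : 1 ≤ g) (f : k[X]) (hm : f.Monic)
    (hd : f.natDegree = 2 * g + 1) :
    ((evenHyp hk g hg f hm hd).numPoints : ℝ) = Fintype.card k + 1 + ∑ x, tau (f.eval x) := by
  unfold Hyp.numPoints
  rw [card_affine]
  have h1 : Nat.card {w : k // w ^ 2 + (evenHyp hk g hg f hm hd).h.coeff (g + 1) * w =
      (evenHyp hk g hg f hm hd).f.coeff (2 * g + 2)} = 1 := by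
    rw [Nat.card_eq_one_iff_unique]
    have h2 : f.coeff (2 * g + 2) = 0 := Polynomial.coeff_eq_zero_of_natDegree_lt (by omega)
    have h2' : (1 : k[X]).coeff (g + 1) = 0 := by
      rw [Polynomial.coeff_one, if_neg (by omega)]
    constructor
    · constructor
      rintro ⟨w, hw⟩ ⟨w', hw'⟩
      have e1 : w ^ 2 + (1 : k[X]).coeff (g + 1) * w = f.coeff (2 * g + 2) := hw
      have e2 : w' ^ 2 + (1 : k[X]).coeff (g + 1) * w' = f.coeff (2 * g + 2) := hw'
      rw [h2, h2'] at e1 e2
      simp at e1 e2
      rw [Subtype.mk.injEq, e1, e2]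
    · refine ⟨⟨0, ?_⟩⟩
      change (0 : k) ^ 2 + (1 : k[X]).coeff (g + 1) * 0 = f.coeff (2 * g + 2)
      rw [h2]
      simp
  rw [h1]
  push_cast
  have h3 : ∀ x : k, ((Finset.univ.filter fun y : k =>
      y ^ 2 + (evenHyp hk g hg f hm hd).h.eval x * y = (evenHyp hk g hg f hm hd).f.eval x).card : ℝ) =
      tau (f.eval x) + 1 := by
    intro x
    unfold tau
    have : ∀ y : k, (y ^ 2 + (evenHyp hk g hg f hm hd).h.eval x * y =
        (evenHyp hk g hg f hm hd).f.eval x) ↔ y ^ 2 + y = f.eval x := by
      intro y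
      change (y ^ 2 + (1 : k[X]).eval x * y = f.eval x) ↔ _
      simp
    rw [Finset.filter_congr fun y _ => this y]
    ring
  rw [Finset.sum_congr rfl fun x _ => h3 x, Finset.sum_add_distrib]
  simp
  ring

end Pool.Agent.H35.VQ
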