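import Pool.Agent.H35.VQ.Exact
import Pool.Agent.H35.VQ.Model

/-!
# All point counts up to `2 q + 2` for large genus
-/

namespace Pool.Agent.H35.VQ

open Finset Polynomial

set_option linter.unusedSectionVars false

variable {k : Type} [Field k] [Fintype k] [DecidableEq k]

/-- the model `y² = f(x)` in odd characteristic, `f` of degree `2 g + 1` or `2 g + 2` -/
noncomputable def oddHyp' (hk : (2 : k) ≠ 0) (g : ℕ) (f : k[X])
    (hd : f.natDegree ≤ 2 * g + 2) (hd' : 2 * g + 1 ≤ f.natDegree) (hs : Squarefree f) : Hyp k g where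
  h := 0
  f := f
  deg_h := by simp
  deg_f := hd
  smooth := by
    intro x y hxy
    by_contra hc
    push Not at hc
    obtain ⟨h1, h2⟩ := hc
    have h2k : (2 : AlgebraicClosure k) ≠ 0 := by
      intro h0
      apply hk
      apply (algebraMap k (AlgebraicClosure k)).injective
      rw [map_ofNat, h0, map_zero]
    simp only [map_zero, add_zero, mul_eq_zero, h2k, false_or] at h1
    simp only [map_zero, zero_mul] at h2
    rw [h1] at hxy
    simp only [map_zero, mul_zero, add_zero] at hxy
    have hsep : f.Separable := PerfectField.separable_iff_squarefree.2 hs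
    obtain ⟨a, b, hab⟩ := hsep
    have h3 := congrArg (aeval x) hab
    rw [map_add, map_mul, map_mul, ← h2, ← hxy] at h3
    simp at h3
  smooth_infty := by
    intro w hw
    by_contra hc
    push Not at hc
    obtain ⟨h1, h2⟩ := hc
    have h2k : (2 : AlgebraicClosure k) ≠ 0 := by
      intro h0
      apply hk
      apply (algebraMap k (AlgebraicClosure k)).injective
      rw [map_ofNat, h0, map_zero]
    simp only [Polynomial.coeff_zero, map_zero, add_zero, mul_eq_zero, h2k, false_or] at h1
    rw [h1] at hw h2
    simp only [Polynomial.coeff_zero, map_zero, mul_zero, add_zero] at hw h2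
    have h3 : f.coeff (2 * g + 2) = 0 := by
      have : algebraMap k (AlgebraicClosure k) (f.coeff (2 * g + 2)) = 0 := by
        rw [← hw]
        simp
      exact (map_eq_zero _).1 this
    have h4 : f.coeff (2 * g + 1) = 0 := (map_eq_zero _).1 h2.symm
    have h5 : f ≠ 0 := by
      intro h0
      rw [h0, Polynomial.natDegree_zero] at hd'
      omega
    rcases Nat.lt_or_ge f.natDegree (2 * g + 2) with h6 | h6
    · have h7 : f.natDegree = 2 * g + 1 := by omega
      rw [← h7] at h4
      exact h5 (Polynomial.leadingCoeff_eq_zero.1 h4)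
    · have h7 : f.natDegree = 2 * g + 2 := by omega
      rw [← h7] at h3
      exact h5 (Polynomial.leadingCoeff_eq_zero.1 h3)

theorem card_sqrt (hr : ringChar k ≠ 2) (a : k) :
    ((Finset.univ.filter fun y : k => y ^ 2 = a).card : ℝ) = chi a + 1 := by
  have h4 := quadraticChar_card_sqrts hr a
  have h5 : {y : k | y ^ 2 = a}.toFinset = Finset.univ.filter fun y : k => y ^ 2 = a := by
    ext y
    simp
  rw [h5] at h4
  unfold chi
  have h6 := congrArg (fun z : ℤ => (z : ℝ)) h4
  push_cast at h6
  exact h6

theorem oddHyp'_numPoints (hk : (2 : k) ≠ 0) (hr : ringChar k ≠ 2) (g : ℕ) (f : k[X])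
    (hd : f.natDegree ≤ 2 * g + 2) (hd' : 2 * g + 1 ≤ f.natDegree) (hs : Squarefree f) :
    ((oddHyp' hk g f hd hd' hs).numPoints : ℝ) =
      ∑ x, (chi (f.eval x) + 1) + (chi (f.coeff (2 * g + 2)) + 1) := by
  unfold Hyp.numPoints
  rw [card_affine]
  push_cast
  congr 1
  · refine Finset.sum_congr rfl fun x _ => ?_
    rw [← card_sqrt hr]
    congr 2
    refine Finset.filter_congr fun y _ => ?_
    change (y ^ 2 + (0 : k[X]).eval x * y = f.eval x) ↔ _
    simp
  · rw [← card_sqrt hr, Nat.card_eq_fintype_card, Fintype.card_subtype]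
    congr 2
    refine Finset.filter_congr fun y _ => ?_
    change (y ^ 2 + (0 : k[X]).coeff (g + 1) * y = f.coeff (2 * g + 2)) ↔ _
    simp

theorem chi_one : chi (1 : k) = 1 := by
  unfold chi
  simp

theorem exists_nonsq (hr : ringChar k ≠ 2) : ∃ u : k, u ≠ 0 ∧ chi u = -1 := by
  obtain ⟨u, hu⟩ := FiniteField.exists_nonsquare hr
  refine ⟨u, ?_, ?_⟩
  · rintro rfl
    exact hu (IsSquare.zero)
  · unfold chi
    rw [(quadraticChar_neg_one_iff_not_isSquare).2 hu]
    simp

theorem sum_pattern (T : Finset k) (F : k → ℝ) (u w : k) (v : k → k)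
    (hv : ∀ x, v x = if x ∈ T then u else w) (hu : F u = 2) (hw : F w = 0) :
    ∑ x, F (v x) = 2 * T.card := by
  have h1 : ∀ x, F (v x) = if x ∈ T then (2 : ℝ) else 0 := by
    intro x
    rw [hv x]
    split_ifs
    · exact hu
    · exact hw
  rw [Finset.sum_congr rfl fun x _ => h1 x, Finset.sum_ite_mem, Finset.univ_inter, Finset.sum_const,
    nsmul_eq_mul, mul_comm]

theorem exact_odd (hk : (2 : k) ≠ 0) (g : ℕ)
    (hg : Fintype.card k + 2 * ringChar k ≤ 2 * g + 1) (N : ℕ)
    (hN : N ≤ 2 * Fintype.card k + 2) : ∃ C : Hyp k g, C.numPoints = N := by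
  have hr : ringChar k ≠ 2 := by
    intro h
    apply hk
    have := ringChar.Nat.cast_ringChar (R := k)
    rw [h] at this
    exact_mod_cast this
  have hp : Fact (ringChar k).Prime := ⟨CharP.char_is_prime k (ringChar k)⟩
  obtain ⟨u, hu0, hu⟩ := exists_nonsq hr
  rcases Nat.even_or_odd' N with ⟨A, hA | hA⟩
  · -- even
    obtain ⟨T, _, hT⟩ := Finset.exists_subset_card_eq (s := (Finset.univ : Finset k))
      (n := min A (Fintype.card k)) (by rw [Finset.card_univ]; exact min_le_right _ _)
    obtain ⟨f, hfd, hfl, hfv, hfs⟩ := exists_prescribed (k := k) (ringChar k) (2 * g + 2) (by omega)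
      (if A = Fintype.card k + 1 then 1 else u) (by split_ifs; exacts [one_ne_zero, hu0])
      (fun x => if x ∈ T then 1 else u) (fun x => by
        change (if x ∈ T then (1 : k) else u) ≠ 0
        split_ifs
        exacts [one_ne_zero, hu0])
    refine ⟨oddHyp' hk g f (by omega) (by omega) hfs, ?_⟩
    have h1 := oddHyp'_numPoints hk hr g f (by omega) (by omega) hfs
    have h2 : f.coeff (2 * g + 2) = if A = Fintype.card k + 1 then 1 else u := by
      rw [← hfl, Polynomial.leadingCoeff, hfd]
    have h3 : ∑ x, (chi (f.eval x) + 1) = 2 * T.card := by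
      have := sum_pattern T (fun z => chi z + 1) 1 u (fun x => f.eval x) hfv
        (by rw [chi_one]; norm_num) (by rw [hu]; norm_num)
      exact this
    rw [h3, h2, hT] at h1
    have h4 : ((oddHyp' hk g f (by omega) (by omega) hfs).numPoints : ℝ) = N := by
      rw [h1, hA]
      split_ifs with h5
      · rw [chi_one, h5, min_eq_right (by omega)]
        push_cast
        ring
      · rw [hu, min_eq_left (by omega)]
        push_cast
        ring
    exact_mod_cast h4
  · obtain ⟨T, _, hT⟩ := Finset.exists_subset_card_eq (s := (Finset.univ : Finset k))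
      (n := A) (by rw [Finset.card_univ]; omega)
    obtain ⟨f, hfd, hfl, hfv, hfs⟩ := exists_prescribed (k := k) (ringChar k) (2 * g + 1) (by omega)
      1 one_ne_zero
      (fun x => if x ∈ T then 1 else u) (fun x => by
        change (if x ∈ T then (1 : k) else u) ≠ 0
        split_ifs
        exacts [one_ne_zero, hu0])
    refine ⟨oddHyp' hk g f (by omega) (by omega) hfs, ?_⟩
    have h1 := oddHyp'_numPoints hk hr g f (by omega) (by omega) hfs
    have h2 : f.coeff (2 * g + 2) = 0 := Polynomial.coeff_eq_zero_of_natDegree_lt (by omega)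
    have h3 : ∑ x, (chi (f.eval x) + 1) = 2 * T.card := by
      have := sum_pattern T (fun z => chi z + 1) 1 u (fun x => f.eval x) hfv
        (by rw [chi_one]; norm_num) (by rw [hu]; norm_num)
      exact this
    rw [h3, h2, hT, chi_zero] at h1
    have h4 : ((oddHyp' hk g f (by omega) (by omega) hfs).numPoints : ℝ) = N := by
      rw [h1, hA]
      push_cast
      ring
    exact_mod_cast h4

end Pool.Agent.H35.VQ
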