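import Pool.Agent.H35.VQ.Exact2

/-!
# All point counts up to `2 q + 2` for large genus, characteristic two
-/

namespace Pool.Agent.H35.VQ

open Finset Polynomial

set_option linter.unusedSectionVars false

variable {k : Type} [Field k] [Fintype k] [DecidableEq k]

theorem exists_irred (k : Type) [Field k] [Finite k] (p : ℕ) [Fact p.Prime] [CharP k p] (n : ℕ)
    (hn : n ≠ 0) : ∃ h : k[X], h.Monic ∧ Irreducible h ∧ h.natDegree = n := by
  have : NeZero n := ⟨hn⟩
  let pb := Field.powerBasisOfFiniteOfSeparable k (FiniteField.Extension k p n)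
  refine ⟨minpoly k pb.gen, minpoly.monic pb.isIntegral_gen, minpoly.irreducible pb.isIntegral_gen, ?_⟩
  rw [pb.natDegree_minpoly, ← pb.finrank, FiniteField.finrank_extension]

theorem char_of_two (h2 : (2 : k) = 0) : CharP k 2 :=
  CharTwo.of_one_ne_zero_of_two_eq_zero one_ne_zero h2

theorem even_card (h2 : (2 : k) = 0) : 2 ∣ Fintype.card k := by
  have := char_of_two h2
  have h1 := FiniteField.cast_card_eq_zero k
  exact (CharP.cast_eq_zero_iff k 2 _).1 h1

/-- the family of right hand sides in characteristic two -/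
noncomputable def fam (a : k[X]) (c' : k) (j : ℕ) (b : k × k) : k[X] :=
  a + (X ^ Fintype.card k - X) * (C c' * X ^ j + (C b.2 * X + C b.1)) ^ 2

theorem fam_eval (a : k[X]) (c' : k) (j : ℕ) (b : k × k) (x : k) :
    (fam a c' j b).eval x = a.eval x := by
  unfold fam
  rw [Polynomial.eval_add, Polynomial.eval_mul, eval_card_sub]
  ring

theorem fam_natDegree (a : k[X]) (c' : k) (j : ℕ) (hj : 2 ≤ j) (b : k × k)
    (ha : a.natDegree ≤ Fintype.card k - 1) :
    (fam a c' j b).natDegree ≤ Fintype.card k + 2 * j ∧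
      (fam a c' j b).coeff (Fintype.card k + 2 * j) = c' ^ 2 := by
  have hq1 : 1 < Fintype.card k := Fintype.one_lt_card
  have h1 : (X ^ Fintype.card k - X : k[X]).natDegree ≤ Fintype.card k := by
    rw [FiniteField.X_pow_card_sub_X_natDegree_eq k hq1]
  have h2 : (C c' * X ^ j + (C b.2 * X + C b.1) : k[X]).natDegree ≤ j := by
    refine (Polynomial.natDegree_add_le _ _).trans (max_le (Polynomial.natDegree_C_mul_X_pow_le _ _) ?_)
    exact (Polynomial.natDegree_linear_le).trans (by omega)
  have h3 : ((C c' * X ^ j + (C b.2 * X + C b.1) : k[X]) ^ 2).natDegree ≤ 2 * j := by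
    exact Polynomial.natDegree_pow_le_of_le 2 h2
  constructor
  · unfold fam
    refine (Polynomial.natDegree_add_le _ _).trans (max_le (by omega) ?_)
    exact Polynomial.natDegree_mul_le_of_le h1 h3
  · unfold fam
    rw [Polynomial.coeff_add, Polynomial.coeff_eq_zero_of_natDegree_lt (by omega : a.natDegree < _),
      zero_add, Polynomial.coeff_mul_add_eq_of_natDegree_le h1 h3]
    have h4 : (X ^ Fintype.card k - X : k[X]).coeff (Fintype.card k) = 1 := by
      rw [Polynomial.coeff_sub, Polynomial.coeff_X_pow_self, Polynomial.coeff_X_of_ne_one (by omega),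
        sub_zero]
    have h5 : ((C c' * X ^ j + (C b.2 * X + C b.1) : k[X]) ^ 2).coeff (2 * j) = c' ^ 2 := by
      rw [mul_comm 2 j, mul_comm j 2, Polynomial.coeff_pow_of_natDegree_le h2]
      congr 1
      have h6 : (C b.2 * X + C b.1 : k[X]).coeff j = 0 := by
        apply Polynomial.coeff_eq_zero_of_natDegree_lt
        exact (Polynomial.natDegree_linear_le).trans_lt (by omega)
      rw [Polynomial.coeff_add, h6, add_zero, Polynomial.coeff_C_mul, Polynomial.coeff_X_pow_self,
        mul_one]
    rw [h4, h5, one_mul]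

theorem not_all_bad (h2 : (2 : k) = 0) (g : ℕ) (hg : 1 ≤ g) (h : k[X]) (hm : h.Monic)
    (hirr : Irreducible h) (hd : h.natDegree = g + 1) (a : k[X]) (c' : k) (j : ℕ) :
    ∃ b : k × k, ∀ x y : AlgebraicClosure k, y ^ 2 + aeval x h * y = aeval x (fam a c' j b) →
      2 * y + aeval x h ≠ 0 ∨ aeval x (derivative h) * y ≠ aeval x (derivative (fam a c' j b)) := by
  classical
  have := char_of_two h2
  by_contra hcon
  push Not at hcon
  have h2K : (2 : AlgebraicClosure k) = 0 := by
    rw [← map_ofNat (algebraMap k (AlgebraicClosure k)) 2, h2, map_zero]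
  obtain ⟨θ, hθ⟩ := IsAlgClosed.exists_aeval_eq_zero (AlgebraicClosure k) h (by
    rw [Polynomial.degree_eq_natDegree hm.ne_zero, hd]
    exact_mod_cast Nat.succ_ne_zero g)
  have hθk : ∀ x : k, algebraMap k (AlgebraicClosure k) x ≠ θ := by
    intro x hx
    have h3 : h = minpoly k θ := minpoly.eq_of_irreducible_of_monic hirr hθ hm
    rw [← hx, minpoly.eq_X_sub_C] at h3
    rw [h3, Polynomial.natDegree_X_sub_C] at hd
    omega
  have key : ∀ b : k × k, (aeval θ (derivative (fam a c' j b))) ^ 2 =
      (aeval θ (derivative h)) ^ 2 * aeval θ (fam a c' j b) := by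
    intro b
    obtain ⟨x, y, h3, h4, h5⟩ := hcon b
    rw [h2K, zero_mul, zero_add] at h4
    have h6 : aeval x ((derivative (fam a c' j b)) ^ 2 - (derivative h) ^ 2 * fam a c' j b) = 0 := by
      rw [map_sub, map_pow, map_mul, map_pow, ← h5, ← h3, h4]
      ring
    have h7 : h = minpoly k x := minpoly.eq_of_irreducible_of_monic hirr h4 hm
    have h8 : h ∣ (derivative (fam a c' j b)) ^ 2 - (derivative h) ^ 2 * fam a c' j b := by
      rw [h7]
      exact minpoly.dvd k x (by rw [← h7]; exact h6)
    have h9 : aeval θ ((derivative (fam a c' j b)) ^ 2 - (derivative h) ^ 2 * fam a c' j b) = 0 := by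
      obtain ⟨r, hr⟩ := h8
      rw [hr, map_mul, hθ, zero_mul]
    rw [map_sub, map_pow, map_mul, map_pow, sub_eq_zero] at h9
    exact h9
  have key2 : ∀ b : k × k, (aeval θ (derivative a) - (aeval θ (C c' * X ^ j + (C b.2 * X + C b.1))) ^ 2) ^ 2 =
      (aeval θ (derivative h)) ^ 2 * (aeval θ a + (θ ^ Fintype.card k - θ) *
        (aeval θ (C c' * X ^ j + (C b.2 * X + C b.1))) ^ 2) := by
    intro b
    have h3 := key b
    have h4 : derivative (fam a c' j b) = derivative a - (C c' * X ^ j + (C b.2 * X + C b.1)) ^ 2 := by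
      unfold fam
      rw [Polynomial.derivative_add, Polynomial.derivative_mul, derivative_pow_char 2,
        derivative_card_sub]
      ring
    have h5 : aeval θ (fam a c' j b) = aeval θ a + (θ ^ Fintype.card k - θ) *
        (aeval θ (C c' * X ^ j + (C b.2 * X + C b.1))) ^ 2 := by
      unfold fam
      rw [map_add, map_mul, map_pow, map_sub, map_pow, Polynomial.aeval_X]
    have h6 : aeval θ (derivative (fam a c' j b)) =
        aeval θ (derivative a) - (aeval θ (C c' * X ^ j + (C b.2 * X + C b.1))) ^ 2 := by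
      rw [h4, map_sub, map_pow]
    rw [h6, h5] at h3
    exact h3
  have e1 := key2 (0, 0)
  have e2 := key2 (1, 0)
  have e3 := key2 (0, 1)
  simp only [map_add, map_mul, map_pow, Polynomial.aeval_X, Polynomial.aeval_C, map_zero, map_one,
    zero_mul, one_mul, add_zero, zero_add] at e1 e2 e3
  set A' := aeval θ (derivative a)
  set H := aeval θ (derivative h)
  set A := aeval θ a
  set w := θ ^ Fintype.card k - θ
  set σ := algebraMap k (AlgebraicClosure k) c' * θ ^ j
  have hθ0 : θ ≠ 0 := fun h0 => hθk 0 (by rw [map_zero, h0])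
  have hθ1 : θ + 1 ≠ 0 := fun h0 => hθk 1 (by
    rw [map_one]
    linear_combination -h0 + h2K)
  have gen : ∀ τ τ' : AlgebraicClosure k, (A' - τ) ^ 2 = H ^ 2 * (A + w * τ) →
      (A' - τ') ^ 2 = H ^ 2 * (A + w * τ') → τ - τ' ≠ 0 → τ + τ' = 2 * A' + H ^ 2 * w := by
    intro τ τ' g1 g2 g3
    apply mul_left_cancel₀ g3
    linear_combination g1 - g2
  have d1 : (σ + 1) ^ 2 - σ ^ 2 = 1 := by linear_combination σ * h2K
  have d2 : (σ + θ) ^ 2 - σ ^ 2 = θ ^ 2 := by linear_combination (σ * θ) * h2K
  have d3 : (σ + θ) ^ 2 - (σ + 1) ^ 2 = (θ + 1) ^ 2 := by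
    linear_combination (σ * θ - σ - θ - 1) * h2K
  have f1 := gen _ _ e2 e1 (by rw [d1]; exact one_ne_zero)
  have f2 := gen _ _ e3 e1 (by rw [d2]; exact pow_ne_zero 2 hθ0)
  have f3 : (θ + 1) ^ 2 = 0 := by rw [← d3]; linear_combination f2 - f1
  exact hθ1 (eq_zero_of_pow_eq_zero f3)

/-- the model in characteristic two with irreducible `h` of degree `g + 1` -/
theorem exists_hyp_two (h2 : (2 : k) = 0) (g : ℕ) (hg : Fintype.card k + 4 ≤ 2 * g + 2) (h : k[X])
    (hm : h.Monic) (hirr : Irreducible h) (hd : h.natDegree = g + 1) (v : k → k) (c : k) :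
    ∃ C : Hyp k g, C.h = h ∧ (∀ x, C.f.eval x = v x) ∧ C.f.coeff (2 * g + 2) = c := by
  have := char_of_two h2
  have hfact : Fact (Nat.Prime 2) := ⟨Nat.prime_two⟩
  have : PerfectRing k 2 := PerfectRing.ofFiniteOfIsReduced 2 k
  have hq1 : 1 < Fintype.card k := Fintype.one_lt_card
  obtain ⟨r, hr⟩ := even_card h2
  obtain ⟨a, ha, hav⟩ := exists_interp v
  set c' : k := (frobeniusEquiv k 2).symm c with hc'
  have hc'p : c' ^ 2 = c := frobeniusEquiv_symm_pow_p k 2 c
  obtain ⟨j, hj⟩ : ∃ j, j = g + 1 - r := ⟨_, rfl⟩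
  have hqj : Fintype.card k + 2 * j = 2 * g + 2 := by omega
  have hj2 : 2 ≤ j := by omega
  obtain ⟨b, hb⟩ := not_all_bad h2 g (by omega) h hm hirr hd a c' j
  have hdeg := fam_natDegree a c' j hj2 b ha
  rw [hqj, hc'p] at hdeg
  refine ⟨{ h := h, f := fam a c' j b, deg_h := hd.le, deg_f := hdeg.1, smooth := hb,
            smooth_infty := ?_ }, rfl, ?_, hdeg.2⟩
  · intro w _
    left
    have h2K : (2 : AlgebraicClosure k) = 0 := by
      rw [← map_ofNat (algebraMap k (AlgebraicClosure k)) 2, h2, map_zero]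
    have h3 : h.coeff (g + 1) = 1 := by
      rw [← hd]
      exact hm.coeff_natDegree
    rw [h2K, h3, map_one, zero_mul, zero_add]
    exact one_ne_zero
  · intro x
    rw [← hav x]
    exact fam_eval a c' j b x

theorem tau_zero (h2 : (2 : k) = 0) : tau (0 : k) = 1 := by
  unfold tau
  have h3 : (0 : k) ∈ (Finset.univ.filter fun y : k => y ^ 2 + y = 0) := by simp
  rcases card_fib h2 (0 : k) with h | h
  · rw [Finset.card_eq_zero] at h
    rw [h] at h3
    simp at h3
  · rw [h]
    norm_num

theorem exists_tau_neg (h2 : (2 : k) = 0) : ∃ u : k, tau u = -1 := by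
  by_contra hc
  push Not at hc
  have h3 : ∀ u : k, tau u = 1 := by
    intro u
    have h4 := tau_sq h2 u
    have h5 : (tau u - 1) * (tau u + 1) = 0 := by linear_combination h4
    rcases mul_eq_zero.1 h5 with h6 | h6
    · exact sub_eq_zero.1 h6
    · exact absurd (eq_neg_of_add_eq_zero_left h6) (hc u)
  have h4 := sum_tau (k := k)
  rw [Finset.sum_congr rfl fun a _ => h3 a, Finset.sum_const, Finset.card_univ, nsmul_eq_mul,
    mul_one] at h4
  have : (0 : ℝ) < Fintype.card k := by exact_mod_cast Fintype.card_pos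
  linarith

theorem card_twist (b a : k) (hb : b ≠ 0) :
    ((Finset.univ.filter fun y : k => y ^ 2 + b * y = b ^ 2 * a).card : ℝ) = tau a + 1 := by
  unfold tau
  rw [sub_add_cancel]
  congr 1
  refine Finset.card_bij (fun y _ => y / b) ?_ ?_ ?_
  · intro y hy
    rw [Finset.mem_filter] at hy ⊢
    refine ⟨Finset.mem_univ _, ?_⟩
    have h1 := hy.2
    field_simp
    linear_combination h1
  · intro y _ y' _ h
    field_simp at h
    exact h
  · intro z hz
    rw [Finset.mem_filter] at hz
    refine ⟨b * z, ?_, by field_simp⟩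
    rw [Finset.mem_filter]
    refine ⟨Finset.mem_univ _, ?_⟩
    linear_combination b ^ 2 * hz.2

theorem exact_even (h2 : (2 : k) = 0) (g : ℕ)
    (hg : Fintype.card k + 4 ≤ 2 * g + 1) (N : ℕ)
    (hN : N ≤ 2 * Fintype.card k + 2) : ∃ C : Hyp k g, C.numPoints = N := by
  have := char_of_two h2
  have hfact : Fact (Nat.Prime 2) := ⟨Nat.prime_two⟩
  obtain ⟨u, hu⟩ := exists_tau_neg h2
  rcases Nat.even_or_odd' N with ⟨A, hA | hA⟩
  · -- even
    obtain ⟨h, hm, hirr, hd⟩ := exists_irred k 2 (g + 1) (Nat.succ_ne_zero g)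
    have hroot : ∀ x : k, h.eval x ≠ 0 := by
      intro x hx
      have h3 := Polynomial.degree_eq_one_of_irreducible_of_root hirr (x := x) hx
      have h4 : h.natDegree = 1 := Polynomial.natDegree_eq_of_degree_eq_some (by rw [h3]; rfl)
      omega
    obtain ⟨T, _, hT⟩ := Finset.exists_subset_card_eq (s := (Finset.univ : Finset k))
      (n := min A (Fintype.card k)) (by rw [Finset.card_univ]; exact min_le_right _ _)
    obtain ⟨C, hCh, hCv, hCc⟩ := exists_hyp_two h2 g (by omega) h hm hirr hd
      (fun x => (h.eval x) ^ 2 * (if x ∈ T then 0 else u)) (if A = Fintype.card k + 1 then 0 else u)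
    refine ⟨C, ?_⟩
    have h4 : (C.numPoints : ℝ) = N := by
      unfold Hyp.numPoints
      rw [card_affine]
      push_cast
      have h5 : ∀ x : k, ((Finset.univ.filter fun y : k =>
          y ^ 2 + C.h.eval x * y = C.f.eval x).card : ℝ) = tau (if x ∈ T then 0 else u) + 1 := by
        intro x
        rw [← card_twist (h.eval x) _ (hroot x), hCh, hCv x]
      have h6 : (Nat.card {w : k // w ^ 2 + C.h.coeff (g + 1) * w = C.f.coeff (2 * g + 2)} : ℝ) =
          tau (if A = Fintype.card k + 1 then 0 else u) + 1 := by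
        rw [← card_twist (1 : k) _ one_ne_zero, Nat.card_eq_fintype_card, Fintype.card_subtype, hCc,
          hCh]
        have h7 : h.coeff (g + 1) = 1 := by
          rw [← hd]
          exact hm.coeff_natDegree
        rw [h7, one_pow, one_mul]
      rw [h6, Finset.sum_congr rfl fun x _ => h5 x]
      have h8 : ∑ x : k, (tau (if x ∈ T then 0 else u) + 1) = 2 * T.card :=
        sum_pattern T (fun z => tau z + 1) 0 u (fun x => if x ∈ T then 0 else u) (fun x => rfl)
          (by rw [tau_zero h2]; norm_num) (by rw [hu]; norm_num)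
      rw [h8, hT, hA]
      split_ifs with h5
      · rw [tau_zero h2, h5, min_eq_right (by omega)]
        push_cast
        ring
      · rw [hu, min_eq_left (by omega)]
        push_cast
        ring
    exact_mod_cast h4
  · obtain ⟨T, _, hT⟩ := Finset.exists_subset_card_eq (s := (Finset.univ : Finset k))
      (n := A) (by rw [Finset.card_univ]; omega)
    obtain ⟨a, ha, hav⟩ := exists_interp (fun x : k => if x ∈ T then 0 else u)
    have hq1 : 1 < Fintype.card k := Fintype.one_lt_card
    have hWm : ((X ^ Fintype.card k - X) * X ^ (2 * g + 1 - Fintype.card k) : k[X]).Monic := by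
      have h1 : (X ^ Fintype.card k - X : k[X]).Monic := by
        apply Polynomial.monic_X_pow_sub
        rw [Polynomial.degree_X]
        exact_mod_cast hq1
      exact h1.mul (Polynomial.monic_X_pow _)
    have hWd : ((X ^ Fintype.card k - X) * X ^ (2 * g + 1 - Fintype.card k) : k[X]).natDegree =
        2 * g + 1 := by
      have h1 : (X ^ Fintype.card k - X : k[X]).Monic := by
        apply Polynomial.monic_X_pow_sub
        rw [Polynomial.degree_X]
        exact_mod_cast hq1
      rw [h1.natDegree_mul (Polynomial.monic_X_pow _), Polynomial.natDegree_X_pow,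
        FiniteField.X_pow_card_sub_X_natDegree_eq k hq1]
      omega
    have hlt : a.degree < ((X ^ Fintype.card k - X) * X ^ (2 * g + 1 - Fintype.card k) : k[X]).degree := by
      apply Polynomial.degree_lt_degree
      rw [hWd]
      omega
    set f : k[X] := a + (X ^ Fintype.card k - X) * X ^ (2 * g + 1 - Fintype.card k) with hf
    have hfm : f.Monic := hWm.add_of_right hlt
    have hfd : f.natDegree = 2 * g + 1 :=
      (Polynomial.natDegree_eq_natDegree (Polynomial.degree_add_eq_right_of_degree_lt hlt)).trans hWd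
    have hfv : ∀ x, f.eval x = if x ∈ T then 0 else u := by
      intro x
      rw [hf, Polynomial.eval_add, Polynomial.eval_mul, eval_card_sub, hav]
      ring
    refine ⟨evenHyp h2 g (by omega) f hfm hfd, ?_⟩
    have h1 := evenHyp_numPoints h2 g (by omega) f hfm hfd
    have h3 : ∑ x, (tau (f.eval x) + 1) = 2 * T.card :=
      sum_pattern T (fun z => tau z + 1) 0 u (fun x => f.eval x) hfv
        (by rw [tau_zero h2]; norm_num) (by rw [hu]; norm_num)
    rw [Finset.sum_add_distrib] at h3
    have h4 : ((evenHyp h2 g (by omega) f hfm hfd).numPoints : ℝ) = N := by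
      rw [h1, hA]
      simp only [Finset.sum_const, Finset.card_univ, nsmul_eq_mul, mul_one] at h3
      rw [hT] at h3
      push_cast
      linarith
    exact_mod_cast h4

end Pool.Agent.H35.VQ
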