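import Pool.Agent.H35.VQ.Goppa

/-!
# All point counts up to `2 q + 2`, characteristic two, genus about `q / log q`
-/

namespace Pool.Agent.H35.VQ

open Finset Polynomial

set_option linter.unusedSectionVars false

variable {k : Type} [Field k] [Fintype k] [DecidableEq k]

/-- the polynomial with coefficients `c` -/
noncomputable def pc {e : ℕ} (c : Fin e → k) : k[X] := ∑ i : Fin e, C (c i) * X ^ (i : ℕ)

theorem pc_eval {e : ℕ} (c : Fin e → k) (x : k) : (pc c).eval x = pv c x := by
  unfold pc pv
  simp [Polynomial.eval_finsetSum]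

theorem pc_degree {e : ℕ} (c : Fin e → k) : (pc c).degree < e := Polynomial.degree_sum_fin_lt c

theorem pc_ne {e : ℕ} (c : Fin e → k) (hc : c ≠ 0) : pc c ≠ 0 := by
  intro h0
  apply hc
  funext i
  have h1 : (pc c).coeff i = c i := by
    rw [pc, Polynomial.finsetSum_coeff, Finset.sum_eq_single i]
    · simp
    · intro j _ hj
      rw [Polynomial.coeff_C_mul, Polynomial.coeff_X_pow, if_neg, mul_zero]
      intro h
      exact hj (Fin.ext h.symm)
    · intro h
      exact absurd (Finset.mem_univ i) h
  rw [← h1, h0]
  simp

theorem pc_natDegree {e : ℕ} (c : Fin e → k) (hc : c ≠ 0) : (pc c).natDegree < e :=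
  (Polynomial.natDegree_lt_iff_degree_lt (pc_ne c hc)).2 (pc_degree c)

/-- smoothness of `y² + h y = h s` -/
theorem smooth_hs (h2 : (2 : k) = 0) (h s : k[X]) (hm : h.Monic) (hirr : Irreducible h)
    (hs : ¬ h ∣ s) (x y : AlgebraicClosure k) (_hxy : y ^ 2 + aeval x h * y = aeval x (h * s)) :
    2 * y + aeval x h ≠ 0 ∨ aeval x (derivative h) * y ≠ aeval x (derivative (h * s)) := by
  by_contra hcon
  push Not at hcon
  obtain ⟨h3, h4⟩ := hcon
  have h2K : (2 : AlgebraicClosure k) = 0 := by
    rw [← map_ofNat (algebraMap k (AlgebraicClosure k)) 2, h2, map_zero]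
  rw [h2K, zero_mul, zero_add] at h3
  rw [map_mul, h3, zero_mul, zero_mul, add_zero] at _hxy
  have hy : y = 0 := eq_zero_of_pow_eq_zero _hxy
  rw [hy, mul_zero, Polynomial.derivative_mul, map_add, map_mul, map_mul, h3, zero_mul, add_zero] at h4
  have h7 : h = minpoly k x := minpoly.eq_of_irreducible_of_monic hirr h3 hm
  have hint : IsIntegral k x := Algebra.IsIntegral.isIntegral x
  rcases mul_eq_zero.1 h4.symm with h5 | h5
  · have hsep : h.Separable := PerfectField.separable_of_irreducible hirr
    obtain ⟨a, b, hab⟩ := hsep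
    have h6 := congrArg (aeval x) hab
    rw [map_add, map_mul, map_mul, h5, h3] at h6
    simp at h6
  · apply hs
    rw [h7]
    exact minpoly.dvd k x h5

theorem tau_mul_inv (h s : k[X]) (x : k) (hx : h.eval x ≠ 0) :
    ((Finset.univ.filter fun y : k => y ^ 2 + h.eval x * y = (h * s).eval x).card : ℝ) =
      tau (s.eval x * (h.eval x)⁻¹) + 1 := by
  rw [← card_twist (h.eval x) _ hx]
  congr 2
  refine Finset.filter_congr fun y _ => ?_
  have : (h * s).eval x = h.eval x ^ 2 * (s.eval x * (h.eval x)⁻¹) := by
    rw [Polynomial.eval_mul]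
    field_simp
  rw [this]

theorem root_free {h : k[X]} (hirr : Irreducible h) (hd : 2 ≤ h.natDegree) (x : k) : h.eval x ≠ 0 := by
  intro hx
  have h3 := Polynomial.degree_eq_one_of_irreducible_of_root hirr (x := x) hx
  have h4 : h.natDegree = 1 := Polynomial.natDegree_eq_of_degree_eq_some (by rw [h3]; rfl)
  omega

theorem exact_two (h2 : (2 : k) = 0) (g : ℕ)
    (hg : 2 ^ Fintype.card k ≤ Fintype.card k ^ (g - 1)) (N : ℕ)
    (hN : N ≤ 2 * Fintype.card k + 2) : ∃ C : Hyp k g, C.numPoints = N := by
  classical
  obtain ⟨u, hu⟩ := exists_tau_neg h2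
  have hq2 : 2 ≤ Fintype.card k := Fintype.one_lt_card
  have hg3 : 3 ≤ g := by
    by_contra hc
    have h3 : g - 1 ≤ 1 := by omega
    have h4 : Fintype.card k ^ (g - 1) ≤ Fintype.card k ^ 1 := Nat.pow_le_pow_right (by omega) h3
    have h5 : Fintype.card k < 2 ^ Fintype.card k := Nat.lt_two_pow_self
    rw [pow_one] at h4
    omega
  have hlt : ∀ e, g ≤ e → 2 ^ Fintype.card k < Fintype.card k ^ e := by
    intro e he
    refine hg.trans_lt ?_
    exact Nat.pow_lt_pow_right (by omega) (by omega)
  rcases Nat.even_or_odd' N with ⟨A, hA | hA⟩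
  · obtain ⟨T, _, hT⟩ := Finset.exists_subset_card_eq (s := (Finset.univ : Finset k))
      (n := min A (Fintype.card k)) (by rw [Finset.card_univ]; exact min_le_right _ _)
    obtain ⟨h, hm, hirr, hd, hS⟩ := exists_good h2 (g + 1) (hg.trans
      (Nat.pow_le_pow_right (by omega) (by omega)))
    have hroot : ∀ x : k, h.eval x ≠ 0 := root_free hirr (by omega)
    set v : k := if A = Fintype.card k + 1 then 0 else u with hv
    obtain ⟨c, hc0, hc⟩ := exists_pattern h2 (g + 1) (fun x => (h.eval x)⁻¹) hS
      (hlt _ (by omega)) (fun x => (if x ∈ T then 1 else -1) * tau v) (by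
        intro x
        rcases tau_eq h2 v with h' | h' <;> rw [h'] <;> split_ifs <;> norm_num)
    set s : k[X] := pc c + C v * h with hs
    have hsdvd : ¬ h ∣ s := by
      intro hdvd
      have h3 : h ∣ pc c := by
        have h4 : h ∣ C v * h := dvd_mul_left _ _
        have h5 : pc c = s - C v * h := by rw [hs]; ring
        rw [h5]
        exact dvd_sub hdvd h4
      have h4 := Polynomial.natDegree_le_of_dvd h3 (pc_ne c hc0)
      have h5 := pc_natDegree c hc0
      omega
    have hsdeg : s.natDegree ≤ g + 1 := by
      refine (Polynomial.natDegree_add_le _ _).trans (max_le (pc_natDegree c hc0).le ?_)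
      exact (Polynomial.natDegree_C_mul_le _ _).trans hd.le
    have hscoeff : s.coeff (g + 1) = v := by
      rw [hs, Polynomial.coeff_add, Polynomial.coeff_eq_zero_of_natDegree_lt (pc_natDegree c hc0),
        zero_add, Polynomial.coeff_C_mul]
      have : h.coeff (g + 1) = 1 := by
        rw [← hd]
        exact hm.coeff_natDegree
      rw [this, mul_one]
    have hfdeg : (h * s).natDegree ≤ 2 * g + 2 := by
      refine Polynomial.natDegree_mul_le.trans ?_
      omega
    have hfc : (h * s).coeff (2 * g + 2) = v := by
      rw [show 2 * g + 2 = (g + 1) + (g + 1) by ring,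
        Polynomial.coeff_mul_add_eq_of_natDegree_le hd.le hsdeg, hscoeff]
      have : h.coeff (g + 1) = 1 := by
        rw [← hd]
        exact hm.coeff_natDegree
      rw [this, one_mul]
    have h2K : (2 : AlgebraicClosure k) = 0 := by
      rw [← map_ofNat (algebraMap k (AlgebraicClosure k)) 2, h2, map_zero]
    have hhc : h.coeff (g + 1) = 1 := by
      rw [← hd]
      exact hm.coeff_natDegree
    let CC : Hyp k g :=
      { h := h
        f := h * s
        deg_h := hd.le
        deg_f := hfdeg
        smooth := smooth_hs h2 h s hm hirr hsdvd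
        smooth_infty := by
          intro w _
          left
          rw [h2K, hhc, map_one, zero_mul, zero_add]
          exact one_ne_zero }
    refine ⟨CC, ?_⟩
    have h4 : (CC.numPoints : ℝ) = N := by
      unfold Hyp.numPoints
      rw [card_affine]
      push_cast
      have h5 : ∀ x : k, ((Finset.univ.filter fun y : k =>
          y ^ 2 + CC.h.eval x * y = CC.f.eval x).card : ℝ) =
          (if x ∈ T then (1 : ℝ) else -1) + 1 := by
        intro x
        have h6 := tau_mul_inv h s x (hroot x)
        have h7 : s.eval x * (h.eval x)⁻¹ = pv c x * (h.eval x)⁻¹ + v := by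
          have := hroot x
          rw [hs, Polynomial.eval_add, Polynomial.eval_mul, Polynomial.eval_C, pc_eval]
          field_simp
        rw [h7, tau_add h2, hc x] at h6
        have h8 : (if x ∈ T then (1 : ℝ) else -1) * tau v * tau v + 1 =
            (if x ∈ T then (1 : ℝ) else -1) + 1 := by
          have := tau_sq h2 v
          linear_combination (if x ∈ T then (1 : ℝ) else -1) * this
        rw [h8] at h6
        exact h6
      have h6 : (Nat.card {w : k // w ^ 2 + CC.h.coeff (g + 1) * w = CC.f.coeff (2 * g + 2)} : ℝ) =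
          tau v + 1 := by
        rw [← card_twist (1 : k) _ one_ne_zero, Nat.card_eq_fintype_card, Fintype.card_subtype]
        congr 2
        refine Finset.filter_congr fun y _ => ?_
        change (y ^ 2 + h.coeff (g + 1) * y = (h * s).coeff (2 * g + 2)) ↔ _
        rw [hfc, hhc, one_pow, one_mul, one_mul]
      rw [h6, Finset.sum_congr rfl fun x _ => h5 x]
      have h8 : ∑ x : k, ((if x ∈ T then (1 : ℝ) else -1) + 1) = 2 * T.card := by
        have h9 : ∀ x : k, (if x ∈ T then (1 : ℝ) else -1) + 1 = if x ∈ T then 2 else 0 := by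
          intro x
          split_ifs <;> norm_num
        rw [Finset.sum_congr rfl fun x _ => h9 x, Finset.sum_ite_mem, Finset.univ_inter,
          Finset.sum_const, nsmul_eq_mul, mul_comm]
      rw [h8, hT, hA, hv]
      split_ifs with h5
      · rw [tau_zero h2, h5, min_eq_right (by omega)]
        push_cast
        ring
      · rw [hu, min_eq_left (by omega)]
        push_cast
        ring
    exact_mod_cast h4
  · obtain ⟨T, _, hT⟩ := Finset.exists_subset_card_eq (s := (Finset.univ : Finset k))
      (n := A) (by rw [Finset.card_univ]; omega)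
    obtain ⟨h, hm, hirr, hd, hS⟩ := exists_good h2 g hg
    have hroot : ∀ x : k, h.eval x ≠ 0 := root_free hirr (by omega)
    obtain ⟨c, hc0, hc⟩ := exists_pattern h2 g (fun x => (h.eval x)⁻¹) hS
      (hlt _ le_rfl) (fun x => (if x ∈ T then 1 else -1) * tau x) (by
        intro x
        rcases tau_eq h2 x with h' | h' <;> rw [h'] <;> split_ifs <;> norm_num)
    set s : k[X] := pc c + X * h with hs
    have hsdvd : ¬ h ∣ s := by
      intro hdvd
      have h3 : h ∣ pc c := by
        have h4 : h ∣ X * h := dvd_mul_left _ _
        have h5 : pc c = s - X * h := by rw [hs]; ring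
        rw [h5]
        exact dvd_sub hdvd h4
      have h4 := Polynomial.natDegree_le_of_dvd h3 (pc_ne c hc0)
      have h5 := pc_natDegree c hc0
      omega
    have hsdeg : s.natDegree ≤ g + 1 := by
      refine (Polynomial.natDegree_add_le _ _).trans (max_le ?_ ?_)
      · have := pc_natDegree c hc0
        omega
      · refine Polynomial.natDegree_mul_le.trans ?_
        rw [Polynomial.natDegree_X]
        omega
    have hscoeff : s.coeff (g + 1) = 1 := by
      have h3 := pc_natDegree c hc0
      rw [hs, Polynomial.coeff_add, Polynomial.coeff_eq_zero_of_natDegree_lt (by omega),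
        zero_add, Polynomial.coeff_X_mul]
      rw [← hd]
      exact hm.coeff_natDegree
    have hfdeg : (h * s).natDegree ≤ 2 * g + 1 := by
      refine Polynomial.natDegree_mul_le.trans ?_
      omega
    have hfc : (h * s).coeff (2 * g + 1) = 1 := by
      rw [show 2 * g + 1 = g + (g + 1) by ring,
        Polynomial.coeff_mul_add_eq_of_natDegree_le hd.le hsdeg, hscoeff]
      have : h.coeff g = 1 := by
        rw [← hd]
        exact hm.coeff_natDegree
      rw [this, one_mul]
    have hhc : h.coeff (g + 1) = 0 := Polynomial.coeff_eq_zero_of_natDegree_lt (by omega)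
    have hfc' : (h * s).coeff (2 * g + 2) = 0 := Polynomial.coeff_eq_zero_of_natDegree_lt (by omega)
    let CC : Hyp k g :=
      { h := h
        f := h * s
        deg_h := by omega
        deg_f := by omega
        smooth := smooth_hs h2 h s hm hirr hsdvd
        smooth_infty := by
          intro w hw
          right
          rw [hhc, hfc', map_zero, zero_mul, add_zero] at hw
          have hw0 : w = 0 := eq_zero_of_pow_eq_zero hw
          rw [hw0, hfc, mul_zero, map_one]
          exact zero_ne_one }
    refine ⟨CC, ?_⟩
    have h4 : (CC.numPoints : ℝ) = N := by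
      unfold Hyp.numPoints
      rw [card_affine]
      push_cast
      have h5 : ∀ x : k, ((Finset.univ.filter fun y : k =>
          y ^ 2 + CC.h.eval x * y = CC.f.eval x).card : ℝ) =
          (if x ∈ T then (1 : ℝ) else -1) + 1 := by
        intro x
        have h6 := tau_mul_inv h s x (hroot x)
        have h7 : s.eval x * (h.eval x)⁻¹ = pv c x * (h.eval x)⁻¹ + x := by
          have := hroot x
          rw [hs, Polynomial.eval_add, Polynomial.eval_mul, Polynomial.eval_X, pc_eval]
          field_simp
        rw [h7, tau_add h2, hc x] at h6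
        have h8 : (if x ∈ T then (1 : ℝ) else -1) * tau x * tau x + 1 =
            (if x ∈ T then (1 : ℝ) else -1) + 1 := by
          have := tau_sq h2 x
          linear_combination (if x ∈ T then (1 : ℝ) else -1) * this
        rw [h8] at h6
        exact h6
      have h6 : Nat.card {w : k // w ^ 2 + CC.h.coeff (g + 1) * w = CC.f.coeff (2 * g + 2)} = 1 := by
        rw [Nat.card_eq_one_iff_unique]
        constructor
        · constructor
          rintro ⟨w, hw⟩ ⟨w', hw'⟩
          have e1 : w ^ 2 + h.coeff (g + 1) * w = (h * s).coeff (2 * g + 2) := hw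
          have e2 : w' ^ 2 + h.coeff (g + 1) * w' = (h * s).coeff (2 * g + 2) := hw'
          rw [hhc, hfc', zero_mul, add_zero] at e1 e2
          rw [Subtype.mk.injEq, eq_zero_of_pow_eq_zero e1, eq_zero_of_pow_eq_zero e2]
        · refine ⟨⟨0, ?_⟩⟩
          change (0 : k) ^ 2 + h.coeff (g + 1) * 0 = (h * s).coeff (2 * g + 2)
          rw [hhc, hfc']
          ring
      rw [h6, Finset.sum_congr rfl fun x _ => h5 x]
      have h8 : ∑ x : k, ((if x ∈ T then (1 : ℝ) else -1) + 1) = 2 * T.card := by
        have h9 : ∀ x : k, (if x ∈ T then (1 : ℝ) else -1) + 1 = if x ∈ T then 2 else 0 := by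
          intro x
          split_ifs <;> norm_num
        rw [Finset.sum_congr rfl fun x _ => h9 x, Finset.sum_ite_mem, Finset.univ_inter,
          Finset.sum_const, nsmul_eq_mul, mul_comm]
      rw [h8, hT, hA]
      push_cast
      ring
    exact_mod_cast h4

end Pool.Agent.H35.VQ
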