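import Pool.Agent.H35.VQ.Exact3

/-!
# All sign patterns in characteristic two
-/

namespace Pool.Agent.H35.VQ

open Finset Polynomial

set_option linter.unusedSectionVars false

variable {k : Type} [Field k] [Fintype k] [DecidableEq k]

/-- the additive map `y ↦ y² + y` -/
def wp (h2 : (2 : k) = 0) : k →+ k where
  toFun y := y ^ 2 + y
  map_zero' := by simp
  map_add' a b := by linear_combination (a * b) * h2

theorem tau_eq (h2 : (2 : k) = 0) (a : k) : tau a = 1 ∨ tau a = -1 := by
  have h4 := tau_sq h2 a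
  have h5 : (tau a - 1) * (tau a + 1) = 0 := by linear_combination h4
  rcases mul_eq_zero.1 h5 with h6 | h6
  · exact Or.inl (sub_eq_zero.1 h6)
  · exact Or.inr (eq_neg_of_add_eq_zero_left h6)

theorem mem_range_wp (h2 : (2 : k) = 0) (a : k) : a ∈ (wp h2).range ↔ tau a = 1 := by
  constructor
  · rintro ⟨y, hy⟩
    have h3 : y ^ 2 + y = a := hy
    unfold tau
    rcases card_fib h2 a with h | h
    · exfalso
      rw [Finset.card_eq_zero, Finset.filter_eq_empty_iff] at h
      exact h (Finset.mem_univ y) h3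
    · rw [h]
      norm_num
  · intro h
    by_contra hc
    have h3 : (Finset.univ.filter fun y : k => y ^ 2 + y = a).card = 0 := by
      rw [Finset.card_eq_zero, Finset.filter_eq_empty_iff]
      intro y _ hy
      exact hc ⟨y, hy⟩
    unfold tau at h
    rw [h3] at h
    norm_num at h

theorem index_wp (h2 : (2 : k) = 0) : (wp h2).range.index = 2 := by
  classical
  have h3 : 2 * (Finset.univ.filter fun a : k => tau a = 1).card = Fintype.card k := by
    have h4 := sum_tau (k := k)
    have h5 : ∀ a : k, tau a = 2 * (if tau a = 1 then (1 : ℝ) else 0) - 1 := by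
      intro a
      rcases tau_eq h2 a with h | h
      · rw [h]
        norm_num
      · rw [h]
        norm_num
    rw [Finset.sum_congr rfl fun a _ => h5 a, Finset.sum_sub_distrib, ← Finset.mul_sum,
      Finset.sum_boole, Finset.sum_const, Finset.card_univ, nsmul_eq_mul, mul_one, sub_eq_zero] at h4
    exact_mod_cast h4
  have h6 : Nat.card (wp h2).range = (Finset.univ.filter fun a : k => tau a = 1).card := by
    rw [← Fintype.card_subtype, ← Nat.card_eq_fintype_card]
    exact Nat.card_congr (Equiv.subtypeEquivRight fun a => mem_range_wp h2 a)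
  have h7 := (wp h2).range.card_mul_index
  rw [h6, Nat.card_eq_fintype_card, ← h3] at h7
  have h8 : 0 < (Finset.univ.filter fun a : k => tau a = 1).card := by
    rw [Finset.card_pos]
    exact ⟨0, by rw [Finset.mem_filter]; exact ⟨Finset.mem_univ _, tau_zero h2⟩⟩
  have h9 : (Finset.univ.filter fun a : k => tau a = 1).card * (wp h2).range.index =
      (Finset.univ.filter fun a : k => tau a = 1).card * 2 := by
    rw [h7, mul_comm]
  exact Nat.eq_of_mul_eq_mul_left h8 h9

theorem tau_add (h2 : (2 : k) = 0) (a b : k) : tau (a + b) = tau a * tau b := by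
  have h := AddSubgroup.add_mem_iff_of_index_two (index_wp h2) (a := a) (b := b)
  rw [mem_range_wp, mem_range_wp, mem_range_wp] at h
  rcases tau_eq h2 a with ha | ha <;> rcases tau_eq h2 b with hb | hb <;>
    rcases tau_eq h2 (a + b) with hab | hab <;> rw [ha, hb, hab] at h ⊢ <;>
    first | (exfalso; norm_num at h; done) | norm_num

theorem tau_sum (h2 : (2 : k) = 0) (S : Finset k) (F : k → k) :
    tau (∑ x ∈ S, F x) = ∏ x ∈ S, tau (F x) := by
  classical
  induction S using Finset.induction_on with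
  | empty => rw [Finset.sum_empty, Finset.prod_empty, tau_zero h2]
  | insert x S hx ih => rw [Finset.sum_insert hx, Finset.prod_insert hx, tau_add h2, ih]

/-- the value of the polynomial with coefficients `c` -/
def pv {e : ℕ} (c : Fin e → k) (x : k) : k := ∑ i : Fin e, c i * x ^ (i : ℕ)

theorem pv_add {e : ℕ} (c d : Fin e → k) (x : k) : pv (c + d) x = pv c x + pv d x := by
  unfold pv
  rw [← Finset.sum_add_distrib]
  refine Finset.sum_congr rfl fun i _ => ?_
  rw [Pi.add_apply]
  ring

theorem exists_pattern (h2 : (2 : k) = 0) (e : ℕ) (H : k → k)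
    (hS : ∀ S : Finset k, S.Nonempty → ∃ i : Fin e, ∑ x ∈ S, x ^ (i : ℕ) * H x ≠ 0)
    (he : 2 ^ Fintype.card k < Fintype.card k ^ e) (ε : k → ℝ) (hε : ∀ x, ε x = 1 ∨ ε x = -1) :
    ∃ c : Fin e → k, c ≠ 0 ∧ ∀ x, tau (pv c x * H x) = ε x := by
  classical
  obtain ⟨u, hu⟩ := exists_tau_neg h2
  have key : ∀ S : Finset k, S.Nonempty → ∑ c : Fin e → k, tau (∑ x ∈ S, pv c x * H x) = 0 := by
    intro S hSn
    obtain ⟨i, hi⟩ := hS S hSn
    set μ := ∑ x ∈ S, x ^ (i : ℕ) * H x with hμ
    set d : Fin e → k := Pi.single i (u / μ) with hd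
    have h3 : ∀ x, pv d x = (u / μ) * x ^ (i : ℕ) := by
      intro x
      unfold pv
      rw [Finset.sum_eq_single i]
      · rw [hd, Pi.single_eq_same]
      · intro j _ hj
        rw [hd, Pi.single_eq_of_ne hj, zero_mul]
      · intro h
        exact absurd (Finset.mem_univ i) h
    have h4 : ∑ x ∈ S, pv d x * H x = u := by
      rw [Finset.sum_congr rfl fun x _ => show pv d x * H x = (u / μ) * (x ^ (i : ℕ) * H x) by
        rw [h3 x]; ring, ← Finset.mul_sum, ← hμ]
      field_simp
    have h5 : ∑ c : Fin e → k, tau (∑ x ∈ S, pv c x * H x) =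
        ∑ c : Fin e → k, tau (∑ x ∈ S, pv (c + d) x * H x) :=
      (Fintype.sum_equiv (Equiv.addRight d) _ _ fun c => rfl).symm
    have h6 : ∀ c : Fin e → k, tau (∑ x ∈ S, pv (c + d) x * H x) =
        -tau (∑ x ∈ S, pv c x * H x) := by
      intro c
      have h7 : ∑ x ∈ S, pv (c + d) x * H x = ∑ x ∈ S, pv c x * H x + u := by
        rw [← h4, ← Finset.sum_add_distrib]
        refine Finset.sum_congr rfl fun x _ => ?_
        rw [pv_add]
        ring
      rw [h7, tau_add h2, hu]
      ring
    rw [Finset.sum_congr rfl fun c _ => h6 c, Finset.sum_neg_distrib] at h5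
    linarith
  have hq0 : (0 : ℝ) < Fintype.card k := by exact_mod_cast Fintype.card_pos
  have total : ∑ c : Fin e → k, ∏ x : k, (1 + ε x * tau (pv c x * H x)) =
      (Fintype.card k : ℝ) ^ e := by
    have h3 : ∀ c : Fin e → k, ∏ x : k, (1 + ε x * tau (pv c x * H x)) =
        ∑ S : Finset k, (∏ x ∈ S, ε x) * tau (∑ x ∈ S, pv c x * H x) := by
      intro c
      rw [Finset.prod_one_add]
      rw [Finset.powerset_univ]
      refine Finset.sum_congr rfl fun S _ => ?_
      rw [Finset.prod_mul_distrib, tau_sum h2]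
    rw [Finset.sum_congr rfl fun c _ => h3 c, Finset.sum_comm, Finset.sum_eq_single ∅]
    · simp [tau_zero h2]
    · intro S _ hS0
      rw [← Finset.mul_sum, key S (Finset.nonempty_iff_ne_empty.2 hS0), mul_zero]
    · intro h
      exact absurd (Finset.mem_univ _) h
  by_contra hcon
  push Not at hcon
  have h3 : ∀ c : Fin e → k, c ≠ 0 → ∏ x : k, (1 + ε x * tau (pv c x * H x)) = 0 := by
    intro c hc
    obtain ⟨x, hx⟩ := hcon c hc
    apply Finset.prod_eq_zero (Finset.mem_univ x)
    rcases tau_eq h2 (pv c x * H x) with h | h <;> rcases hε x with h' | h' <;>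
      rw [h, h'] at hx ⊢ <;> first | (exfalso; exact hx rfl) | norm_num
  rw [Finset.sum_eq_single (0 : Fin e → k) (fun c _ hc => h3 c hc)
    (fun h => absurd (Finset.mem_univ _) h)] at total
  have h4 : ∏ x : k, (1 + ε x * tau (pv (0 : Fin e → k) x * H x)) ≤ 2 ^ Fintype.card k := by
    rw [← Finset.card_univ, ← Finset.prod_const]
    refine Finset.prod_le_prod (fun x _ => ?_) (fun x _ => ?_) <;>
    rcases tau_eq h2 (pv (0 : Fin e → k) x * H x) with h | h <;> rcases hε x with h' | h' <;>
      rw [h, h'] <;> norm_num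
  rw [total] at h4
  have h5 : (Fintype.card k) ^ e ≤ 2 ^ Fintype.card k := by exact_mod_cast h4
  omega

/-- the polynomial vanishing on `S` -/
noncomputable def mS (S : Finset k) : k[X] := ∏ x ∈ S, (X - C x)

theorem mS_natDegree (S : Finset k) : (mS S).natDegree = S.card := by
  unfold mS
  rw [Polynomial.natDegree_prod_of_monic _ _ (fun x _ => Polynomial.monic_X_sub_C x)]
  simp

theorem derivative_mS (S : Finset k) :
    derivative (mS S) = ∑ x ∈ S, ∏ y ∈ S.erase x, (X - C y) := by
  unfold mS
  rw [Polynomial.derivative_prod_finset]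
  refine Finset.sum_congr rfl fun x _ => ?_
  simp

theorem derivative_mS_ne (S : Finset k) (hS : S.Nonempty) : derivative (mS S) ≠ 0 := by
  obtain ⟨x, hx⟩ := hS
  intro h0
  have h1 : (derivative (mS S)).eval x = ∏ y ∈ S.erase x, (x - y) := by
    rw [derivative_mS, Polynomial.eval_finsetSum, Finset.sum_eq_single x]
    · rw [Polynomial.eval_prod]
      simp
    · intro z hz hzx
      rw [Polynomial.eval_prod]
      apply Finset.prod_eq_zero (i := x)
      · rw [Finset.mem_erase]
        exact ⟨fun h => hzx h.symm, hx⟩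
      · simp
    · intro h
      exact absurd hx h
  rw [h0, Polynomial.eval_zero] at h1
  have h2 := Finset.prod_eq_zero_iff.1 h1.symm
  obtain ⟨y, hy, hxy⟩ := h2
  rw [Finset.mem_erase] at hy
  exact hy.1 (sub_eq_zero.1 hxy).symm

theorem aeval_mS {K : Type} [Field K] [Algebra k K] (S : Finset k) (θ : K) :
    aeval θ (mS S) = ∏ x ∈ S, (θ - algebraMap k K x) := by
  unfold mS
  rw [map_prod]
  simp

theorem aeval_derivative_mS {K : Type} [Field K] [Algebra k K] (S : Finset k) (θ : K)
    (hθ : ∀ x : k, θ - algebraMap k K x ≠ 0) :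
    aeval θ (derivative (mS S)) = aeval θ (mS S) * ∑ x ∈ S, (θ - algebraMap k K x)⁻¹ := by
  rw [derivative_mS, map_sum, Finset.mul_sum, aeval_mS]
  refine Finset.sum_congr rfl fun x hx => ?_
  rw [map_prod, ← Finset.mul_prod_erase S _ hx]
  have h1 := hθ x
  simp only [map_sub, Polynomial.aeval_X, Polynomial.aeval_C]
  field_simp

/-- the functional of a nonempty set does not vanish -/
theorem goppa {K : Type} [Field K] [Algebra k K] (θ : K) (h : k[X]) (hm : h.Monic) (e : ℕ)
    (hd : h.natDegree = e) (hθ : aeval θ h = 0) (hθk : ∀ x : k, θ - algebraMap k K x ≠ 0)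
    (hroot : ∀ x : k, h.eval x ≠ 0)
    (S : Finset k) (hS : aeval θ (derivative (mS S)) ≠ 0) :
    ∃ i : Fin e, ∑ x ∈ S, x ^ (i : ℕ) * (h.eval x)⁻¹ ≠ 0 := by
  by_contra hcon
  push Not at hcon
  -- the quotient of h by X - θ
  set H : K[X] := h.map (algebraMap k K) with hH
  have hHθ : H.IsRoot θ := by
    rw [Polynomial.IsRoot, hH, Polynomial.eval_map_algebraMap]
    exact hθ
  obtain ⟨s, hs⟩ := Polynomial.dvd_iff_isRoot.2 hHθ
  have hHm : H.Monic := hm.map _
  have hs0 : s ≠ 0 := by
    rintro rfl
    rw [mul_zero] at hs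
    exact hHm.ne_zero hs
  have hsd : s.natDegree < e := by
    have h1 : H.natDegree = e := by
      rw [hH, Polynomial.natDegree_map, hd]
    rw [hs, Polynomial.natDegree_mul (Polynomial.X_sub_C_ne_zero θ) hs0,
      Polynomial.natDegree_X_sub_C] at h1
    omega
  have hval : ∀ x : k, s.eval (algebraMap k K x) * algebraMap k K ((h.eval x)⁻¹) =
      -(θ - algebraMap k K x)⁻¹ := by
    intro x
    have h1 := congrArg (fun p => p.eval (algebraMap k K x)) hs
    simp only [hH, Polynomial.eval_map_algebraMap, Polynomial.eval_mul, Polynomial.eval_sub,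
      Polynomial.eval_X, Polynomial.eval_C, Polynomial.aeval_algebraMap_apply_eq_algebraMap_eval] at h1
    have h2 := hθk x
    have h3 : algebraMap k K (h.eval x) ≠ 0 := by
      rw [Ne, map_eq_zero]
      exact hroot x
    rw [map_inv₀]
    field_simp
    rw [h1]
    ring
  have hzero : ∑ x ∈ S, (θ - algebraMap k K x)⁻¹ = 0 := by
    have h1 : ∑ x ∈ S, (θ - algebraMap k K x)⁻¹ =
        -∑ x ∈ S, s.eval (algebraMap k K x) * algebraMap k K ((h.eval x)⁻¹) := by
      rw [← Finset.sum_neg_distrib]
      refine Finset.sum_congr rfl fun x _ => ?_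
      rw [hval x, neg_neg]
    rw [h1, neg_eq_zero]
    have h2 : ∀ x : k, s.eval (algebraMap k K x) * algebraMap k K ((h.eval x)⁻¹) =
        ∑ i : Fin e, s.coeff i * algebraMap k K (x ^ (i : ℕ) * (h.eval x)⁻¹) := by
      intro x
      rw [Polynomial.eval_eq_sum_range' hsd, Finset.sum_mul, Finset.sum_range]
      refine Finset.sum_congr rfl fun i _ => ?_
      rw [map_mul, map_pow]
      ring
    rw [Finset.sum_congr rfl fun x _ => h2 x, Finset.sum_comm]
    refine Finset.sum_eq_zero fun i _ => ?_
    rw [← Finset.mul_sum, ← map_sum, hcon i, map_zero, mul_zero]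
  rw [aeval_derivative_mS S θ hθk, hzero, mul_zero] at hS
  exact hS rfl

theorem geom_bound (q : ℕ) (hq : 2 ≤ q) (n : ℕ) (hn : 1 ≤ n) :
    ∑ d ∈ Icc 1 n, q ^ d + 2 ≤ 2 * q ^ n := by
  induction n, hn using Nat.le_induction with
  | base => simp; omega
  | succ n hn ih =>
    rw [Finset.sum_Icc_succ_top (by omega)]
    have h1 : 2 * q ^ n ≤ q ^ (n + 1) := by
      rw [pow_succ, mul_comm 2]
      exact Nat.mul_le_mul_left _ hq
    omega

theorem exists_good (h2 : (2 : k) = 0) (e : ℕ) (he : 2 ^ Fintype.card k ≤ Fintype.card k ^ (e - 1)) :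
    ∃ h : k[X], h.Monic ∧ Irreducible h ∧ h.natDegree = e ∧
      ∀ S : Finset k, S.Nonempty → ∃ i : Fin e, ∑ x ∈ S, x ^ (i : ℕ) * (h.eval x)⁻¹ ≠ 0 := by
  classical
  have := char_of_two h2
  have hfact : Fact (Nat.Prime 2) := ⟨Nat.prime_two⟩
  set q := Fintype.card k with hq
  have hq2 : 2 ≤ q := Fintype.one_lt_card
  have he3 : 3 ≤ e := by
    by_contra hc
    have h3 : e - 1 ≤ 1 := by omega
    have h4 : q ^ (e - 1) ≤ q ^ 1 := Nat.pow_le_pow_right (by omega) h3
    have h5 : q < 2 ^ q := Nat.lt_two_pow_self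
    rw [pow_one] at h4
    omega
  have hne : NeZero e := ⟨by omega⟩
  set K := FiniteField.Extension k 2 e with hK
  have : Fintype K := Fintype.ofFinite K
  have hKc : Fintype.card K = q ^ e := by
    have := FiniteField.natCard_extension k 2 e
    rw [Nat.card_eq_fintype_card, Nat.card_eq_fintype_card] at this
    rw [hq, ← this]
  set B1 : Finset K := (Finset.univ.filter fun S : Finset k => S.Nonempty).biUnion
    fun S => ((derivative (mS S)).aroots K).toFinset with hB1
  set B2 : Finset K := (Icc 1 (e / 2)).biUnion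
    fun d => ((X ^ q ^ d - X : k[X]).aroots K).toFinset with hB2
  have hB1c : B1.card ≤ (2 ^ q - 1) * (q - 1) := by
    refine Finset.card_biUnion_le.trans ?_
    have h3 : (Finset.univ.filter fun S : Finset k => S.Nonempty).card = 2 ^ q - 1 := by
      have h4 : (Finset.univ.filter fun S : Finset k => S.Nonempty) = Finset.univ.erase ∅ := by
        ext S
        simp [Finset.nonempty_iff_ne_empty]
      rw [h4, Finset.card_erase_of_mem (Finset.mem_univ _), Finset.card_univ, Fintype.card_finset]
    rw [← h3, ← smul_eq_mul]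
    refine Finset.sum_le_card_nsmul _ _ _ fun S hS => ?_
    refine (Multiset.toFinset_card_le _).trans ?_
    refine (Polynomial.card_roots' _).trans ?_
    rw [Polynomial.natDegree_map]
    refine (Polynomial.natDegree_derivative_le _).trans ?_
    rw [mS_natDegree]
    have : S.card ≤ q := Finset.card_le_univ S
    omega
  have hB2c : B2.card + 2 ≤ 2 * q ^ (e / 2) := by
    refine le_trans ?_ (geom_bound q hq2 (e / 2) (by omega))
    refine Nat.add_le_add_right (Finset.card_biUnion_le.trans ?_) 2
    refine Finset.sum_le_sum fun d hd => ?_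
    rw [Finset.mem_Icc] at hd
    refine (Multiset.toFinset_card_le _).trans ?_
    refine (Polynomial.card_roots' _).trans ?_
    rw [Polynomial.natDegree_map]
    have h3 : 1 < q ^ d := Nat.one_lt_pow (by omega) (by omega)
    rw [FiniteField.X_pow_card_sub_X_natDegree_eq k h3]
  have hlt : (B1 ∪ B2).card < Fintype.card K := by
    refine (Finset.card_union_le _ _).trans_lt ?_
    rw [hKc]
    have h3 : q ^ e = q ^ (e - 1) * q := by
      rw [← pow_succ]
      congr 1
      omega
    have h4 : 2 * q ^ (e / 2) ≤ q ^ (e - 1) := by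
      have h5 : q ^ (e / 2 + 1) ≤ q ^ (e - 1) := Nat.pow_le_pow_right (by omega) (by omega)
      refine le_trans ?_ h5
      rw [pow_succ, mul_comm 2]
      exact Nat.mul_le_mul_left _ hq2
    have h6 : (2 ^ q - 1) * (q - 1) ≤ (q ^ (e - 1) - 1) * (q - 1) :=
      Nat.mul_le_mul_right _ (by omega)
    have h7 : (q ^ (e - 1) - 1) * (q - 1) + q ^ (e - 1) + q = q ^ (e - 1) * q + 1 := by
      have h8 : 1 ≤ q ^ (e - 1) := Nat.one_le_pow _ _ (by omega)
      zify [h8, (by omega : 1 ≤ q)]
      ring
    omega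
  obtain ⟨θ, hθ⟩ : ∃ θ : K, θ ∉ B1 ∪ B2 := by
    by_contra hc
    push Not at hc
    have : B1 ∪ B2 = Finset.univ := Finset.eq_univ_iff_forall.2 hc
    rw [this, Finset.card_univ] at hlt
    exact lt_irrefl _ hlt
  rw [Finset.mem_union, not_or] at hθ
  obtain ⟨hθ1, hθ2⟩ := hθ
  have hint : IsIntegral k θ := Algebra.IsIntegral.isIntegral θ
  set h := minpoly k θ with hh
  have hm : h.Monic := minpoly.monic hint
  have hirr : Irreducible h := minpoly.irreducible hint
  have hdvd : h.natDegree ∣ e := by
    have h3 := minpoly.degree_dvd hint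
    have hfr : Module.finrank k (FiniteField.Extension k 2 e) = e :=
      FiniteField.finrank_extension k 2 e
    rwa [hfr] at h3
  have hdeg : h.natDegree = e := by
    by_contra hne'
    have hpos : 0 < h.natDegree := hirr.natDegree_pos
    have hle : h.natDegree ≤ e / 2 := by
      obtain ⟨r, hr⟩ := hdvd
      have hr2 : 2 ≤ r := by
        by_contra hc
        have : r = 0 ∨ r = 1 := by omega
        rcases this with h0 | h0
        · rw [h0, mul_zero] at hr
          omega
        · rw [h0, mul_one] at hr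
          exact hne' hr.symm
      rw [Nat.le_div_iff_mul_le (by norm_num)]
      calc h.natDegree * 2 ≤ h.natDegree * r := Nat.mul_le_mul_left _ hr2
        _ = e := hr.symm
    apply hθ2
    rw [hB2, Finset.mem_biUnion]
    refine ⟨h.natDegree, Finset.mem_Icc.2 ⟨hpos, hle⟩, ?_⟩
    rw [Multiset.mem_toFinset, Polynomial.mem_aroots]
    have h3 : 1 < q ^ h.natDegree := Nat.one_lt_pow (by omega) (by omega)
    refine ⟨FiniteField.X_pow_card_sub_X_ne_zero k h3, ?_⟩
    have h4 : h ∣ X ^ (Nat.card k) ^ h.natDegree - X :=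
      hirr.natDegree_dvd_iff_dvd_X_pow_card_pow_sub_X.1 dvd_rfl
    rw [Nat.card_eq_fintype_card] at h4
    obtain ⟨r, hr⟩ := h4
    rw [hr, map_mul, minpoly.aeval, zero_mul]
  refine ⟨h, hm, hirr, hdeg, fun S hS => ?_⟩
  have hroot : ∀ x : k, h.eval x ≠ 0 := by
    intro x hx
    have h3 := Polynomial.degree_eq_one_of_irreducible_of_root hirr (x := x) hx
    have h4 : h.natDegree = 1 := Polynomial.natDegree_eq_of_degree_eq_some (by rw [h3]; rfl)
    omega
  refine goppa θ h hm e hdeg (minpoly.aeval k θ) ?_ hroot S ?_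
  · intro x hx
    apply hroot x
    have h3 : aeval θ h = 0 := minpoly.aeval k θ
    rw [sub_eq_zero.1 hx, Polynomial.aeval_algebraMap_apply_eq_algebraMap_eval, map_eq_zero] at h3
    exact h3
  · intro h0
    apply hθ1
    rw [hB1, Finset.mem_biUnion]
    refine ⟨S, by rw [Finset.mem_filter]; exact ⟨Finset.mem_univ _, hS⟩, ?_⟩
    rw [Multiset.mem_toFinset, Polynomial.mem_aroots]
    exact ⟨derivative_mS_ne S hS, h0⟩

end Pool.Agent.H35.VQ
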