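import Pool.Agent.H35.VQ.Cube

/-!
# Values of random monic polynomials
-/

namespace Pool.Agent.H35.VQ

open Finset Polynomial

variable {k : Type} [Field k] [Fintype k] [DecidableEq k]

/-- the monic polynomial of degree `n` with lower coefficients `v` -/
noncomputable def pl {n : ℕ} (v : Fin n → k) : k[X] := X ^ n + ∑ i : Fin n, C (v i) * X ^ (i : ℕ)

omit [Fintype k] [DecidableEq k] in
theorem pl_low_degree {n : ℕ} (v : Fin n → k) :
    (∑ i : Fin n, C (v i) * X ^ (i : ℕ) : k[X]).degree < n :=
  Polynomial.degree_sum_fin_lt v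

omit [Fintype k] [DecidableEq k] in
theorem pl_monic {n : ℕ} (v : Fin n → k) : (pl v).Monic :=
  Polynomial.monic_X_pow_add (pl_low_degree v)

omit [Fintype k] [DecidableEq k] in
theorem pl_natDegree {n : ℕ} (v : Fin n → k) : (pl v).natDegree = n := by
  have h := Polynomial.degree_add_eq_left_of_degree_lt
    (p := (X : k[X]) ^ n) (q := ∑ i : Fin n, C (v i) * X ^ (i : ℕ))
    (by rw [Polynomial.degree_X_pow]; exact pl_low_degree v)
  rw [Polynomial.degree_X_pow] at h
  exact Polynomial.natDegree_eq_of_degree_eq_some h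

omit [Fintype k] [DecidableEq k] in
theorem pl_eval {n : ℕ} (v : Fin n → k) (x : k) :
    (pl v).eval x = x ^ n + ∑ i : Fin n, v i * x ^ (i : ℕ) := by
  simp [pl, Polynomial.eval_finsetSum]

omit [Fintype k] [DecidableEq k] in
theorem pl_of_monic {n : ℕ} (p : k[X]) (hp : p.Monic) (hn : p.natDegree = n) :
    pl (fun i : Fin n => p.coeff i) = p := by
  have h := hp.as_sum
  rw [hn] at h
  conv_rhs => rw [h]
  rw [pl, Finset.sum_range]

omit [Fintype k] [DecidableEq k] in
theorem pl_coeff {n : ℕ} (v : Fin n → k) (i : Fin n) : (pl v).coeff i = v i := by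
  rw [pl, Polynomial.coeff_add, Polynomial.coeff_X_pow, Polynomial.finsetSum_coeff]
  rw [if_neg (by have := i.2; omega), zero_add]
  rw [Finset.sum_eq_single i]
  · simp
  · intro j _ hj
    rw [Polynomial.coeff_C_mul, Polynomial.coeff_X_pow, if_neg, mul_zero]
    intro h
    exact hj (Fin.ext h.symm)
  · intro h
    exact absurd (Finset.mem_univ i) h

omit [Fintype k] [DecidableEq k] in
theorem pl_injective {n : ℕ} : Function.Injective (pl : (Fin n → k) → k[X]) := by
  intro v w h
  funext i
  rw [← pl_coeff v i, h, pl_coeff w i]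

/-- evaluation of the lower part at the points of `D` -/
def evD (n : ℕ) (D : Finset k) : (Fin n → k) →+ (D → k) where
  toFun v x := ∑ i : Fin n, v i * (x : k) ^ (i : ℕ)
  map_zero' := by funext x; simp
  map_add' v w := by
    funext x
    simp only [Pi.add_apply, add_mul, Finset.sum_add_distrib]

omit [Fintype k] in
theorem evD_surj (n : ℕ) (D : Finset k) (hD : D.card ≤ n) : Function.Surjective (evD n D) := by
  intro w
  let r : k → k := fun x => if h : x ∈ D then w ⟨x, h⟩ else 0
  let p := Lagrange.interpolate D id r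
  have hdeg : p.degree < n := by
    refine (Lagrange.degree_interpolate_lt r (Set.injOn_id _)).trans_le ?_
    exact_mod_cast hD
  refine ⟨fun i => p.coeff i, ?_⟩
  funext x
  have hx : p.eval (x : k) = w x := by
    have h := Lagrange.eval_interpolate_at_node r (s := D) (v := id) (Set.injOn_id _) x.2
    simp only [id] at h
    change p.eval (x : k) = r x at h
    rw [h]
    simp [r]
  rw [← hx]
  change ∑ i : Fin n, p.coeff i * (x : k) ^ (i : ℕ) = p.eval (x : k)
  rcases Nat.eq_zero_or_pos n with h0 | h0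
  · subst h0
    have : p = 0 := by
      rw [← Polynomial.degree_eq_bot]
      by_contra hne
      rw [Polynomial.degree_eq_natDegree (by
        intro h
        rw [h] at hne
        exact hne Polynomial.degree_zero)] at hdeg
      simp at hdeg
    rw [this]
    simp
  · have hnd : p.natDegree < n := by
      by_cases hp : p = 0
      · rw [hp]
        simpa using h0
      · exact (Polynomial.natDegree_lt_iff_degree_lt hp).2 hdeg
    rw [Polynomial.eval_eq_sum_range' hnd, Finset.sum_range]

theorem sum_evD (n : ℕ) (D : Finset k) (hD : D.card ≤ n) (F : (D → k) → ℝ) :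
    ∑ v : Fin n → k, F (evD n D v) =
      (Fintype.card k : ℝ) ^ n * ((∑ w : D → k, F w) / (Fintype.card k : ℝ) ^ D.card) := by
  classical
  have hsurj := evD_surj n D hD
  have hfib : ∀ w : D → k, (Finset.univ.filter fun v : Fin n → k => evD n D v = w).card =
      (Finset.univ.filter fun v : Fin n → k => evD n D v = 0).card := by
    intro w
    exact AddMonoidHom.card_fiber_eq_of_mem_range (evD n D) (hsurj w) (hsurj 0)
  set c := (Finset.univ.filter fun v : Fin n → k => evD n D v = 0).card with hc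
  have h1 : ∀ G : (D → k) → ℝ, ∑ v : Fin n → k, G (evD n D v) = c * ∑ w : D → k, G w := by
    intro G
    rw [← Finset.sum_fiberwise Finset.univ (evD n D) (fun v => G (evD n D v)), Finset.mul_sum]
    refine Finset.sum_congr rfl fun w _ => ?_
    rw [Finset.sum_congr rfl fun v hv => by rw [(Finset.mem_filter.1 hv).2], Finset.sum_const, hfib w,
      nsmul_eq_mul]
  have h2 := h1 (fun _ => 1)
  simp only [Finset.sum_const, Finset.card_univ, Fintype.card_fun, Fintype.card_fin, nsmul_eq_mul,
    mul_one, Fintype.card_coe] at h2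
  have hq : (0 : ℝ) < Fintype.card k := by exact_mod_cast Fintype.card_pos
  rw [h1 F]
  push_cast at h2
  field_simp
  rw [h2]
  ring

theorem sum_prod_eval (n : ℕ) (D : Finset k) (hD : D.card ≤ n) (φ : k → k → ℝ) :
    ∑ v : Fin n → k, ∏ x ∈ D, φ x ((pl v).eval x) =
      (Fintype.card k : ℝ) ^ n * ∏ x ∈ D, ((∑ a, φ x a) / (Fintype.card k : ℝ)) := by
  have h1 : ∀ v : Fin n → k, ∏ x ∈ D, φ x ((pl v).eval x) =
      (fun w : D → k => ∏ x : D, φ x ((x : k) ^ n + w x)) (evD n D v) := by
    intro v
    rw [← Finset.prod_coe_sort]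
    refine Finset.prod_congr rfl fun x _ => ?_
    rw [pl_eval]
    rfl
  rw [Finset.sum_congr rfl fun v _ => h1 v]
  refine (sum_evD n D hD (fun w : D → k => ∏ x : D, φ x ((x : k) ^ n + w x))).trans ?_
  congr 1
  have h2 : ∑ w : D → k, ∏ x : D, φ x ((x : k) ^ n + w x) = ∏ x : D, ∑ a, φ x a := by
    have h3 : ∀ x : D, ∑ a, φ x a = ∑ a ∈ (Finset.univ : Finset k), φ x ((x : k) ^ n + a) := by
      intro x
      exact (Fintype.sum_equiv (Equiv.addLeft ((x : k) ^ n)) _ _ fun a => rfl).symm
    rw [Finset.prod_congr rfl fun x _ => h3 x, Finset.prod_univ_sum, Fintype.piFinset_univ]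
  rw [h2, Finset.prod_div_distrib, Finset.prod_const, Finset.prod_coe_sort D (fun x => ∑ a, φ x a)]

/-- the sample space: lower coefficients and auxiliary signs -/
abbrev Sp (k : Type) (n : ℕ) : Type := (Fin n → k) × (k → Bool)

theorem sum_sp (n : ℕ) (D : Finset k) (hD : D.card ≤ n) (ψ : k → k → Bool → ℝ) :
    ∑ ω : Sp k n, ∏ x ∈ D, ψ x ((pl ω.1).eval x) (ω.2 x) =
      (Fintype.card k : ℝ) ^ n * 2 ^ Fintype.card k *
        ∏ x ∈ D, ((∑ a, ∑ b, ψ x a b) / (2 * (Fintype.card k : ℝ))) := by
  rw [Fintype.sum_prod_type]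
  have h1 : ∀ v : Fin n → k, ∑ σ : k → Bool, ∏ x ∈ D, ψ x ((pl v).eval x) (σ x) =
      2 ^ Fintype.card k * ∏ x ∈ D, ((∑ b, ψ x ((pl v).eval x) b) / 2) := by
    intro v
    have h2 : ∀ σ : k → Bool, ∏ x ∈ D, ψ x ((pl v).eval x) (σ x) =
        ∏ x : k, (if x ∈ D then ψ x ((pl v).eval x) (σ x) else 1) := by
      intro σ
      rw [Finset.prod_ite_mem, Finset.univ_inter]
    rw [Finset.sum_congr rfl fun σ _ => h2 σ, ← Fintype.piFinset_univ,
      ← Finset.prod_univ_sum (fun _ => (Finset.univ : Finset Bool))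
        (fun x b => if x ∈ D then ψ x ((pl v).eval x) b else 1)]
    have h3 : ∀ x : k, (∑ b : Bool, if x ∈ D then ψ x ((pl v).eval x) b else 1) =
        2 * (if x ∈ D then ((∑ b, ψ x ((pl v).eval x) b) / 2) else 1) := by
      intro x
      by_cases hx : x ∈ D
      · simp [hx]
        ring
      · simp [hx]
    rw [Finset.prod_congr rfl fun x _ => h3 x, Finset.prod_mul_distrib, Finset.prod_const,
      Finset.card_univ, Finset.prod_ite_mem, Finset.univ_inter]
  change ∑ v : Fin n → k, ∑ σ : k → Bool, ∏ x ∈ D, ψ x ((pl v).eval x) (σ x) = _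
  rw [Finset.sum_congr rfl fun v _ => h1 v, ← Finset.mul_sum,
    sum_prod_eval n D hD (fun x a => (∑ b, ψ x a b) / 2)]
  have h4 : ∀ x : k, (∑ a, (∑ b, ψ x a b) / 2) / (Fintype.card k : ℝ) =
      (∑ a, ∑ b, ψ x a b) / (2 * (Fintype.card k : ℝ)) := by
    intro x
    rw [← Finset.sum_div, div_div]
  rw [Finset.prod_congr rfl fun x _ => h4 x]
  ring

/-- the total number of samples -/
noncomputable def tot (k : Type) [Fintype k] (n : ℕ) : ℝ :=
  (Fintype.card k : ℝ) ^ n * 2 ^ Fintype.card k

/-- the signs of a sample -/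
noncomputable def sgs {n : ℕ} (s : k → k → Bool → ℝ) (ω : Sp k n) (x : k) : ℝ :=
  s x ((pl ω.1).eval x) (ω.2 x)

theorem unbiased (n : ℕ) (s : k → k → Bool → ℝ) (h0 : ∀ x, ∑ a, ∑ b, s x a b = 0) (D : Finset k)
    (hD : D.card ≤ n) :
    ∑ ω : Sp k n, mon D (sgs s ω) = if D = ∅ then tot k n else 0 := by
  have h1 : ∀ ω : Sp k n, mon D (sgs s ω) = ∏ x ∈ D, s x ((pl ω.1).eval x) (ω.2 x) := by
    intro ω
    rw [mon_eq_prod]
    rfl
  rw [Finset.sum_congr rfl fun ω _ => h1 ω, sum_sp n D hD]
  by_cases hD0 : D = ∅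
  · subst hD0
    simp [tot]
  · obtain ⟨y, hy⟩ := Finset.nonempty_iff_ne_empty.2 hD0
    rw [if_neg hD0, Finset.prod_eq_zero hy (by rw [h0 y]; simp), mul_zero]

theorem unbiased_zeros (n : ℕ) (s : k → k → Bool → ℝ) (h0 : ∀ x, ∑ a, ∑ b, s x a b = 0)
    (h1 : ∀ x, ∑ b, s x 0 b = 0) (y z : k) (D : Finset k) (hD : D.card + 2 ≤ n) :
    ∑ ω : Sp k n, ((if (pl ω.1).eval y = 0 then (1 : ℝ) else 0) *
      (if (pl ω.1).eval z = 0 then (1 : ℝ) else 0)) * mon D (sgs s ω) =
      if D = ∅ then tot k n * (if y = z then 1 / (Fintype.card k : ℝ)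
        else 1 / (Fintype.card k : ℝ) ^ 2) else 0 := by
  classical
  set E : Finset k := D ∪ {y, z} with hE
  have hEc : E.card ≤ n := by
    refine (Finset.card_union_le _ _).trans ?_
    have : ({y, z} : Finset k).card ≤ 2 := Finset.card_le_two
    omega
  set ψ : k → k → Bool → ℝ := fun x a b =>
    (if x = y ∨ x = z then (if a = 0 then 1 else 0) else 1) * (if x ∈ D then s x a b else 1) with hψ
  have hprod : ∀ ω : Sp k n, ((if (pl ω.1).eval y = 0 then (1 : ℝ) else 0) *
      (if (pl ω.1).eval z = 0 then (1 : ℝ) else 0)) * mon D (sgs s ω) =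
      ∏ x ∈ E, ψ x ((pl ω.1).eval x) (ω.2 x) := by
    intro ω
    simp only [hψ]
    rw [Finset.prod_mul_distrib]
    congr 1
    · have h2 : ∏ x ∈ E, (if x = y ∨ x = z then (if (pl ω.1).eval x = 0 then (1 : ℝ) else 0) else 1)
          = ∏ x ∈ ({y, z} : Finset k), (if (pl ω.1).eval x = 0 then (1 : ℝ) else 0) := by
        rw [← Finset.prod_subset (s₁ := {y, z}) (s₂ := E) Finset.subset_union_right]
        · refine Finset.prod_congr rfl fun x hx => ?_
          rw [Finset.mem_insert, Finset.mem_singleton] at hx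
          rw [if_pos hx]
        · intro x _ hx
          rw [Finset.mem_insert, Finset.mem_singleton] at hx
          rw [if_neg hx]
      rw [h2]
      by_cases hyz : y = z
      · subst hyz
        simp
      · rw [Finset.prod_pair hyz]
    · rw [mon_eq_prod, ← Finset.prod_subset (s₁ := D) (s₂ := E) Finset.subset_union_left]
      · refine Finset.prod_congr rfl fun x hx => ?_
        rw [if_pos hx]
        rfl
      · intro x _ hx
        rw [if_neg hx]
  rw [Finset.sum_congr rfl fun ω _ => hprod ω, sum_sp n E hEc]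
  have hq : (0 : ℝ) < Fintype.card k := by exact_mod_cast Fintype.card_pos
  by_cases hD0 : D = ∅
  · subst hD0
    rw [if_pos rfl]
    have hE2 : E = {y, z} := by rw [hE, Finset.empty_union]
    have h3 : ∀ x ∈ E, (∑ a, ∑ b, ψ x a b) / (2 * (Fintype.card k : ℝ)) = 1 / (Fintype.card k : ℝ) := by
      intro x hx
      rw [hE2, Finset.mem_insert, Finset.mem_singleton] at hx
      have : ∑ a, ∑ b, ψ x a b = 2 := by
        simp only [hψ]
        simp [hx]
      rw [this]
      field_simp
    rw [Finset.prod_congr rfl h3, Finset.prod_const, hE2, tot]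
    by_cases hyz : y = z
    · subst hyz
      simp
    · rw [Finset.card_pair hyz, if_neg hyz]
      congr 1
      ring
  · obtain ⟨u, hu⟩ := Finset.nonempty_iff_ne_empty.2 hD0
    rw [if_neg hD0, Finset.prod_eq_zero (i := u) (Finset.mem_union_left _ hu), mul_zero]
    have : ∑ a, ∑ b, ψ u a b = 0 := by
      simp only [hψ]
      by_cases huy : u = y ∨ u = z
      · simp only [huy, if_true, hu]
        have h4 : ∀ a : k, ∑ b, (if a = 0 then (1 : ℝ) else 0) * s u a b =
            if a = 0 then ∑ b, s u 0 b else 0 := by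
          intro a
          by_cases ha : a = 0
          · subst ha
            simp
          · simp [ha]
        rw [Finset.sum_congr rfl fun a _ => h4 a, h1 u]
        simp
      · simp only [huy, if_false, hu, if_true, one_mul]
        exact h0 u
    rw [this, zero_div]

end Pool.Agent.H35.VQ
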