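import Pool.Agent.H35.VQ.Cube

/-!
# An approximate eigenvector of the Krawtchouk recurrence
-/

namespace Pool.Agent.H35.VQ

open Finset

/-- off-diagonal entries of the Jacobi matrix -/
noncomputable def bb (q n : ℕ) : ℝ := √((n : ℝ) * ((q : ℝ) - n + 1))

theorem bb_nonneg (q n : ℕ) : 0 ≤ bb q n := Real.sqrt_nonneg _

theorem bb_sq (q n : ℕ) (h : n ≤ q + 1) : bb q n ^ 2 = (n : ℝ) * ((q : ℝ) - n + 1) := by
  unfold bb
  rw [Real.sq_sqrt]
  have : (n : ℝ) ≤ q + 1 := by exact_mod_cast h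
  exact mul_nonneg (by positivity) (by linarith)

section

variable {N q : ℕ} {t : ℝ}

theorem bb_lower (hq : 8 * N ≤ q) {n : ℕ} (h1 : N ≤ n) (h2 : n ≤ 2 * N + 2) (hN : 10 ≤ N) :
    7 / 8 * ((N : ℝ) * q) ≤ bb q n ^ 2 := by
  rw [bb_sq q n (by omega)]
  have h3 : (8 : ℝ) * N ≤ q := by exact_mod_cast hq
  have h4 : (N : ℝ) ≤ n := by exact_mod_cast h1
  have h5 : (n : ℝ) ≤ 2 * N + 2 := by exact_mod_cast h2
  have h6 : (10 : ℝ) ≤ N := by exact_mod_cast hN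
  nlinarith [mul_nonneg (sub_nonneg.2 h4) (by linarith : (0 : ℝ) ≤ q + 1 - n - N)]

theorem bb_upper (hq : 8 * N ≤ q) {n : ℕ} (h2 : n ≤ 2 * N + 1) (hN : 10 ≤ N) :
    bb q n ≤ 29 / 20 * √((N : ℝ) * q) := by
  have h3 : (8 : ℝ) * N ≤ q := by exact_mod_cast hq
  have h5 : (n : ℝ) ≤ 2 * N + 1 := by exact_mod_cast h2
  have h6 : (10 : ℝ) ≤ N := by exact_mod_cast hN
  have h7 : (0 : ℝ) ≤ n := by positivity
  have hs : 0 ≤ √((N : ℝ) * q) := Real.sqrt_nonneg _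
  refine le_of_sq_le_sq ?_ (by positivity)
  rw [bb_sq q n (by omega), mul_pow, Real.sq_sqrt (by positivity)]
  have h8 : (n : ℝ) * (q - n + 1) ≤ n * q := by
    rcases Nat.eq_zero_or_pos n with h0 | h0
    · subst h0
      simp
    · have : (1 : ℝ) ≤ n := by exact_mod_cast h0
      nlinarith
  have h9 : (n : ℝ) * q ≤ (2 * N + 1) * q := by
    have : (0 : ℝ) ≤ q := by positivity
    nlinarith
  have h10 : (0 : ℝ) ≤ q := by positivity
  nlinarith

theorem bb_lower' (hq : 8 * N ≤ q) {n : ℕ} (h1 : N ≤ n) (h2 : n ≤ 2 * N + 2) (hN : 10 ≤ N) :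
    93 / 100 * √((N : ℝ) * q) ≤ bb q n := by
  refine le_of_sq_le_sq ?_ (bb_nonneg q n)
  have := bb_lower hq h1 h2 hN
  rw [mul_pow, Real.sq_sqrt (by positivity)]
  have h0 : (0 : ℝ) ≤ N * q := by positivity
  nlinarith

theorem sqrt_pos' (hq : 8 * N ≤ q) (hN : 10 ≤ N) : 0 < √((N : ℝ) * q) := by
  apply Real.sqrt_pos.2
  have h3 : (0 : ℝ) < q := by exact_mod_cast (by omega : 0 < q)
  have h6 : (0 : ℝ) < N := by exact_mod_cast (by omega : 0 < N)
  positivity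

theorem bb_diff (hq : 8 * N ≤ q) {n : ℕ} (h1 : N ≤ n) (h2 : n + 1 ≤ 2 * N + 2) (hN : 10 ≤ N) :
    |bb q (n + 1) - bb q n| ≤ 3 / 5 * (q / √((N : ℝ) * q)) := by
  have hs := sqrt_pos' hq hN
  have e1 := bb_lower' hq h1 (by omega) hN
  have e2 := bb_lower' hq (n := n + 1) (by omega) h2 hN
  have hsum : (93 / 50) * √((N : ℝ) * q) ≤ bb q (n + 1) + bb q n := by linarith
  have hpos : 0 < bb q (n + 1) + bb q n := by nlinarith
  have h3 : |bb q (n + 1) - bb q n| * (bb q (n + 1) + bb q n) = |(q : ℝ) - 2 * n| := by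
    have i1 := bb_sq q n (by omega)
    have i2 := bb_sq q (n + 1) (by omega)
    push_cast at i2
    have i3 : (bb q (n + 1) - bb q n) * (bb q (n + 1) + bb q n) = (q : ℝ) - 2 * n := by nlinarith
    rw [← i3, abs_mul, abs_of_pos hpos]
  have h4 : |(q : ℝ) - 2 * n| ≤ q := by
    have h5 : (8 : ℝ) * N ≤ q := by exact_mod_cast hq
    have h6 : (n : ℝ) + 1 ≤ 2 * N + 2 := by exact_mod_cast h2
    have h7 : (10 : ℝ) ≤ N := by exact_mod_cast hN
    have h8 : (0 : ℝ) ≤ n := by positivity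
    rw [abs_le]
    constructor <;> linarith
  rw [← mul_div_assoc, le_div_iff₀ hs]
  have h9 : |bb q (n + 1) - bb q n| * ((93 / 50) * √((N : ℝ) * q)) ≤ q := by
    calc _ ≤ |bb q (n + 1) - bb q n| * (bb q (n + 1) + bb q n) := by gcongr
      _ ≤ q := by rw [h3]; exact h4
  have h10 : (0 : ℝ) ≤ |bb q (n + 1) - bb q n| * √((N : ℝ) * q) := by positivity
  nlinarith

/-- half of the cosine -/
noncomputable def uu (q : ℕ) (t : ℝ) (n : ℕ) : ℝ := t / (2 * bb q n)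

/-- the sine -/
noncomputable def vv (q : ℕ) (t : ℝ) (n : ℕ) : ℝ := √(1 - uu q t n ^ 2)

theorem uu_sq (hq : 8 * N ≤ q) {n : ℕ} (h1 : N ≤ n) (h2 : n ≤ 2 * N + 2) (hN : 10 ≤ N)
    (ht : t ^ 2 ≤ (N : ℝ) * q) : uu q t n ^ 2 ≤ 2 / 7 := by
  have h := bb_lower hq h1 h2 hN
  have hs := sqrt_pos' hq hN
  have e1 := bb_lower' hq h1 h2 hN
  have hb : 0 < bb q n := by nlinarith
  unfold uu
  rw [div_pow, div_le_iff₀ (by positivity), mul_pow]
  nlinarith

theorem uu_abs (hq : 8 * N ≤ q) {n : ℕ} (h1 : N ≤ n) (h2 : n ≤ 2 * N + 2) (hN : 10 ≤ N)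
    (ht : t ^ 2 ≤ (N : ℝ) * q) : |uu q t n| ≤ 27 / 50 := by
  have h := uu_sq hq h1 h2 hN ht
  exact abs_le_of_sq_le_sq (by norm_num; linarith) (by norm_num)

theorem vv_lower (hq : 8 * N ≤ q) {n : ℕ} (h1 : N ≤ n) (h2 : n ≤ 2 * N + 2) (hN : 10 ≤ N)
    (ht : t ^ 2 ≤ (N : ℝ) * q) : 21 / 25 ≤ vv q t n := by
  have h := uu_sq hq h1 h2 hN ht
  unfold vv
  rw [Real.le_sqrt' (by norm_num)]
  nlinarith

theorem uu_diff (hq : 8 * N ≤ q) {n : ℕ} (h1 : N ≤ n) (h2 : n + 1 ≤ 2 * N + 2) (hN : 10 ≤ N)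
    (ht : t ^ 2 ≤ (N : ℝ) * q) : |uu q t (n + 1) - uu q t n| ≤ (7 / 20) / N := by
  have hs := sqrt_pos' hq hN
  have e1 := bb_lower' hq h1 (by omega) hN
  have e2 := bb_lower' hq (n := n + 1) (by omega) h2 hN
  have hb : 0 < bb q n := by nlinarith
  have hb' : 0 < bb q (n + 1) := by nlinarith
  have hNpos : (0 : ℝ) < N := by exact_mod_cast (by omega : 0 < N)
  have hqpos : (0 : ℝ) < q := by exact_mod_cast (by omega : 0 < q)
  have h3 : uu q t (n + 1) - uu q t n = t / 2 * ((bb q n - bb q (n + 1)) / (bb q n * bb q (n + 1))) := by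
    unfold uu
    field_simp
  have habs : |t| ≤ √((N : ℝ) * q) := by
    rw [← Real.sqrt_sq_eq_abs]
    exact Real.sqrt_le_sqrt ht
  have hd := bb_diff hq h1 h2 hN
  rw [h3, abs_mul, abs_div, abs_div, abs_of_pos (mul_pos hb hb'), abs_of_pos (by norm_num : (0 : ℝ) < 2),
    abs_sub_comm]
  have hss : √((N : ℝ) * q) ^ 2 = N * q := Real.sq_sqrt (by positivity)
  have h4 : (93 / 100) ^ 2 * ((N : ℝ) * q) ≤ bb q n * bb q (n + 1) := by
    rw [← hss]
    nlinarith [mul_le_mul e1 e2 (by positivity) hb.le]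
  calc |t| / 2 * (|bb q (n + 1) - bb q n| / (bb q n * bb q (n + 1)))
      ≤ √((N : ℝ) * q) / 2 * (3 / 5 * (q / √((N : ℝ) * q)) / ((93 / 100) ^ 2 * ((N : ℝ) * q))) := by
        gcongr
    _ = (3 / 10 / (93 / 100) ^ 2) / N := by
        field_simp
        norm_num
    _ ≤ (7 / 20) / N := div_le_div_of_nonneg_right (by norm_num) hNpos.le

theorem vv_diff (hq : 8 * N ≤ q) {n : ℕ} (h1 : N ≤ n) (h2 : n + 1 ≤ 2 * N + 2) (hN : 10 ≤ N)
    (ht : t ^ 2 ≤ (N : ℝ) * q) : |vv q t (n + 1) - vv q t n| ≤ (23 / 100) / N := by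
  have e1 := vv_lower hq h1 (by omega) hN ht
  have e2 := vv_lower hq (n := n + 1) (by omega) h2 hN ht
  have d1 := uu_diff hq h1 h2 hN ht
  have a1 := uu_abs hq h1 (by omega) hN ht
  have a2 := uu_abs hq (n := n + 1) (by omega) h2 hN ht
  have s1 : vv q t n ^ 2 = 1 - uu q t n ^ 2 := by
    unfold vv
    rw [Real.sq_sqrt]
    have := uu_sq hq h1 (by omega) hN ht
    linarith
  have s2 : vv q t (n + 1) ^ 2 = 1 - uu q t (n + 1) ^ 2 := by
    unfold vv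
    rw [Real.sq_sqrt]
    have := uu_sq hq (n := n + 1) (by omega) h2 hN ht
    linarith
  have hNpos : (0 : ℝ) < N := by exact_mod_cast (by omega : 0 < N)
  have h3 : |vv q t (n + 1) - vv q t n| * (vv q t (n + 1) + vv q t n) =
      |uu q t (n + 1) - uu q t n| * |uu q t (n + 1) + uu q t n| := by
    have i3 : (vv q t (n + 1) - vv q t n) * (vv q t (n + 1) + vv q t n) =
        -((uu q t (n + 1) - uu q t n) * (uu q t (n + 1) + uu q t n)) := by nlinarith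
    rw [← abs_mul, ← abs_neg ((uu q t (n + 1) - uu q t n) * (uu q t (n + 1) + uu q t n)), ← i3,
      abs_mul, abs_of_pos (by linarith : 0 < vv q t (n + 1) + vv q t n)]
  have h4 : |uu q t (n + 1) + uu q t n| ≤ 27 / 25 := by
    refine (abs_add_le _ _).trans ?_
    linarith
  have h5 : |vv q t (n + 1) - vv q t n| * (42 / 25) ≤ (7 / 20) / N * (27 / 25) := by
    calc |vv q t (n + 1) - vv q t n| * (42 / 25)
        ≤ |vv q t (n + 1) - vv q t n| * (vv q t (n + 1) + vv q t n) := by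
          gcongr
          linarith
      _ = |uu q t (n + 1) - uu q t n| * |uu q t (n + 1) + uu q t n| := h3
      _ ≤ (7 / 20) / N * (27 / 25) := by gcongr
  have h6 : (7 / 20) / (N : ℝ) * (27 / 25) = (189 / 500) / N := by ring
  rw [h6] at h5
  have h7 : (189 / 500 : ℝ) / N = (189 / 500) * (1 / N) := by ring
  have h8 : (23 / 100 : ℝ) / N = (23 / 100) * (1 / N) := by ring
  rw [h7] at h5
  rw [h8]
  have h9 : (0 : ℝ) < 1 / N := by positivity
  nlinarith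

/-- the local phase factor -/
noncomputable def zz (q : ℕ) (t : ℝ) (n : ℕ) : ℂ := ⟨uu q t n, vv q t n⟩

theorem zz_norm (hq : 8 * N ≤ q) {n : ℕ} (h1 : N ≤ n) (h2 : n ≤ 2 * N + 2) (hN : 10 ≤ N)
    (ht : t ^ 2 ≤ (N : ℝ) * q) : ‖zz q t n‖ = 1 := by
  have s1 : vv q t n ^ 2 = 1 - uu q t n ^ 2 := by
    unfold vv
    rw [Real.sq_sqrt]
    have := uu_sq hq h1 h2 hN ht
    linarith
  have h3 : ‖zz q t n‖ ^ 2 = 1 := by
    rw [← Complex.normSq_eq_norm_sq, Complex.normSq_apply]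
    simp only [zz]
    nlinarith
  exact (pow_eq_one_iff_of_nonneg (norm_nonneg _) two_ne_zero).1 h3

theorem zz_add_conj (hq : 8 * N ≤ q) {n : ℕ} (h1 : N ≤ n) (h2 : n ≤ 2 * N + 2) (hN : 10 ≤ N) :
    (bb q n : ℂ) * (zz q t n + (starRingEnd ℂ) (zz q t n)) = t := by
  have hs := sqrt_pos' hq hN
  have e1 := bb_lower' hq h1 h2 hN
  have hb : 0 < bb q n := by nlinarith
  rw [Complex.add_conj]
  simp only [zz]
  rw [← Complex.ofReal_mul]
  congr 1
  unfold uu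
  field_simp

theorem zz_diff (hq : 8 * N ≤ q) {n : ℕ} (h1 : N ≤ n) (h2 : n + 1 ≤ 2 * N + 2) (hN : 10 ≤ N)
    (ht : t ^ 2 ≤ (N : ℝ) * q) : ‖zz q t (n + 1) - zz q t n‖ ≤ (3 / 5) / N := by
  have d1 := uu_diff hq h1 h2 hN ht
  have d2 := vv_diff hq h1 h2 hN ht
  refine (Complex.norm_le_abs_re_add_abs_im _).trans ?_
  simp only [zz, Complex.sub_re, Complex.sub_im]
  have h7 : (7 / 20 : ℝ) / N = (7 / 20) * (1 / N) := by ring
  have h8 : (23 / 100 : ℝ) / N = (23 / 100) * (1 / N) := by ring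
  have h10 : (3 / 5 : ℝ) / N = (3 / 5) * (1 / N) := by ring
  have h9 : (0 : ℝ) ≤ 1 / N := by positivity
  rw [h7] at d1
  rw [h8] at d2
  rw [h10]
  linarith

end

end Pool.Agent.H35.VQ
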